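import Pool.Agent.Lib.MP_65c801_co.U.St

/-! The dichotomy of the dyadic boxes, with global boxes. -/

namespace Pool.Agent.Lib.MP_65c801_co.U

open Finset Classical T T.BoxAux

/-- the box of a curve in a window -/
noncomputable def fb {V α : Type} [Fintype V] [LinearOrder α] (h : V → ℕ → α) (S i j : ℕ) (y : V)
    (w : ℕ) : ℕ × ℕ :=
  (rkN h (w * S) y / 2 ^ i / 2, rkN h (w * S + (S - 1)) y / 2 ^ j / 2)

lemma co_fb {V α : Type} [Fintype V] [LinearOrder α] {h : V → ℕ → α} {E : V → V → Prop}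
    {t : V → V → ℕ} {S i j : ℕ} {a y b z : V} (h0 : ro h E t S i j 0 a y)
    (h1 : ro h E t S i j 1 b z) (e1 : t a y / S = t b z / S)
    (e : fb h S i j y (t a y / S) = fb h S i j z (t b z / S)) : Co h S (t a y / S) y z := by
  simp only [fb, Prod.mk.injEq] at e
  obtain ⟨e2, e3⟩ := e
  obtain ⟨-, a1, a2⟩ := h0
  obtain ⟨-, b1, b2⟩ := h1
  rw [← e1] at e2 e3 b1 b2
  exact ⟨rkN_lt_iff.1 (Nat.lt_of_div_lt_div (c := 2 ^ i) (by omega)),
    rkN_lt_iff.1 (Nat.lt_of_div_lt_div (c := 2 ^ j) (by omega))⟩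

theorem boxW : BoxWS := by
  intro V α _ _ h E t S L θ m c hm
  obtain ⟨n1, -, L1, θ1⟩ := c.num
  have t0 : (0:ℝ) ≤ θ := Nat.cast_nonneg _
  set Rm : ℕ → ℕ → ℕ → V → V → Prop := fun i j b =>
    Sm (ro h E t S i j b) (ro h E t S i j (1 - b)) (bx h t S i j) θ with hRm
  set Bad : V → V → Prop := fun a y => ∃ i < L, ∃ j < L, ∃ b < 2, Rm i j b a y with hBad
  have sp := cnt_split (fun e : V × V => E e.1 e.2) fun e => Bad e.1 e.2
  rcases le_total (cnt fun e : V × V => E e.1 e.2 ∧ Bad e.1 e.2)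
    (cnt fun e : V × V => E e.1 e.2 ∧ ¬ Bad e.1 e.2) with le | le
  · refine Or.inl ⟨fun a y => E a y ∧ ¬ Bad a y, fun a y g => g.1, ?_, ?_⟩
    · refine hm.trans ?_
      have : ed E ≤ 2 * ed fun a y => E a y ∧ ¬ Bad a y := by unfold ed; linarith
      calc _ ≤ 4 * (L:ℝ) ^ 2 * (2 * ed fun a y => E a y ∧ ¬ Bad a y) := by gcongr
        _ = _ := by ring
    · rintro a y ⟨g, k⟩
      refine cover2 _ L (fun i j z => ∃ b < 2, ro h E t S i j b a y ∧ ro h E t S i j (1 - b) a z ∧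
        bx h t S i j a z = bx h t S i j a y) ?_ fun i hi j hj => ?_
      · rintro z ⟨⟨g', -⟩, w, co | co⟩
        · obtain ⟨i, hi, j, hj, r⟩ := of_co c.cb g g' w co
          exact ⟨i, hi, j, hj, 0, by omega, r⟩
        · rw [← w] at co
          obtain ⟨i, hi, j, hj, r0, r1, e⟩ := of_co c.cb g' g w.symm co
          exact ⟨i, hi, j, hj, 1, by omega, r1, r0, e.symm⟩
      · by_cases ex : ∃ z, ((E a z ∧ ¬ Bad a z) ∧ t a z / S = t a y / S ∧
            (Co h S (t a y / S) y z ∨ Co h S (t a y / S) z y)) ∧ ∃ b < 2, ro h E t S i j b a y ∧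
            ro h E t S i j (1 - b) a z ∧ bx h t S i j a z = bx h t S i j a y
        · obtain ⟨z, ⟨⟨-, k'⟩, -⟩, b, hb, r0, r1, e⟩ := ex
          have e1 : 1 - (1 - b) = b := by omega
          refine le_trans (cnt_mono ?_) (kept e r0 r1 (fun s => k ⟨i, hi, j, hj, b, hb, s⟩)
            fun s => k' ⟨i, hi, j, hj, 1 - b, by omega, by simp only [hRm, e1]; exact s⟩)
          rintro x ⟨-, b', -, r0', r1', e'⟩
          obtain rfl : b' = b := r0'.2.1.symm.trans r0.2.1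
          exact ⟨r1', e'⟩
        · exact (cnt_zero fun z hz => ex ⟨z, hz⟩).trans_le t0
  · obtain ⟨i, hi, p1⟩ := pigeon (fun e : V × V => E e.1 e.2 ∧ Bad e.1 e.2) L L1
      (fun i e => ∃ j < L, ∃ b < 2, Rm i j b e.1 e.2) fun e he => he.2
    obtain ⟨j, hj, p2⟩ := pigeon (fun e : V × V => (E e.1 e.2 ∧ Bad e.1 e.2) ∧
      ∃ j < L, ∃ b < 2, Rm i j b e.1 e.2) L L1 (fun j e => ∃ b < 2, Rm i j b e.1 e.2)
      fun e he => he.2
    obtain ⟨b, hb, p3⟩ := pigeon (fun e : V × V => ((E e.1 e.2 ∧ Bad e.1 e.2) ∧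
      ∃ j < L, ∃ b < 2, Rm i j b e.1 e.2) ∧ ∃ b < 2, Rm i j b e.1 e.2) 2 (by omega)
      (fun b e => Rm i j b e.1 e.2) fun e he => he.2
    have p4 := p3.trans (mul_le_mul_of_nonneg_left
      (cnt_mono (q := fun e : V × V => Rm i j b e.1 e.2) fun e he => he.2) (by positivity))
    have r0 : 0 ≤ ed (Rm i j b) := cnt_nonneg _
    have p5 : m ≤ (L:ℝ) ^ 5 * ed (Rm i j b) := by
      have q1 : ed E ≤ 2 * (L * (L * (2 * ed (Rm i j b)))) := by
        have := p1.trans (mul_le_mul_of_nonneg_left (p2.trans (mul_le_mul_of_nonneg_left p4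
          (by positivity))) (by positivity))
        push_cast at this
        unfold ed
        linarith
      calc m ≤ 4 * (L:ℝ) ^ 2 * (2 * (L * (L * (2 * ed (Rm i j b))))) := hm.trans (by gcongr)
        _ = 16 * (L:ℝ) ^ 4 * ed (Rm i j b) := by ring
        _ ≤ _ := mul_le_mul_of_nonneg_right (cpw (by linarith) (by linarith) le_rfl) r0
    obtain ⟨k, k0, k1, k2⟩ := pairs (ro h E t S i j b) (ro h E t S i j (1 - b)) (bx h t S i j) θ1
      fun a y g g' => by have := g.2.1.symm.trans g'.2.1; omega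
    set κ : V → V → ℕ × ℕ × ℕ × ℕ := fun a y =>
      ((bx h t S i j a y).1, (bx h t S i j a y).2.1, (bx h t S i j a y).2.2, k a y) with hκ
    have ke : ∀ a y z, κ a y = κ a z ↔ bx h t S i j a y = bx h t S i j a z ∧ k a y = k a z := by
      intro a y z
      simp only [hκ, Prod.ext_iff, and_assoc]
    have kb : ∀ (A : V → V → Prop), (∀ a β u, cnt (fun y => A a y ∧ bx h t S i j a y = β ∧
        k a y = u) ≤ 2 * θ) → ∀ a u, cnt (fun y => A a y ∧ κ a y = u) ≤ 2 * θ := by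
      intro A hA a u
      refine le_trans (cnt_mono ?_) (hA a (u.1, u.2.1, u.2.2.1) u.2.2.2)
      rintro y ⟨g, rfl⟩
      exact ⟨g, rfl, rfl⟩
    have win : ∀ a y z, κ a y = κ a z → t a y / S = t a z / S := fun a y z e =>
      congrArg Prod.fst e
    have cS : ∀ a u, cnt (fun y => Rm i j b a y ∧ κ a y = u) ≤ 2 * θ := fun a u =>
      (cnt_mono fun y g => ⟨g.1.1, g.2⟩).trans (kb _ k0 a u)
    have many : θ * m ≤ (L:ℝ) ^ 5 * (θ * ed (Rm i j b)) :=
      (mul_le_mul_of_nonneg_left p5 t0).trans (le_of_eq (by ring))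
    have box : ∀ a y z, κ a y = κ a z →
        fb h S i j y (t a y / S) = fb h S i j z (t a z / S) := fun a y z e =>
      congrArg Prod.snd ((ke a y z).1 e).1
    refine Or.inr ?_
    obtain rfl | rfl : b = 0 ∨ b = 1 := by omega
    · refine ⟨Rm i j 0, ro h E t S i j (1 - 0), κ, fb h S i j, fun a y g => g.1.1,
        fun a y g => g.1, win, box, fun a y b z g g' e e' => co_fb g.1 g' e e', cS, kb _ k1,
        many.trans (mul_le_mul_of_nonneg_left (k2.trans (cnt_mono ?_)) (by positivity))⟩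
      rintro z ⟨g, g', e⟩
      exact ⟨g, g', (ke _ _ _).2 e⟩
    · refine ⟨ro h E t S i j (1 - 1), Rm i j 1, κ, fb h S i j, fun a y g => g.1,
        fun a y g => g.1.1, win, box, fun a y b z g g' e e' => co_fb g g'.1 e e', kb _ k1, cS,
        many.trans (mul_le_mul_of_nonneg_left (k2.trans (cnt_inj
          (fun z => (z.1, z.2.2, z.2.1)) ?_ ?_)) (by positivity))⟩
      · rintro z ⟨g, g', e⟩
        exact ⟨g', g, ((ke _ _ _).2 e).symm⟩
      · rintro ⟨a, y, z⟩ ⟨a', y', z'⟩ _ _ e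
        simp only [Prod.mk.injEq] at e ⊢
        exact ⟨e.1, e.2.2, e.2.1⟩

end Pool.Agent.Lib.MP_65c801_co.U
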