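import Pool.Agent.Lib.MP_65c801_co.U.Der

/-! The case of the staircase. -/

namespace Pool.Agent.Lib.MP_65c801_co.U

open Finset Classical T Der

namespace CaseAL

variable {V α : Type} [Fintype V] [LinearOrder α] {h : V → ℕ → α} {H : V → V → Prop}
  {t : V → V → ℕ} {S L j : ℕ} {row col : V → ℕ → ℕ}

omit [Fintype V] in
lemma cl_eq {a y : V} {w : ℕ} (e : t a y / S = w) :
    cl t S row col a y = (w, row y w, col y w) := by rw [cl, e]

/-- the graph of pairs that are joined by many walks contradicts the core statement -/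
lemma fin (i1 : I1S) (i2 : I2S) (core : CoreWS) {θ : ℕ} {N X P d ν M : ℝ} (c : Ct h H t L θ)
    (S0 : 0 < S) (u : Stair h H t S P row col) (P1 : 1 ≤ P) (j1 : 1 ≤ j)
    (dL : ∀ a, cnt (fun y => H a y) ≤ d) (dU : ∀ y, cnt (fun a => H a y) ≤ d)
    (q2 : ∀ y w, cnt (fun a => H a y ∧ t a y / S = w) ≤ P) (d0 : 0 < d)
    (cN : (Fintype.card V : ℝ) ≤ N) (N0 : 0 < N) (X1 : 1 ≤ X) (M0 : 0 < M) (ν0 : 0 < ν)
    (pw : 2 * P ^ (2 * j) < 2 ^ L) (hM : M ≤ 2 * P ^ (2 * j) / ν * P)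
    (nm : Num ((L:ℝ) ^ 9 * X ^ 4 * N) P d M) (Γ : V → V → Prop)
    (lb : V → V → ℕ) (fy fb : V → V → V) (hl : ∀ a z, Γ a z → Lens h S (lb a z) a z)
    (g1 : ∀ a z, Γ a z → H a (fy a z)) (g2 : ∀ a z, Γ a z → H (fb a z) z)
    (w1 : ∀ a z, Γ a z → cl t S row col a (fy a z) = (lb a z, row z (lb a z), col z (lb a z)))
    (w2 : ∀ a z, Γ a z → t (fb a z) z / S = lb a z)
    (hν : ∀ a z, Γ a z → ν ≤ wk (Adj H (cl t S row col) fun a y => t a y / S) (2 * j + 1)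
      (lo H (cl t S row col) a (fy a z)) (up H (fun a y => t a y / S) (fb a z) z))
    (n2 : N * (d * (2 * P ^ (2 * j) / ν)) ≤ X * ed Γ) : False := by
  obtain ⟨-, -, L1, -⟩ := c.num
  have P0 : 0 ≤ P := by linarith
  set σ := 2 * P ^ (2 * j) / ν with hσ
  have σν : σ * ν = 2 * P ^ (2 * j) := div_mul_cancel₀ _ ν0.ne'
  have σ0 : 0 ≤ σ := by positivity
  set κ := cl t S row col with hκ
  set A := Adj H κ fun a y => t a y / S with hA
  have sy : ∀ u v, A u v → A v u := fun u v g => g.symm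
  have ck : ∀ a k, cnt (fun y => H a y ∧ κ a y = k) ≤ P := fun a k => by
    refine le_trans (cnt_mono ?_) (u.rs a k.1 k.2.1)
    rintro y ⟨g, rfl⟩
    exact ⟨g, rfl, rfl⟩
  have hP : ∀ o, cnt (fun v => A o v) ≤ P := adj_deg P0 ck q2
  have pp : 0 ≤ P ^ (2 * j) := by positivity
  have dv : ∀ x B : ℝ, 0 ≤ B → x * ν ≤ B * P ^ (2 * j) → x ≤ B * σ := fun x B B0 e => by
    refine le_of_mul_le_mul_right (e.trans ?_) ν0
    rw [mul_assoc, σν]
    exact mul_le_mul_of_nonneg_left (by linarith) B0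
  have ce : ∀ a z x, Γ a z → κ a x = κ a (fy a z) → t a x / S = lb a z ∧
      row x (lb a z) = row z (lb a z) ∧ col x (lb a z) = col z (lb a z) := fun a z x g e => by
    rw [w1 a z g] at e
    have e1 : t a x / S = lb a z := congrArg Prod.fst e
    rw [hκ, cl_eq e1] at e
    simpa [e1] using e
  have low : ∀ (a : V) (q r : V → Prop) (B : ℝ), cnt r ≤ B → 0 ≤ B → (∀ x, q x → Γ a x) →
      (∀ x z, q x → H a z → κ a z = κ a (fy a x) → r z) → cnt q ≤ B * σ :=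
    fun a q r B hB B0 h1 h2 => by
    refine dv _ _ B0 (deg_le P0 hP _ _ (fun z => up H (fun a y => t a y / S) a z) hB
      (fun x g => hν a x (h1 x g)) (fun x x' g g' e => ?_) fun x o g k => ?_)
    · exact ((up_eq (g2 a x (h1 x g)) (g2 a x' (h1 x' g'))).1 e).1
    · obtain ⟨z, k1, k2, rfl⟩ := (adj_lo (g1 a x (h1 x g))).1 k
      exact ⟨z, h2 x z g k1 k2, rfl⟩
  have upp : ∀ (x : V) (q r : V → Prop) (B : ℝ), cnt r ≤ B → 0 ≤ B → (∀ a, q a → Γ a x) →
      (∀ a b, q a → H b x → t b x / S = lb a x → r b) → cnt q ≤ B * σ :=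
    fun x q r B hB B0 h1 h2 => by
    refine dv _ _ B0 (deg_le P0 hP _ _ (fun b => lo H κ b x) hB
      (fun a g => (hν a x (h1 a g)).trans_eq (wk_symm sy _ _ _)) (fun a a' g g' e => ?_)
      fun a o g k => ?_)
    · exact ((lo_eq (g1 a x (h1 a g)) (g1 a' x (h1 a' g'))).1 e).1
    · obtain ⟨b, k1, k2, rfl⟩ := (adj_up (g2 a x (h1 a g))).1 k
      exact ⟨b, h2 a b g k1 (k2.trans (w2 a x (h1 a g))), rfl⟩
  have D1 : ∀ a, cnt (fun x => Γ a x) ≤ d * σ := fun a =>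
    low a _ _ d (dL a) d0.le (fun _ g => g) fun _ _ _ k _ => k
  have D2 : ∀ x, cnt (fun a => Γ a x) ≤ d * σ := fun x =>
    upp x _ _ d (dU x) d0.le (fun _ g => g) fun _ _ _ k _ => k
  have an : ∀ a x y, Γ a x → Γ a y → lb a x = lb a y → row x (lb a x) < row y (lb a x) →
      col x (lb a x) ≠ col y (lb a x) → Anti h S (lb a x) x y := fun a x y g g' e l n => by
    obtain ⟨a1, a2, a3⟩ := ce a x _ g rfl
    obtain ⟨b1, b2, b3⟩ := ce a y _ g' rfl
    rw [← e] at b1 b2 b3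
    have := u.st a _ _ _ (g1 a x g) (g1 a y g') a1 b1 (by rw [a2, b2]; exact l)
    rw [a3, b3] at this
    exact ⟨u.r0 _ _ _ l, u.c0 _ _ _ (lt_of_le_of_ne this n.symm)⟩
  refine core V α (ℕ × ℕ) h Γ lb (fun a x => (lb a x, row x (lb a x)))
    (fun a x => (lb a x, col x (lb a x))) S L N X P d σ M c.na c.inj S0 c.L0 c.cb cN N0 X1 P1 d0
    M0 hM nm n2 hl (fun a b g => ?_) D1 D2 (fun a x y g g' e h1 h2 => ?_) (fun a k => ?_)
    (fun a k => ?_) (fun x k => ?_) (fun x => ?_) (fun a => ?_)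
  · exact w2 a b g ▸ (Nat.div_le_self _ _).trans_lt (c.tb _ _ (g2 a b g))
  · by_contra hc
    simp only [Prod.mk.injEq, ← e, true_and, not_or] at hc
    rcases lt_or_gt_of_ne hc.1 with l | l
    · exact h1 (an a x y g g' e l hc.2)
    · refine h2 (e ▸ an a y x g' g e.symm (e ▸ l) (e ▸ Ne.symm hc.2))
  · rw [mul_comm]
    refine low a _ _ P (u.rs a k.1 k.2) P0 (fun _ g => g.1) fun x z g k1 k2 => ?_
    obtain ⟨g, rfl⟩ := g
    exact ⟨k1, (ce a x z g k2).1, (ce a x z g k2).2.1⟩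
  · rw [mul_comm]
    refine low a _ _ P (u.cs a k.1 k.2) P0 (fun _ g => g.1) fun x z g k1 k2 => ?_
    obtain ⟨g, rfl⟩ := g
    exact ⟨k1, (ce a x z g k2).1, (ce a x z g k2).2.2⟩
  · rw [mul_comm]
    exact upp x _ _ P (q2 x k) P0 (fun _ g => g.1) fun a b g k1 k2 => ⟨k1, k2.trans g.2⟩
  · set rc : V → V → Prop := fun a y => H a y ∧ t a y / S = lb a x ∧
      (row y (lb a x) = row x (lb a x) ∨ col y (lb a x) = col x (lb a x)) with hrc
    refine stem_of (n := 2 * j) sy P0 hP H κ (grL κ) (fun o => ∃ a y, H a y ∧ o = lo H κ a y)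
      (fun o => ∃ a y, Γ a x ∧ rc a y ∧ o = lo H κ a y)
      (i1 V α _ h H t _ S L P c.na c.fam L1 c.tb (fun a y z _ _ e => congrArg Prod.fst e) q2) ν0
      (by linarith) σν.ge pw ?_ (grL_inj κ) fun y _ => ?_
    · obtain ⟨i, hi⟩ : ∃ i, 2 * j = i + 1 := ⟨2 * j - 1, by omega⟩
      rw [hi]
      refine (tot2 P0 hP _).trans ?_
      have h1 : cnt (fun z : Om V × Om V => (∃ a y, Γ a x ∧ rc a y ∧ z.1 = lo H κ a y) ∧
          A z.1 z.2) ≤ cnt fun e : V × V => Γ e.1 x ∧ rc e.1 e.2 := by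
        refine cnt_surj (fun e => (lo H κ e.1 e.2, up H (fun a y => t a y / S) e.1 e.2)) ?_
        rintro ⟨o, o'⟩ ⟨⟨a, y, k1, k2, rfl⟩, k3⟩
        obtain ⟨z, k4, k5, rfl⟩ := (adj_lo k2.1).1 k3
        have e1 : t a z / S = lb a x := (congrArg Prod.fst k5).trans k2.2.1
        rw [hκ, cl_eq e1, cl_eq k2.2.1] at k5
        simp only [Prod.mk.injEq, true_and] at k5
        refine ⟨(a, z), ⟨k1, k4, e1, by rw [k5.1, k5.2]; exact k2.2.2⟩, Prod.ext ?_ rfl⟩
        refine (lo_eq k4 k2.1).2 ⟨rfl, ?_⟩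
        rw [hκ, cl_eq e1, cl_eq k2.2.1, k5.1, k5.2]
      have h2 : cnt (fun e : V × V => Γ e.1 x ∧ rc e.1 e.2) ≤ cnt (fun a => Γ a x) * (P + P) :=
        cnt_pair_le (fun _ _ g => g.1) fun a _ => (cnt_le_add fun y g => g.2.2.2.imp
          (fun e => ⟨g.2.1, g.2.2.1, e⟩) fun e => ⟨g.2.1, g.2.2.1, e⟩).trans
          (add_le_add (u.rs a (lb a x) (row x (lb a x))) (u.cs a (lb a x) (col x (lb a x))))
      calc _ ≤ d * σ * (P + P) * P ^ i := mul_le_mul_of_nonneg_right ((h1.trans h2).trans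
            (mul_le_mul_of_nonneg_right (D2 x) (by positivity))) (by positivity)
        _ = _ := by ring
    · refine ⟨_, fun a => lo H κ a (fy a y), fun a => up H (fun a y => t a y / S) (fb a y) y,
        le_rfl, fun a a' g g' e => ((lo_eq (g1 a y g.2.1) (g1 a' y g'.2.1)).1 e).1, ?_⟩
      rintro a ⟨g, g', e⟩
      simp only [Prod.mk.injEq] at e
      have e1 : lb a x = lb a y := e.elim And.left And.left
      obtain ⟨a1, a2, a3⟩ := ce a y _ g' rfl
      rw [← e1] at a1 a2 a3 e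
      refine ⟨⟨a, _, g, ⟨g1 a y g', a1, e.imp (fun e => a2.trans e.2.symm)
        fun e => a3.trans e.2.symm⟩, rfl⟩, hν a y g', fun o k => ?_⟩
      obtain ⟨b, k1, -, rfl⟩ := (adj_up (g2 a y g')).1 (sy _ _ k)
      rw [grL_lo κ k1]
      exact ⟨⟨b, y, k1, rfl⟩, k1, rfl⟩
  · refine stem_of (n := 2 * j) sy P0 hP (fun y a => H a y) (fun y a => t a y / S)
      (grU fun a y => t a y / S) (fun o => ∃ a y, H a y ∧ o = up H (fun a y => t a y / S) a y)
      (fun o => ∃ x, Γ a x ∧ o = up H (fun a y => t a y / S) (fb a x) x)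
      (i2 V α h H t S L P row col c.na c.fam L1 c.tb S0 u) ν0 (by linarith) σν.ge pw ?_
      (grU_inj _) fun b _ => ?_
    · refine (tot1 P0 hP _).trans (mul_le_mul (le_trans (cnt_surj
        (fun x => up H (fun a y => t a y / S) (fb a x) x) ?_) (D1 a)) (by linarith) pp
        (by positivity))
      rintro o ⟨x, g, rfl⟩
      exact ⟨x, g, rfl⟩
    · refine ⟨_, fun x => up H (fun a y => t a y / S) (fb b x) x, fun x => lo H κ b (fy b x),
        le_rfl, fun x x' g g' e => ((up_eq (g2 b x g.2.1) (g2 b x' g'.2.1)).1 e).1, ?_⟩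
      rintro x ⟨g, g', e⟩
      have e1 : lb a x = lb b x := e.elim id id
      refine ⟨⟨x, g, (up_eq (g2 b x g') (g2 a x g)).2 ⟨rfl, ?_⟩⟩,
        (hν b x g').trans_eq (wk_symm sy _ _ _), fun o k => ?_⟩
      · exact (w2 b x g').trans (e1.symm.trans (w2 a x g).symm)
      · obtain ⟨z, k1, -, rfl⟩ := (adj_lo (g1 b x g')).1 (sy _ _ k)
        rw [grU_up _ k1]
        exact ⟨⟨b, z, k1, rfl⟩, k1, rfl⟩

end CaseAL

open CaseAL in
theorem caseAW (pr : PruneS) (re : RectS) (ma : MassAS) (i1 : I1S) (i2 : I2S) (core : CoreWS) :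
    CaseAWS := by
  intro V α _ _ h H t S' R L θ j N m d M row col c s u g
  obtain ⟨n1, n2, L1, θ1⟩ := c.num
  have S0 : 0 < S' * R := Nat.mul_pos s.S0 s.R0
  have ms := ma V α h H t S' R L θ j m d row col c s u g.jL
  have q2 := s.q2
  set S := S' * R
  obtain ⟨Kq, Φ, k0, k1, k2, k3, k4⟩ := g.ex
  obtain ⟨G, G1, G2⟩ := u.cells
  have pd := g.pd
  have nd := g.nd
  have pw := g.pw
  have nm := g.nm
  have jL : (j:ℝ) ≤ L := by exact_mod_cast g.jL
  have T1 : (1:ℝ) ≤ θ := by exact_mod_cast θ1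
  have rs := u.rs
  have cs := u.cs
  set X : ℝ := (L:ℝ) with hX
  set T : ℝ := (θ:ℝ)
  have X1 : 1 ≤ X := by linarith
  have X0 : 0 < X := by linarith
  set P := X ^ 38 * T with hP
  have P1 : 1 ≤ P := one_le_mul_of_one_le_of_one_le (one_le_pow₀ X1) T1
  have d0 : 0 < d := by linarith
  have m0 : 0 < m := (mul_pos_iff_of_pos_left X0).1 ((mul_pos g.N0 d0).trans_le nd)
  have w5 : X ^ 5 * T ≤ P := by rw [hP]; gcongr; norm_num
  have st : Stair h H t S P row col := ⟨u.r0, u.c0, u.st, fun a w r => (rs a w r).trans w5,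
    fun a w r => (cs a w r).trans w5⟩
  set κ := cl t S row col with hκ
  set A := Adj H κ fun a y => t a y / S with hA
  have ck : ∀ a k, cnt (fun y => H a y ∧ κ a y = k) ≤ P := fun a k => by
    refine le_trans (cnt_mono ?_) (st.rs a k.1 k.2.1)
    rintro y ⟨g, rfl⟩
    exact ⟨g, rfl, rfl⟩
  set M0 := m / X ^ 9 * (T ^ 2 / X ^ 13) ^ j with hM0
  have eM : M0 * X ^ (89 * j + 9) = m * P ^ (2 * j) := by
    rw [hM0, hP, pow_add, pow_mul, pow_mul, div_pow, show (X ^ 38 * T) ^ 2 = X ^ 76 * T ^ 2 by ring,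
      show X ^ 89 = X ^ 76 * X ^ 13 by ring, mul_pow, mul_pow]
    field_simp
  have pj : ∀ i ≤ 2 * j + 2, P ^ i ≤ P ^ (2 * j + 2) := fun i hi => pow_le_pow_right₀ P1 hi
  have pp : 0 < P ^ (2 * j) := by positivity
  have pq : 0 < P ^ (2 * j + 1) := by positivity
  obtain ⟨ν, ν1, ν2, ν3⟩ := pr _ A (PrA h H t S row col) (fun o => ∃ a y, H a y ∧ o = lo H κ a y)
    L (2 * j + 1) P (1 / X ^ (89 * j + 86)) G.card M0 Kq Φ L1 P1 (by positivity)
    (adj_deg (by linarith) ck q2) (by linarith [pj (2 * j + 1) (by omega), pq]) k0 k1 k2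
    (fun i hi => ⟨re V _ _ H H κ _ _ _ (fun _ _ e => e) (Kq_pos k0 k1 i) (k2 i) (k4 i hi.le).1,
      (k4 i hi.le).2⟩)
    (fun _ _ ⟨a, y, _, _, e1, _, e2, _⟩ => ⟨a, y, e1, e2⟩)
    ((cnt_fib_le (grL κ) G (K := 1) (fun o ⟨a, y, e, e'⟩ => by rw [e', grL_lo κ e]; exact G2 a y e)
      fun k _ => cnt_le_one fun o o' e e' => grL_inj (F := H) κ o o' e.1 e'.1 (e.2.trans e'.2.symm)).trans_eq
      (mul_one _)) (by positivity) ms (by
    refine le_of_mul_le_mul_right ?_ (by positivity : 0 < X ^ (89 * j + 9))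
    rw [eM]
    have e1 : 2 * (G.card * (((2 * j + 1 : ℕ):ℝ) * (1 / X ^ (89 * j + 86)) * P ^ (2 * j + 1))) *
        X ^ (89 * j + 9) = G.card * (X ^ 3 * T) * (2 * (2 * j + 1) / X ^ 42) * P ^ (2 * j) := by
      rw [pow_succ P, show 89 * j + 86 = 89 * j + 9 + 77 by ring, pow_add X _ 77]
      generalize P ^ (2 * j) = Q
      rw [hP]
      push_cast
      field_simp
    rw [e1]
    have e2 : 2 * (2 * (j:ℝ) + 1) / X ^ 42 ≤ 1 / 2 := by
      rw [div_le_div_iff₀ (by positivity) (by norm_num)]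
      have : X ^ 2 ≤ X ^ 42 := pow_le_pow_right₀ X1 (by norm_num)
      nlinarith
    calc _ ≤ 2 * m * (1 / 2) * P ^ (2 * j) := by gcongr
      _ = _ := by ring)
  have ν0 : 0 < ν := by linarith
  set Γ : V → V → Prop := fun a z => ∃ y b, H a y ∧ H b z ∧ κ a y = κ b z ∧
    Lens h S (t a y / S) a z ∧
    ν ≤ wk A (2 * j + 1) (lo H κ a y) (up H (fun a y => t a y / S) b z) with hΓ
  have : ∀ a z, ∃ y b, Γ a z → H a y ∧ H b z ∧ κ a y = κ b z ∧ Lens h S (t a y / S) a z ∧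
      ν ≤ wk A (2 * j + 1) (lo H κ a y) (up H (fun a y => t a y / S) b z) := fun a z => by
    by_cases k : Γ a z
    · obtain ⟨y, b, k⟩ := k; exact ⟨y, b, fun _ => k⟩
    · exact ⟨a, a, fun k' => absurd k' k⟩
  choose fy fb hf using this
  have w2 : ∀ a z, Γ a z → t (fb a z) z / S = t a (fy a z) / S := fun a z k =>
    (congrArg Prod.fst (hf a z k).2.2.1).symm
  have cΓ : cnt (fun z : Om V × Om V => PrA h H t S row col z.1 z.2 ∧
      ν ≤ wk A (2 * j + 1) z.1 z.2) ≤ ed Γ := by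
    refine cnt_surj (fun e => (lo H κ e.1 (fy e.1 e.2),
      up H (fun a y => t a y / S) (fb e.1 e.2) e.2)) ?_
    rintro ⟨o, o'⟩ ⟨⟨a, y, b, z, e1, e2, rfl, rfl, e3, e4⟩, e5⟩
    have k : Γ a z := ⟨y, b, e1, e2, e3, e4, e5⟩
    obtain ⟨f1, f2, f3, f4, -⟩ := hf a z k
    have e6 : t (fb a z) z / S = t b z / S :=
      (w2 a z k).trans ((f4.uniq c.na c.inj S0 e4).trans (congrArg Prod.fst e3))
    refine ⟨(a, z), k, Prod.ext ((lo_eq f1 e1).2 ⟨rfl, f3.trans (Eq.trans ?_ e3.symm)⟩)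
      ((up_eq (κ' := fun a y => t a y / S) f2 e2).2 ⟨rfl, e6⟩)⟩
    exact cl_eq e6
  refine fin (j := j) (X := X ^ (89 * j + 52)) i1 i2 core c S0 st P1 g.j1 s.dL s.dU q2 d0 g.cN g.N0
    (one_le_pow₀ X1) g.M0 ν0 (by linarith [pj (2 * j) (by omega)]) ?_ ?_ Γ
    (fun a z => t a (fy a z) / S) fy fb
    (fun a z k => (hf a z k).2.2.2.1) (fun a z k => (hf a z k).1) (fun a z k => (hf a z k).2.1)
    (fun a z k => (hf a z k).2.2.1.trans (cl_eq (w2 a z k))) w2 (fun a z k => (hf a z k).2.2.2.2)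
    ?_
  · rw [div_mul_eq_mul_div, le_div_iff₀ ν0]
    have := mul_le_mul_of_nonneg_left k3 ν0.le
    rw [pow_succ] at ν2
    nlinarith
  · convert nm using 2
    rw [← pow_mul, ← pow_add]
    congr 1
    ring
  · rw [← mul_div_assoc, ← mul_div_assoc, div_le_iff₀ ν0]
    have e0 : 0 ≤ ed Γ := cnt_nonneg _
    have e1 : M0 ≤ 4 * X * ν * ed Γ := ν3.trans (by gcongr)
    calc _ = 2 * P ^ (2 * j) * (N * d) := by ring
      _ ≤ 2 * P ^ (2 * j) * (X * m) := by gcongr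
      _ = 2 * X * (M0 * X ^ (89 * j + 9)) := by rw [eM]; ring
      _ ≤ 2 * X * (4 * X * ν * ed Γ * X ^ (89 * j + 9)) := by gcongr
      _ = 8 * X ^ (89 * j + 11) * (ed Γ * ν) := by ring
      _ ≤ X ^ (89 * j + 52) * (ed Γ * ν) := mul_le_mul_of_nonneg_right
          (cpw X1 (by linarith) (by omega)) (by positivity)
      _ = _ := by ring

end Pool.Agent.Lib.MP_65c801_co.U
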