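import Pool.Agent.Lib.MP_65c801_co.U.Der

/-! The case of the boxes. -/

namespace Pool.Agent.Lib.MP_65c801_co.U

open Finset Classical T Der

namespace CB

lemma n1 {X T m g Y W l : ℝ} (X1 : 4096 ≤ X) (T0 : 0 < T) (Y0 : 0 < Y) (W0 : 0 < W) (g0 : 0 ≤ g)
    (l0 : 0 ≤ l) (hl : l ≤ 4 * X) (hg : g * (X ^ 36 * T) ≤ m) :
    2 * (g * (l * (1 / (Y * X ^ 86)) * (Y * W * (X ^ 38 * T) ^ 2))) ≤ m * T / X ^ 11 * W := by
  have X0 : 0 < X := by linarith
  have m0 : 0 ≤ m := le_trans (by positivity) hg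
  calc _ = 2 * l * (g * (X ^ 36 * T)) * (T * W / X ^ 46) := by field_simp
    _ ≤ 2 * (4 * X) * m * (T * W / X ^ 46) := by gcongr
    _ = 8 * X ^ 1 * (m * (T * W / X ^ 46)) := by ring
    _ ≤ X ^ 35 * (m * (T * W / X ^ 46)) :=
      mul_le_mul_of_nonneg_right (cpw (by linarith) (by linarith) (by norm_num)) (by positivity)
    _ = _ := by field_simp

lemma n2 {X T m Y W N d ν e : ℝ} (X1 : 4096 ≤ X) (T0 : 0 < T) (Y0 : 0 < Y) (W0 : 0 < W)
    (ν0 : 0 < ν) (e0 : 0 ≤ e) (nd : N * d ≤ X * m) (k : m * T / X ^ 11 * W ≤ 4 * X * ν * e) :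
    N * (d * (2 * (Y * W * (X ^ 38 * T)) / ν)) ≤ Y * X ^ 52 * e := by
  have X0 : 0 < X := by linarith
  calc _ = N * d * (2 * (Y * W * (X ^ 38 * T)) / ν) := by ring
    _ ≤ X * m * (2 * (Y * W * (X ^ 38 * T)) / ν) := mul_le_mul_of_nonneg_right nd (by positivity)
    _ = m * T / X ^ 11 * W * (2 * Y * X ^ 50 / ν) := by field_simp
    _ ≤ 4 * X * ν * e * (2 * Y * X ^ 50 / ν) := mul_le_mul_of_nonneg_right k (by positivity)
    _ = 8 * X ^ 51 * (Y * e) := by field_simp; ring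
    _ ≤ X ^ 52 * (Y * e) :=
      mul_le_mul_of_nonneg_right (cpw (by linarith) (by linarith) le_rfl) (by positivity)
    _ = _ := by ring

end CB

theorem caseBW (pr : PruneS) (rc : RectS) (mb : MassBS) (i1 : I1S) (core : CoreWS) :
    CaseBWS := by
  intro V α K _ _ h E t S' R L θ j N m d M H0 H1 κ φ c s b g
  obtain ⟨n1, n2, L1, θ1⟩ := c.num
  have S0 : 0 < S' * R := Nat.mul_pos s.S0 s.R0
  have hm := mb V α K h E t S' R L θ j m d H0 H1 κ φ c s b g.jL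
  have q2 := s.q2
  obtain ⟨G3, g1, g2⟩ := s.g3
  obtain ⟨Kq, Φ, a1, a2, a3, a4, a5⟩ := g.ex
  have pw := g.pw
  have pd := g.pd
  have nd := g.nd
  have nm := g.nm
  have jX : (j:ℝ) ≤ L := by exact_mod_cast g.jL
  have T1 : (1:ℝ) ≤ θ := by exact_mod_cast θ1
  generalize S' * R = S at *
  set F : V → V → Prop := fun a y => H0 a y ∨ H1 a y with hF
  set win : V → V → ℕ := fun a y => t a y / S with hwin
  set A := Adj F κ win with hA
  have FE : ∀ a y, F a y → E a y := fun a y e => e.elim (b.s0 a y) (b.s1 a y)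
  have X1 : (1:ℝ) ≤ L := by linarith
  have P4 : 4 * (θ:ℝ) ≤ (L:ℝ) ^ 38 * θ := mul_le_mul_of_nonneg_right
    (by simpa using cpw X1 (by linarith : (4:ℝ) ≤ L) (by norm_num : 0 + 1 ≤ 38)) (by positivity)
  have eP : ((L:ℝ) ^ 38 * θ) ^ (2 * j) = (L:ℝ) ^ (89 * j) * ((θ:ℝ) ^ 2 / (L:ℝ) ^ 13) ^ j := by
    rw [pow_mul, pow_mul, ← mul_pow]
    congr 1
    field_simp
  set P : ℝ := (L:ℝ) ^ 38 * θ with hPd
  have P1 : 1 ≤ P := by linarith
  have P0 : 0 ≤ P := by linarith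
  have d0 : 0 < d := by linarith
  have N0 := g.N0
  have m0 : 0 < m := (mul_pos_iff_of_pos_left (by linarith : (0:ℝ) < L)).1
    (lt_of_lt_of_le (by positivity) nd)
  have qF : ∀ y w, cnt (fun a => F a y ∧ win a y = w) ≤ P := fun y w =>
    (cnt_mono fun a e => ⟨FE _ _ e.1, e.2⟩).trans (q2 y w)
  have hP : ∀ o, cnt (fun v => A o v) ≤ P := adj_deg P0 (fun a k => by
    have := cnt_le_add (p := fun y => F a y ∧ κ a y = k) (q := fun y => H0 a y ∧ κ a y = k)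
      (r := fun y => H1 a y ∧ κ a y = k) fun y e => e.1.imp (fun x => ⟨x, e.2⟩) fun x => ⟨x, e.2⟩
    linarith [b.c0 a k, b.c1 a k]) qF
  have sy : ∀ u v, A u v → A v u := fun _ _ => Adj.symm
  have pp : 0 < P ^ (2 * j + 2) := by positivity
  obtain ⟨ν, ν1, ν2, ν3⟩ := pr (Om V) A (PrB h F t S) (fun u => ∃ a y, F a y ∧ u = up F win a y)
    L (2 * j + 2) P (1 / (L:ℝ) ^ (89 * j + 86)) G3.card _ Kq Φ L1 P1 (by positivity) hP
    (by linarith) a1 a2 a3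
    (fun i hi => ⟨rc V K ℕ E F κ win (Kq i) (Φ i) FE (Kq_pos a1 a2 i) (a3 i)
      (a5 i (by omega)).1, (a5 i (by omega)).2⟩)
    (fun u v ⟨a, y, _, _, e, _, e', _⟩ => ⟨a, y, e, e'⟩)
    ((cnt_fib_le (p := fun u => ∃ a y, F a y ∧ u = up F win a y) (K := 1) (grU win) G3
      (fun u ⟨a, y, e, e'⟩ => by
      rw [e', grU_up win e]; exact g2 a y (FE _ _ e)) fun k _ => cnt_le_one fun u v hu hv =>
        grU_inj (F := F) win u v hu.1 hv.1 (hu.2.trans hv.2.symm)).trans (mul_one _).le)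
    (by positivity) hm (by
      rw [pow_add P, eP, pow_add]
      exact CB.n1 n1 (by linarith) (by positivity) (by positivity) (Nat.cast_nonneg _)
        (Nat.cast_nonneg _) (by push_cast; linarith) g1)
  have ν0 : 0 < ν := by linarith
  set Γ : V → V → Prop := fun y z => ∃ a b, F a y ∧ F b z ∧ win a y = win b z ∧
    Lens h S (win a y) y z ∧ ν ≤ wk A (2 * j + 1 + 1) (up F win a y) (up F win b z) with hΓ
  have : ∀ y z, ∃ a b, Γ y z → F a y ∧ F b z ∧ win a y = win b z ∧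
      Lens h S (win a y) y z ∧ ν ≤ wk A (2 * j + 1 + 1) (up F win a y) (up F win b z) := by
    intro y z
    by_cases e : Γ y z
    · obtain ⟨a, b, e⟩ := e
      exact ⟨a, b, fun _ => e⟩
    · exact ⟨y, y, fun e' => absurd e' e⟩
  choose fa fb hf using this
  have cΓ : cnt (fun z : Om V × Om V => PrB h F t S z.1 z.2 ∧ ν ≤ wk A (2 * j + 2) z.1 z.2) ≤
      ed Γ := by
    refine cnt_surj (fun e => (up F win (fa e.1 e.2) e.1, up F win (fb e.1 e.2) e.2)) ?_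
    rintro ⟨u, v⟩ ⟨⟨a, y, b', z, e1, e2, rfl, rfl, e3, e4⟩, e5⟩
    have e : Γ y z := ⟨a, b', e1, e2, e3, e4, e5⟩
    obtain ⟨k1, k2, k3, k4, -⟩ := hf y z e
    have k : win (fa y z) y = win a y := k4.uniq c.na c.inj S0 e4
    exact ⟨(y, z), e, Prod.ext ((up_eq k1 e1).2 ⟨rfl, k⟩)
      ((up_eq k2 e2).2 ⟨rfl, (k3.symm.trans k).trans e3⟩)⟩
  set σ := 2 * P ^ (2 * j + 1) / ν with hσ
  have σν : σ * ν = 2 * P ^ (2 * j + 1) := div_mul_cancel₀ _ ν0.ne'
  have σ0 : 0 ≤ σ := by positivity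
  have p1 : 0 < P ^ (2 * j + 1) := by positivity
  have dg : ∀ (y : V) (q r : V → Prop) (B : ℝ) (fs fe : V → V), cnt r ≤ B → 0 ≤ B →
      (∀ x, q x → F (fs x) y ∧ F (fe x) x ∧
        ν ≤ wk A (2 * j + 1 + 1) (up F win (fs x) y) (up F win (fe x) x)) →
      (∀ x a, q x → F a y → win a y = win (fs x) y → r a) → cnt q ≤ B * σ := by
    intro y q r B fs fe hB B0 h1 h2
    refine le_of_mul_le_mul_right ((deg_le P0 hP (fun x => up F win (fs x) y)
      (fun x => up F win (fe x) x) (fun a => lo F κ a y) hB (fun x e => (h1 x e).2.2)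
      (fun x x' e e' k => ((up_eq (h1 x e).2.1 (h1 x' e').2.1).1 k).1) fun x o e k => ?_).trans
      ?_) ν0
    · obtain ⟨a, k1, k2, rfl⟩ := (adj_up (h1 x e).1).1 k
      exact ⟨a, h2 x a e k1 k2, rfl⟩
    · rw [mul_assoc, σν]
      exact mul_le_mul_of_nonneg_left (by linarith) B0
  have w1 : ∀ y x, Γ y x → F (fa y x) y ∧ F (fb y x) x ∧
      ν ≤ wk A (2 * j + 1 + 1) (up F win (fa y x) y) (up F win (fb y x) x) := fun y x e =>
    ⟨(hf y x e).1, (hf y x e).2.1, (hf y x e).2.2.2.2⟩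
  have w2 : ∀ y x, Γ y x → F (fb y x) x ∧ F (fa y x) y ∧
      ν ≤ wk A (2 * j + 1 + 1) (up F win (fb y x) x) (up F win (fa y x) y) := fun y x e =>
    ⟨(hf y x e).2.1, (hf y x e).1, by rw [wk_symm sy]; exact (hf y x e).2.2.2.2⟩
  have D1 : ∀ y, cnt (fun x => Γ y x) ≤ d * σ := fun y =>
    dg y _ _ d (fa y) (fb y) (s.dU y) d0.le (w1 y) fun _ _ _ e _ => FE _ _ e
  have D2 : ∀ x, cnt (fun y => Γ y x) ≤ d * σ := fun x =>
    dg x _ _ d (fun y => fb y x) (fun y => fa y x) (s.dU x) d0.le (fun y => w2 y x)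
      fun _ _ _ e _ => FE _ _ e
  have E1 : ∀ y u, cnt (fun x => Γ y x ∧ win (fa y x) y = u) ≤ σ * P := fun y u => by
    rw [mul_comm]
    exact dg y _ _ P (fa y) (fb y) (qF y u) P0 (fun x e => w1 y x e.1)
      fun _ _ e e' k => ⟨e', k.trans e.2⟩
  have st : ∀ (x : V) (cf : V → ℝ) (p : V → Prop) (fs : V → V), cnt p ≤ d * σ →
      (∀ y, ∃ (q : V → Prop) (f1 f2 : V → V), cf y ≤ cnt q ∧ ∀ a, q a → p a ∧ F (fs a) a ∧
        win (f1 a) a = win (fs a) a ∧ F (f1 a) a ∧ F (f2 a) y ∧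
        ν ≤ wk A (2 * j + 1 + 1) (up F win (f1 a) a) (up F win (f2 a) y)) →
      StemW cf x L (d * σ) σ P := by
    intro x cf p fs hp dom
    refine stem_of (n := 2 * j + 1) (S := 2 * P ^ (2 * j + 1)) sy P0 hP F κ (grL κ)
      (fun o => ∃ a y, F a y ∧ o = lo F κ a y) (fun u => ∃ a, p a ∧ up F win (fs a) a = u)
      (i1 V α K h F t κ S L P c.na (c.fam.mono FE) L1 (fun a y e => c.tb a y (FE a y e))
        (fun a y z _ _ e => b.win a y z e) qF) ν0 (by linarith) σν.ge ?_ ?_ (grL_inj κ)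
      fun y _ => ?_
    · have := pow_le_pow_right₀ P1 (by omega : 2 * j + 1 ≤ 2 * j + 2)
      linarith
    · refine (tot1 P0 hP _).trans (mul_le_mul ((cnt_surj _ fun u e => e).trans hp) (by linarith)
        p1.le (by positivity))
    · obtain ⟨q, f1, f2, k1, k2⟩ := dom y
      refine ⟨q, fun a => up F win (f1 a) a, fun a => up F win (f2 a) y, k1, fun a a' e e' k =>
        ((up_eq (k2 a e).2.2.2.1 (k2 a' e').2.2.2.1).1 k).1, fun a e => ?_⟩
      obtain ⟨r1, r2, r3, r4, r5, r6⟩ := k2 a e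
      refine ⟨⟨a, r1, (up_eq r2 r4).2 ⟨rfl, r3.symm⟩⟩, r6, fun o k => ?_⟩
      obtain ⟨a', k3, -, rfl⟩ := (adj_up r5).1 (sy _ _ k)
      rw [grL_lo κ k3]
      exact ⟨⟨a', y, k3, rfl⟩, k3, rfl⟩
  refine core V α ℕ h Γ (fun y x => win (fa y x) y) (fun y x => win (fa y x) y)
    (fun y x => win (fa y x) y) S L N ((L:ℝ) ^ (89 * j + 52)) P d σ M c.na c.inj S0 c.L0 c.cb g.cN
    N0 (one_le_pow₀ X1) P1 d0 g.M0 ?_ ?_ ?_ (fun y x e => (hf y x e).2.2.2.1)
    (fun y x e => (Nat.div_le_self _ _).trans_lt (c.tb _ _ (FE _ _ (hf y x e).1))) D1 D2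
    (fun _ _ _ _ _ e _ _ => Or.inl e) E1 E1 (fun x u => ?_) (fun x => ?_) fun a => ?_
  · refine le_of_mul_le_mul_right ?_ ν0
    have := mul_le_mul_of_nonneg_left (a4.trans (a2 _)) ν0.le
    calc M * ν ≤ 2 * P ^ (2 * j + 2) := by linarith
      _ = σ * ν * P := by rw [σν]; ring
      _ = _ := by ring
  · rwa [show (L:ℝ) ^ 9 * ((L:ℝ) ^ (89 * j + 52)) ^ 4 = (L:ℝ) ^ (356 * j + 217) by
      rw [← pow_mul, ← pow_add]; congr 1; ring]
  · rw [hσ, pow_succ P, eP, pow_add]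
    exact CB.n2 n1 (by linarith) (by positivity) (by positivity) ν0 (cnt_nonneg _) nd
      (ν3.trans (mul_le_mul_of_nonneg_left cΓ (by positivity)))
  · rw [mul_comm]
    exact dg x _ _ P (fun y => fb y x) (fun y => fa y x) (qF x u) P0 (fun y e => w2 y x e.1)
      fun y _ e e' k => ⟨e', k.trans ((hf y x e.1).2.2.1.symm.trans e.2)⟩
  · exact st x _ (fun a => Γ a x) (fun a => fa a x) (D2 x) fun y =>
      ⟨_, fun a => fa a y, fun a => fb a y, le_rfl, fun a e =>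
        ⟨e.1, (hf a x e.1).1, (e.2.2.elim id id).symm, w1 a y e.2.1⟩⟩
  · exact st a _ (fun x => Γ a x) (fun x => fb a x) (D1 a) fun y =>
      ⟨_, fun x => fb y x, fun x => fa y x, le_rfl, fun x e =>
        ⟨e.1, (hf a x e.1).2.1, ((hf y x e.2.1).2.2.1.symm.trans (e.2.2.elim id id).symm).trans
          (hf a x e.1).2.2.1, w2 y x e.2.1⟩⟩

end Pool.Agent.Lib.MP_65c801_co.U
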