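import Pool.Agent.Lib.MP_65c801_co.U.St

/-! The main inequality for the derived graph, with free parameters. -/

namespace Pool.Agent.Lib.MP_65c801_co.U

open Finset Classical T

namespace CoreW

variable {V K : Type} [Fintype V]

lemma dd (hT : StemWS) (Γ : V → V → Prop) (k1 k2 : V → V → K) {L : ℕ} {D σ P k Y n : ℝ}
    (L1 : 1 ≤ L) (cb : (Fintype.card V : ℝ) ^ 3 < 2 ^ L) (cn : (Fintype.card V : ℝ) ≤ n)
    (h1 : ∀ a u, cnt (fun x => Γ a x ∧ k1 a x = u) ≤ k)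
    (h2 : ∀ a u, cnt (fun x => Γ a x ∧ k2 a x = u) ≤ k) (hD : ∀ x, cnt (fun a => Γ a x) ≤ D)
    (D0 : 0 ≤ D) (P1 : 1 ≤ P) (σ0 : 0 ≤ σ) (hk : σ * P ≤ k) (Y0 : 0 ≤ Y)
    (hY : 55296 * (L:ℝ) ^ 5 * D ^ 3 * σ ^ 2 * k ^ 2 ≤ Y ^ 2)
    (st : ∀ x, StemW (cc Γ k1 k2 x) x L D σ P) :
    ∑ x, ∑ y, cc Γ k1 k2 x y ^ 2 ≤ D * ed Γ + n * (4 * L * (4 * L * D ^ 2 * σ + Y)) := by
  have k0 : 0 ≤ k := le_trans (by positivity) hk
  have le : ∀ x y, cc Γ k1 k2 x y ≤ cnt (fun a => Γ a x) := fun x y => cnt_mono fun a g => g.1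
  have pt : ∀ x, ∑ y, cc Γ k1 k2 x y ^ 2 ≤
      D * cnt (fun a => Γ a x) + 4 * L * (4 * L * D ^ 2 * σ + Y) := fun x => by
    have s1 : ∑ y, cc Γ k1 k2 x y ≤ 2 * D * k := by
      unfold cc
      rw [← cnt_prod (fun z : V × V => Γ z.2 x ∧ Γ z.2 z.1 ∧
        (k1 z.2 x = k1 z.2 z.1 ∨ k2 z.2 x = k2 z.2 z.1)), ← cnt_swap]
      refine (cnt_pair_le (q := fun a => Γ a x) (K := 2 * k) (fun a y g => g.1) fun a _ =>
        (cnt_le_add (q := fun y => Γ a y ∧ k1 a y = k1 a x) (r := fun y => Γ a y ∧ k2 a y = k2 a x)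
          fun y g => g.2.2.imp (fun e => ⟨g.2.1, e.symm⟩) fun e => ⟨g.2.1, e.symm⟩).trans
          (by linarith [h1 a (k1 a x), h2 a (k2 a x)])).trans ?_
      nlinarith [hD x]
    have s2 := hT V (cc Γ k1 k2 x) x L D σ P k Y L1 (fun y => cnt_zero_or _)
      (fun y => (le x y).trans (hD x)) (fun y => lt1 cb _) s1 P1 σ0 hk Y0 hY (st x)
    have s3 : ∑ y, cc Γ k1 k2 x y ^ 2 = cc Γ k1 k2 x x ^ 2 +
        ∑ y, (if y = x then 0 else cc Γ k1 k2 x y ^ 2) := by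
      rw [← Finset.sum_ite_eq_of_mem' univ x (fun y => cc Γ k1 k2 x y ^ 2) (mem_univ x),
        ← Finset.sum_add_distrib]
      exact Finset.sum_congr rfl fun y _ => by split_ifs <;> simp
    have s4 : cc Γ k1 k2 x x ^ 2 ≤ D * cnt (fun a => Γ a x) := by
      rw [sq]; exact mul_le_mul ((le x x).trans (hD x)) (le x x) (cnt_nonneg _) D0
    linarith
  refine (Finset.sum_le_sum fun x _ => pt x).trans ?_
  rw [Finset.sum_add_distrib, ← Finset.mul_sum, ← cnt_prod' (fun e : V × V => Γ e.1 e.2),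
    Finset.sum_const, card_univ, nsmul_eq_mul]
  gcongr

/-- the final inequality; `Z = L ^ 9 * X ^ 4 * N` -/
lemma num {L X N D σ k ze Y E W Z : ℝ} (hL : 4096 ≤ L) (X1 : 1 ≤ X) (N0 : 0 < N) (D0 : 0 < D)
    (σ0 : 0 < σ) (k0 : 0 < k) (ze0 : 0 ≤ ze) (Y0 : 0 ≤ Y) (hZ : Z = L ^ 9 * X ^ 4 * N)
    (b1 : Z * σ ≤ D ^ 2) (b2 : Z ≤ D ^ 2) (b3 : Z ^ 2 * k ^ 3 ≤ D ^ 5)
    (b4 : Z ^ 2 * σ ^ 2 * k ^ 2 ≤ D ^ 5) (hz : ze ^ 2 * D = 2 * k)
    (hY : Y ^ 2 = 55296 * L ^ 5 * D ^ 3 * σ ^ 2 * k ^ 2) (hE : N * D ≤ X * E)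
    (h1 : E ^ 4 ≤ N ^ 4 * (18 * L ^ 2 * (W + W)))
    (h2 : W = 26 * ze * k * D * E + 12 * (D * E + N * (4 * L * (4 * L * D ^ 2 * σ + Y)))) :
    False := by
  have L0 : 0 < L := by linarith
  have L1 : 1 ≤ L := by linarith
  have X0 : 0 < X := by linarith
  have Z0 : 0 < Z := by rw [hZ]; positivity
  have E0 : 0 < E := (mul_pos_iff_of_pos_left X0).1 (lt_of_lt_of_le (by positivity) hE)
  have t1 : Z * (ze * k) ≤ 2 * D ^ 2 := by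
    refine (abs_le_of_sq_le_sq' ?_ (by positivity)).2
    refine le_of_mul_le_mul_right ?_ D0
    calc _ = Z ^ 2 * k ^ 2 * (ze ^ 2 * D) := by ring
      _ = 2 * (Z ^ 2 * k ^ 3) := by rw [hz]; ring
      _ ≤ 4 * D ^ 5 := by linarith [pow_pos D0 5]
      _ = _ := by ring
  have t2 : Z * Y ≤ L ^ 4 * D ^ 4 := by
    refine (abs_le_of_sq_le_sq' ?_ (by positivity)).2
    have e1 : 4096 * L ^ 5 ≤ L ^ 6 := cpw L1 hL le_rfl
    have e2 : 4096 * L ^ 6 ≤ L ^ 8 := cpw L1 hL (by norm_num)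
    calc _ = Z ^ 2 * Y ^ 2 := by ring
      _ = 55296 * L ^ 5 * D ^ 3 * (Z ^ 2 * σ ^ 2 * k ^ 2) := by rw [hY]; ring
      _ ≤ L ^ 8 * D ^ 3 * D ^ 5 := by gcongr; linarith [pow_pos L0 5]
      _ = _ := by ring
  have p2 : 1 ≤ L ^ 5 * X := one_le_mul_of_one_le_of_one_le (one_le_pow₀ L1) X1
  have p3 : L ^ 2 * X ≤ L ^ 5 * X := by gcongr; norm_num
  have a3 : Z * W ≤ 304 * (L ^ 5 * X) * (E * D ^ 3) := by
    have q : 0 < E * D ^ 3 := by positivity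
    have e1 : Z * (26 * ze * k * D * E) ≤ 52 * (E * D ^ 3) :=
      calc _ = 26 * (D * E) * (Z * (ze * k)) := by ring
        _ ≤ 26 * (D * E) * (2 * D ^ 2) := by gcongr
        _ = _ := by ring
    have e2 : Z * (D * E) ≤ E * D ^ 3 :=
      calc _ ≤ D ^ 2 * (D * E) := by gcongr
        _ = _ := by ring
    have e3 : Z * (N * (16 * L ^ 2 * D ^ 2 * σ)) ≤ 16 * (L ^ 5 * X) * (E * D ^ 3) :=
      calc _ = 16 * L ^ 2 * D * (N * D) * (Z * σ) := by ring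
        _ ≤ 16 * L ^ 2 * D * (X * E) * D ^ 2 := by gcongr
        _ = 16 * (L ^ 2 * X) * (E * D ^ 3) := by ring
        _ ≤ _ := by gcongr
    have e4 : Z * (N * (4 * L * Y)) ≤ 4 * (L ^ 5 * X) * (E * D ^ 3) :=
      calc _ = 4 * L * N * (Z * Y) := by ring
        _ ≤ 4 * L * N * (L ^ 4 * D ^ 4) := by gcongr
        _ = 4 * L ^ 5 * D ^ 3 * (N * D) := by ring
        _ ≤ 4 * L ^ 5 * D ^ 3 * (X * E) := by gcongr
        _ = _ := by ring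
    have e5 := mul_le_mul_of_nonneg_right p2 q.le
    have e6 : Z * W = Z * (26 * ze * k * D * E) + 12 * (Z * (D * E)) +
        12 * (Z * (N * (16 * L ^ 2 * D ^ 2 * σ))) + 12 * (Z * (N * (4 * L * Y))) := by
      rw [h2]; ring
    rw [e6]
    linarith
  have a4 : Z * E ^ 3 ≤ 10944 * L ^ 7 * X * N ^ 4 * D ^ 3 := by
    refine le_of_mul_le_mul_left ?_ E0
    calc _ = Z * E ^ 4 := by ring
      _ ≤ Z * (N ^ 4 * (18 * L ^ 2 * (W + W))) := by gcongr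
      _ = 36 * L ^ 2 * N ^ 4 * (Z * W) := by ring
      _ ≤ 36 * L ^ 2 * N ^ 4 * (304 * (L ^ 5 * X) * (E * D ^ 3)) := by gcongr
      _ = _ := by ring
  have a5 : L ^ 9 * (X ^ 4 * N ^ 4 * D ^ 3) ≤ 10944 * L ^ 7 * (X ^ 4 * N ^ 4 * D ^ 3) :=
    calc _ = Z * (N * D) ^ 3 := by rw [hZ]; ring
      _ ≤ Z * (X * E) ^ 3 := by gcongr
      _ = X ^ 3 * (Z * E ^ 3) := by ring
      _ ≤ X ^ 3 * (10944 * L ^ 7 * X * N ^ 4 * D ^ 3) := by gcongr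
      _ = _ := by ring
  have a6 := le_of_mul_le_mul_right a5 (by positivity)
  have e1 : 4096 * L ^ 7 ≤ L ^ 8 := cpw L1 hL le_rfl
  have e2 : 4096 * L ^ 8 ≤ L ^ 9 := cpw L1 hL le_rfl
  linarith [pow_pos L0 7]

end CoreW

theorem coreW (hI : IdS) (hG : SignS) (hS : SideS) (hT : StemWS) : CoreWS := by
  intro V α K _ _ h Γ lab k1 k2 S L N X P d σ M hn hi S0 L0 cb cN N0 X1 P1 d0 M0 hM nm hE hl tb
    dA dX cov c1 c2 c3 s1 s2
  obtain ⟨s, ps, hz⟩ := hG V α h Γ lab S hn hi S0 hl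
  have L1 : 1 ≤ L := by omega
  obtain ⟨c4, k33⟩ := hI V Γ lab s L ps L1 tb
  have hX : (4096:ℝ) ≤ L := by exact_mod_cast L0
  have P0 : 0 < P := by linarith
  have σ0 : 0 < σ := (mul_pos_iff_of_pos_right P0).1 (M0.trans_le hM)
  have cv : ∀ a x y, Γ a x → Γ a y → s a x y = 0 → k1 a x = k1 a y ∨ k2 a x = k2 a y :=
    fun a x y g g' e => cov a x y g g' (hz a x y e).1 (hz a x y e).2.1 (hz a x y e).2.2
  have k0 : 0 < σ * P := by positivity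
  have D0 : 0 < d * σ := by positivity
  set ze := Real.sqrt (2 * (σ * P) / (d * σ)) with hze
  have ze0 : 0 < ze := Real.sqrt_pos.2 (by positivity)
  have ze1 : ze ^ 2 * (d * σ) = 2 * (σ * P) := by
    rw [hze, Real.sq_sqrt (by positivity), div_mul_cancel₀ _ D0.ne']
  have z1 := hS V K Γ _ _ k1 k2 _ _ _ k33 cv c1 c2 (fun x c _ => le_trans (cnt_mono fun a g =>
    ⟨g.1, g.2.symm⟩) ((c3 x (lab c x)).trans (by linarith))) dX ze0 k0 ze1.ge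
  have z2 := hS V ℕ (fun x a => Γ a x) (fun x a b => lab a x = lab b x)
    (fun a x y => s a x y = 0) (fun x a => lab a x) (fun x a => lab a x) _ _ _
    (fun x y z a b c g1 g2 g3 g4 g5 g6 g7 g8 g9 x1 x2 x3 y1 y2 y3 z1 z2 z3 a1 a2 a3 b1 b2 b3
      c1 c2 c3 => k33 a b c x y z g1 g4 g7 g2 g5 g8 g3 g6 g9 a1 a2 a3 b1 b2 b3 c1 c2 c3
        x1 x2 x3 y1 y2 y3 z1 z2 z3) (fun _ _ _ _ _ e => Or.inl e) c3 c3
    (fun a c g => (cnt_le_add (q := fun y => Γ a y ∧ k1 a y = k1 a c)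
      (r := fun y => Γ a y ∧ k2 a y = k2 a c) fun y g' => (cv a c y g g'.1 g'.2).imp
        (fun e => ⟨g'.1, e.symm⟩) fun e => ⟨g'.1, e.symm⟩).trans
          (by linarith [c1 a (k1 a c), c2 a (k2 a c)])) dA ze0 k0 ze1.ge
  set Y := Real.sqrt (55296 * (L:ℝ) ^ 5 * (d * σ) ^ 3 * σ ^ 2 * (σ * P) ^ 2) with hY
  have Y0 : 0 ≤ Y := Real.sqrt_nonneg _
  have Y1 : Y ^ 2 = 55296 * (L:ℝ) ^ 5 * (d * σ) ^ 3 * σ ^ 2 * (σ * P) ^ 2 :=
    Real.sq_sqrt (by positivity)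
  have d1 := CoreW.dd hT Γ k1 k2 L1 cb cN c1 c2 dX D0.le P1 σ0.le le_rfl Y0 Y1.ge s1
  have d2 := CoreW.dd hT (fun x a => Γ a x) _ _ L1 cb cN c3 c3 dA D0.le P1 σ0.le le_rfl Y0 Y1.ge s2
  rw [ed_flip] at z2 d2
  set Z := (L:ℝ) ^ 9 * X ^ 4 * N with hZ
  refine CoreW.num hX X1 N0 D0 σ0 k0 ze0.le Y0 hZ ?_ ?_ ?_ ?_ ze1 Y1 hE
    ((c4_lower Γ cN cN).trans (mul_le_mul_of_nonneg_left
    (c4.trans (mul_le_mul_of_nonneg_left (add_le_add ?_ ?_) (by positivity))) (by positivity))) rfl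
  · refine le_of_mul_le_mul_right ?_ P0
    calc _ = σ * (Z * P) := by ring
      _ ≤ σ * (d ^ 2 * (σ * P)) := mul_le_mul_of_nonneg_left (nm.n1.trans (by gcongr)) σ0.le
      _ = _ := by ring
  · refine le_of_mul_le_mul_right ?_ (pow_pos P0 2)
    calc _ ≤ d ^ 2 * (σ * P) ^ 2 := nm.n2.trans (by gcongr)
      _ = _ := by ring
  · refine le_of_mul_le_mul_right ?_ (pow_pos P0 2)
    calc _ = σ ^ 3 * (Z ^ 2 * P ^ 5) := by ring
      _ ≤ σ ^ 3 * (d ^ 5 * (σ * P) ^ 2) :=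
        mul_le_mul_of_nonneg_left (nm.n3.trans (by gcongr)) (by positivity)
      _ = _ := by ring
  · refine le_of_mul_le_mul_right ?_ P0
    calc _ = σ ^ 4 * (Z ^ 2 * P ^ 3) := by ring
      _ ≤ σ ^ 4 * (d ^ 5 * (σ * P)) :=
        mul_le_mul_of_nonneg_left (nm.n4.trans (by gcongr)) (by positivity)
      _ = _ := by ring
  · linarith
  · linarith

end Pool.Agent.Lib.MP_65c801_co.U
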