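import Pool.Agent.Lib.MP_65c801_co.U.Two

/-! Many walks in the staircase. -/

namespace Pool.Agent.Lib.MP_65c801_co.U

open Finset Classical T

theorem massA (pl : PeelS) : MassAS := by
  intro V α _ _ h H t S' R L θ j m d row col c s u jL
  obtain ⟨n1, -, -, n4⟩ := c.num
  obtain ⟨G, g1, g2⟩ := u.cells
  have big := u.big
  have θ1 : (1:ℝ) ≤ θ := by exact_mod_cast n4
  have e0 : 0 ≤ ed H := cnt_nonneg _
  have X1 : (1:ℝ) ≤ L := by linarith
  have k := two pl V α _ h H H t S' R L θ j m d (cl t (S' * R) row col) G c s (fun _ _ g => g)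
    (fun a y z _ _ e => congrArg Prod.fst e) g2 ?_ big jL
  · obtain ⟨φ, p1, p2, p3⟩ := grp_inv (F := H) (κ := cl t (S' * R) row col)
      (κ' := fun a y => t a y / (S' * R)) (cl t (S' * R) row col) (fun _ _ _ _ _ e => e)
      (fun a b y _ _ e => by simp only [cl]; rw [show t a y / (S' * R) = t b y / (S' * R) from e])
    refine le_trans (mul_le_mul_of_nonneg_right ?_ (by positivity)) (k.trans (mass_mono _ ?_))
    · rw [div_le_iff₀ (by positivity)]
      calc m ≤ 4 * (L:ℝ) ^ 8 * (ed H / 4) := by linarith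
        _ ≤ (L:ℝ) ^ 9 * (ed H / 4) :=
          mul_le_mul_of_nonneg_right (cpw X1 (by linarith) le_rfl) (by positivity)
        _ = _ := mul_comm _ _
    · rintro _ _ ⟨a, y, b, z, τ, g, g', rfl, rfl, e, l⟩ w
      have q := p3 _ _ _ w
      rw [p1 _ _ g, p2 _ _ g'] at q
      have q' := q
      simp only [cl, Prod.mk.injEq] at q'
      obtain ⟨q1, q2, q3⟩ := q'
      rw [← q1] at q2 q3
      exact ⟨a, y, b, z, g, g', rfl, rfl, q, u.gr a y z g q2.symm, u.gc a y z g q3.symm, τ, e, l⟩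
  · calc (G.card:ℝ) * θ ≤ G.card * ((L:ℝ) ^ 3 * θ) :=
          mul_le_mul_of_nonneg_left (le_mul_of_one_le_left (by positivity) (one_le_pow₀ X1))
            (by positivity)
      _ ≤ 2 * ((L:ℝ) ^ 8 * ed H) := by linarith
      _ ≤ 8 * ((L:ℝ) ^ 10 * ed H) := by
          have := mul_le_mul_of_nonneg_right (pow_le_pow_right₀ X1 (by norm_num : 8 ≤ 10)) e0
          have : 0 ≤ (L:ℝ) ^ 10 * ed H := by positivity
          linarith
      _ = _ := by ring

end Pool.Agent.Lib.MP_65c801_co.U
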