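import Pool.Agent.Lib.MP_65c801_co.U.Two

/-! Many walks in the boxes. -/

namespace Pool.Agent.Lib.MP_65c801_co.U

open Finset Classical T

namespace MB

lemma pre {Ω : Type} [Fintype Ω] {A W W' : Ω → Ω → Prop} {k : ℝ} (l : ℕ)
    (hk : ∀ x v, W x v → wk A l x v ≠ 0 → k ≤ cnt fun u => A u x ∧ W' u v) :
    k * mass A W l ≤ mass A W' (l + 1) := by
  unfold mass
  simp only [wk_succ']
  have e : ∀ u v, (if W' u v then ∑ x, if A u x then wk A l x v else 0 else 0) =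
      ∑ x, (if A u x ∧ W' u v then (1:ℝ) else 0) * wk A l x v := fun u v => by
    by_cases c : W' u v <;> simp [c]
  simp only [e]
  rw [sum_comm (f := fun u v => ∑ x, (if A u x ∧ W' u v then (1:ℝ) else 0) * wk A l x v),
    sum_comm, mul_sum]
  refine sum_le_sum fun v _ => ?_
  rw [sum_comm, mul_sum]
  refine sum_le_sum fun x _ => ?_
  have e' : (∑ u, if A u x ∧ W' u v then (1:ℝ) else 0) = cnt fun u => A u x ∧ W' u v := by
    rw [cnt_eq_sum]
    exact sum_congr rfl fun _ _ => by congr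
  rw [← sum_mul, e']
  have w0 := wk_nonneg (A := A) l x v
  by_cases c : W x v
  · rw [if_pos c]
    by_cases z : wk A l x v = 0
    · rw [z, mul_zero, mul_zero]
    · exact mul_le_mul_of_nonneg_right (hk x v c z) w0
  · rw [if_neg c, mul_zero]
    exact mul_nonneg (cnt_nonneg _) w0

variable {V α K : Type} [Fintype V] [LinearOrder α] {h : V → ℕ → α} {E : V → V → Prop}
  {t : V → V → ℕ}

lemma two_ends (f : Fam h E t) (a : V) (p : V → Prop) (hp : ∀ y, p y → E a y)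
    (hm : ∀ x y z, p x → p y → p z → t a x < t a y → t a y < t a z → False) : cnt p ≤ 2 := by
  have h1 := cnt_le_add (p := p) (q := fun y => p y ∧ ∀ x, p x → t a y ≤ t a x)
    (r := fun y => p y ∧ ∀ x, p x → t a x ≤ t a y) fun y hy => by
      by_contra c
      push Not at c
      obtain ⟨x, x1, x2⟩ := c.1 hy
      obtain ⟨z, z1, z2⟩ := c.2 hy
      exact hm x y z x1 hy z1 x2 z2
  have h2 := cnt_le_one (p := fun y => p y ∧ ∀ x, p x → t a y ≤ t a x) fun x y a1 a2 =>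
    f.injU (hp _ a1.1) (hp _ a2.1) (le_antisymm (a1.2 _ a2.1) (a2.2 _ a1.1))
  have h3 := cnt_le_one (p := fun y => p y ∧ ∀ x, p x → t a x ≤ t a y) fun x y a1 a2 =>
    f.injU (hp _ a1.1) (hp _ a2.1) (le_antisymm (a2.2 _ a1.1) (a1.2 _ a2.1))
  linarith

/-- few partners of `a` are below `a` at a given time -/
lemma few (hn : NoAlt h) (f : Fam h E t) (a : V) (τ : ℕ) :
    cnt (fun y => E a y ∧ h y τ < h a τ) ≤ 5 := by
  have h1 := cnt_le_add3 (p := fun y => E a y ∧ h y τ < h a τ)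
    (q := fun y => (E a y ∧ h y τ < h a τ) ∧ τ < t a y)
    (r := fun y => (E a y ∧ h y τ < h a τ) ∧ t a y < τ) (s := fun y => E a y ∧ t a y = τ)
    fun y hy => by
      rcases lt_trichotomy τ (t a y) with c | c | c
      exacts [Or.inl ⟨hy, c⟩, Or.inr (Or.inr ⟨hy.1, c.symm⟩), Or.inr (Or.inl ⟨hy, c⟩)]
  have h2 := two_ends f a (fun y => (E a y ∧ h y τ < h a τ) ∧ τ < t a y) (fun _ g => g.1.1)
    fun x y z gx gy gz c1 c2 => hn y a τ _ _ _ gx.2 c1 c2 gy.1.2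
      (f.p2 a x y gx.1.1 gy.1.1 fun e => c1.ne (e ▸ rfl)) (f.p1 a y gy.1.1)
      (f.p2 a z y gz.1.1 gy.1.1 fun e => c2.ne (e ▸ rfl))
  have h3 := two_ends f a (fun y => (E a y ∧ h y τ < h a τ) ∧ t a y < τ) (fun _ g => g.1.1)
    fun x y z gx gy gz c1 c2 => hn a y _ _ _ τ c1 c2 gz.2
      (f.p2 a x y gx.1.1 gy.1.1 fun e => c1.ne (e ▸ rfl)) (f.p1 a y gy.1.1)
      (f.p2 a z y gz.1.1 gy.1.1 fun e => c2.ne (e ▸ rfl)) gy.1.2
  have h4 := cnt_le_one (p := fun y => E a y ∧ t a y = τ) fun x y a1 a2 =>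
    f.injU a1.1 a2.1 (a1.2.trans a2.2.symm)
  linarith

/-- window and box of a group -/
def ps (t : V → V → ℕ) (S : ℕ) (φ : V → ℕ → ℕ × ℕ) : Om V → ℕ × ℕ × ℕ
  | Sum.inl p => (t p.1 p.2 / S, φ p.2 (t p.1 p.2 / S))
  | Sum.inr p => (t p.2 p.1 / S, φ p.1 (t p.2 p.1 / S))

variable {S L θ : ℕ} {m : ℝ} {H0 H1 F : V → V → Prop} {κ : V → V → K} {φ : V → ℕ → ℕ × ℕ}

lemma ps_lo (b : Bx h E t S L θ m H0 H1 κ φ) {a y : V} (g : F a y) :
    ps t S φ (lo F κ a y) = (t a y / S, φ y (t a y / S)) := by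
  have e : ∃ z, F a z ∧ κ a z = κ a y := ⟨y, g, rfl⟩
  simp only [lo, dif_pos e, ps]
  exact Prod.ext (b.win _ _ _ e.choose_spec.2) (b.box _ _ _ e.choose_spec.2)

lemma ps_up {a y : V} (g : F a y) :
    ps t S φ (up F (fun a y => t a y / S) a y) = (t a y / S, φ y (t a y / S)) := by
  have e : ∃ b, F b y ∧ t b y / S = t a y / S := ⟨a, g, rfl⟩
  simp only [up, dif_pos e, ps]
  rw [e.choose_spec.2]

end MB

open MB

theorem massB (h2 : TwoS) : MassBS := by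
  intro V α K _ _ h E t S' R L θ j m d H0 H1 κ φ c s b jL
  obtain ⟨n1, n2, -, n4⟩ := c.num
  have m0 : 0 ≤ m := (cnt_nonneg _).trans s.em
  have many := b.many
  set X : ℝ := (L:ℝ) with hX
  set T : ℝ := (θ:ℝ) with hT
  have X0 : 0 < X := by linarith
  have X1 : 1 ≤ X := by linarith
  have T0 : 0 < T := lt_of_lt_of_le (by positivity) n2
  set F0 : V → V → Prop := fun a y => H0 a y ∨ H1 a y with hF0
  set g := T / (2 * X ^ 5) with hg
  have g0 : 0 < g := by positivity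
  have Tg : T = 2 * X ^ 5 * g := by rw [hg]; field_simp
  have g1 : 10 ≤ g := by
    rw [hg, le_div_iff₀ (by positivity)]
    linarith [cpw X1 (by linarith : 20 ≤ X) (by norm_num : 5 + 1 ≤ 24)]
  set F : V → V → Prop := fun a y => H1 a y ∧ g ≤ cnt fun z => H0 a z ∧ κ a z = κ a y with hF
  have FE : ∀ a y, F a y → E a y := fun a y e => b.s1 a y e.1
  have fib : ∀ (q : V × V → Prop) (k : ℝ), (∀ e, q e → cnt (fun z => H0 e.1 z ∧
      κ e.1 z = κ e.1 e.2) ≤ k) → cnt (fun z : V × V × V => (H0 z.1 z.2.1 ∧ H1 z.1 z.2.2 ∧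
      κ z.1 z.2.1 = κ z.1 z.2.2) ∧ q (z.1, z.2.2)) ≤ cnt q * k := fun q k hk =>
    cnt_fib_le' (fun z => (z.1, z.2.2)) (fun z hz => hz.2) fun e he =>
      (cnt_inj (fun z => z.2.1) (fun z hz => by
        obtain ⟨⟨⟨a1, -, a2⟩, -⟩, rfl⟩ := hz
        exact ⟨a1, a2⟩) fun z w hz hw e' => by
        have := hz.2.trans hw.2.symm
        simp only [Prod.mk.injEq] at this
        exact Prod.ext this.1 (Prod.ext e' this.2)).trans (hk e he)
  have f1 := fib (fun e => F e.1 e.2) (2 * T) fun e _ => b.c0 _ _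
  have f2 := fib (fun e => H1 e.1 e.2 ∧ ¬ F e.1 e.2) g fun e he =>
    (not_le.1 fun k => he.2 ⟨he.1, k⟩).le
  have f3 : cnt (fun e : V × V => H1 e.1 e.2 ∧ ¬ F e.1 e.2) ≤ m :=
    (cnt_mono fun e he => b.s1 _ _ he.1).trans s.em
  have f4 := (cnt_le_add (p := fun z : V × V × V => H0 z.1 z.2.1 ∧ H1 z.1 z.2.2 ∧
    κ z.1 z.2.1 = κ z.1 z.2.2) fun z hz => by
      by_cases k : F z.1 z.2.2
      exacts [Or.inl ⟨hz, k⟩, Or.inr ⟨hz, hz.2.1, k⟩]).trans (add_le_add f1 f2)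
  have e0 : 0 ≤ ed F := cnt_nonneg _
  have big : m ≤ 4 * X ^ 5 * ed F := by
    have a1 : X ^ 5 * _ ≤ X ^ 5 * (ed F * (2 * T) + m * g) :=
      mul_le_mul_of_nonneg_left (f4.trans (by gcongr)) (by positivity)
    have a2 : T * m ≤ T * (4 * X ^ 5 * ed F) := by
      have : X ^ 5 * (m * g) = T * m / 2 := by rw [Tg]; ring
      nlinarith
    exact le_of_mul_le_mul_left a2 T0
  set G := (univ.filter fun e : V × V => F e.1 e.2).image (fun e => (e.1, κ e.1 e.2)) with hG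
  have gc : G.card * g ≤ m := by
    refine le_trans ?_ ((ed_mono b.s0).trans s.em)
    refine cnt_fib_ge' (p := fun e : V × V => H0 e.1 e.2) (fun e => (e.1, κ e.1 e.2)) G ?_
    intro k hk
    obtain ⟨e, he, rfl⟩ := mem_image.1 hk
    refine (mem_filter.1 he).2.2.trans (cnt_inj (fun z => (e.1, z)) ?_ ?_)
    · intro z hz; exact ⟨hz.1, Prod.ext rfl hz.2⟩
    · intro x y _ _ e; exact congrArg Prod.snd e
  have k := h2 V α K h F0 F t S' R L θ j m d κ G (c.mono FE) (s.mono FE)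
    (fun a y e => Or.inr e.1) (fun a y z _ _ => b.win a y z)
    (fun a y e => mem_image.2 ⟨(a, y), mem_filter.2 ⟨mem_univ _, e⟩, rfl⟩)
    (by
      calc G.card * T = 2 * X ^ 5 * (G.card * g) := by rw [Tg]; ring
        _ ≤ 2 * X ^ 5 * (4 * X ^ 5 * ed F) :=
          mul_le_mul_of_nonneg_left (gc.trans big) (by positivity)
        _ = _ := by ring)
    (big.trans (mul_le_mul_of_nonneg_right (cpw X1 (by linarith) (by norm_num)) e0)) jL
  refine le_trans ?_ ((mul_le_mul_of_nonneg_left k (half_pos g0).le).trans (pre _ ?_))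
  · rw [← mul_assoc]
    refine mul_le_mul_of_nonneg_right ?_ (by positivity)
    rw [div_le_iff₀ (by positivity)]
    calc m * T ≤ 4 * X ^ 5 * ed F * (2 * X ^ 5 * g) := by rw [← Tg]; gcongr
      _ = g / 2 * (ed F / 4) * (64 * X ^ 10) := by ring
      _ ≤ _ := mul_le_mul_of_nonneg_left (cpw X1 (by linarith) le_rfl) (by positivity)
  rintro _ _ ⟨a, y, b', z, τ, ga, gb, rfl, rfl, w, lt⟩ hw
  have i := wk_inv (ps t (S' * R) φ) (by
    rintro _ _ ⟨a, y, e, ⟨rfl, rfl⟩ | ⟨rfl, rfl⟩⟩ <;> rw [ps_lo b e, ps_up e]) _ _ _ hw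
  rw [ps_lo b (F := F0) (Or.inr ga.1), ps_up (F := F0) (Or.inr gb.1), Prod.mk.injEq] at i
  have s1 := cnt_le_add (p := fun x => H0 a x ∧ κ a x = κ a y)
    (q := fun x => E a x ∧ h x τ < h a τ)
    (r := fun x => (H0 a x ∧ κ a x = κ a y) ∧ h a τ ≤ h x τ) fun x hx =>
      (lt_or_ge (h x τ) (h a τ)).imp (fun e => ⟨b.s0 _ _ hx.1, e⟩) fun e => ⟨hx, e⟩
  have s2 := few c.na c.fam a τ
  have s3 := ga.2
  refine le_trans (by linarith) (cnt_inj (p := fun x => (H0 a x ∧ κ a x = κ a y) ∧ h a τ ≤ h x τ)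
    (fun x => up F0 (fun a y => t a y / (S' * R)) a x) ?_ ?_)
  · rintro x ⟨⟨x1, x2⟩, x3⟩
    have w1 := b.win a x y x2
    have co := b.co a x b' z x1 gb.1 (w1.trans i.1) ((b.box a x y x2).trans i.2)
    exact ⟨((adj_lo (F := F0) (Or.inr ga.1)).2 ⟨x, Or.inl x1, x2, rfl⟩).symm, a, x, b', z,
      Or.inl x1, Or.inr gb.1, rfl, rfl, w1.trans i.1, co.1, co.2, τ, w.trans w1.symm,
      lt.trans_le x3⟩
  · intro x x' hx hx' e
    exact ((up_eq (F := F0) (Or.inl hx.1.1) (Or.inl hx'.1.1)).1 e).1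

end Pool.Agent.Lib.MP_65c801_co.U
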