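import Pool.Agent.Lib.MP_65c801_co.U.St

/-! Pruning of walks with popular ends, and the unbalanced bound for the graph of groups. -/

namespace Pool.Agent.Lib.MP_65c801_co.U

open Finset Classical T

namespace Pr

/-- a value switched on by a condition -/
noncomputable def ind (p : Prop) (r : ℝ) : ℝ := if p then r else 0

lemma ind_pos {p : Prop} {r : ℝ} (h : p) : ind p r = r := if_pos h

lemma ind_neg {p : Prop} {r : ℝ} (h : ¬ p) : ind p r = 0 := if_neg h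

lemma ind_nonneg {p : Prop} {r : ℝ} (h : 0 ≤ r) : 0 ≤ ind p r := by
  by_cases c : p
  · rwa [ind_pos c]
  · rw [ind_neg c]

lemma cnt_ind {X : Type} [Fintype X] (p : X → Prop) : cnt p = ∑ x, ind (p x) 1 := cnt_eq_sum p

lemma wk_ind {Ω : Type} [Fintype Ω] (A : Ω → Ω → Prop) (j : ℕ) (u v : Ω) :
    wk A (j + 1) u v = ∑ x, ind (A x v) (wk A j u x) := rfl

lemma dy_sum {Z : Type} [Fintype Z] (q : Z → Prop) (w : Z → ℝ) (L : ℕ)
    (h1 : ∀ z, w z = 0 ∨ 1 ≤ w z) (h2 : ∀ z, w z < 2 ^ L) :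
    ∑ z, ind (q z) (w z) ≤
      ∑ s ∈ range L, 2 * 2 ^ s * cnt (fun z => q z ∧ (2:ℝ) ^ s ≤ w z) := by
  simp only [cnt_ind, mul_sum]
  rw [sum_comm]
  refine sum_le_sum fun z _ => ?_
  have nn : ∀ s ∈ range L, (0:ℝ) ≤ 2 * 2 ^ s * ind (q z ∧ (2:ℝ) ^ s ≤ w z) 1 := fun s _ =>
    mul_nonneg (by positivity) (ind_nonneg zero_le_one)
  by_cases c : q z
  · rw [ind_pos c]
    rcases h1 z with e | e
    · exact e.trans_le (sum_nonneg nn)
    · obtain ⟨s, s1, s2, s3⟩ := dyadic (w z) L e (h2 z)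
      refine le_trans ?_ (single_le_sum nn (mem_range.2 s1))
      rw [ind_pos ⟨c, s2⟩, mul_one]; exact s3.le
  · rw [ind_neg c]; exact sum_nonneg nn

lemma heavy {Ω : Type} [Fintype Ω] (A : Ω → Ω → Prop) (L l : ℕ) (P δ : ℝ) (Kq Φ : ℕ → ℝ)
    (P1 : 1 ≤ P) (δ0 : 0 ≤ δ) (hP : ∀ x, cnt (fun v => A x v) ≤ P) (hL : P ^ l < 2 ^ L)
    (K0 : Kq 0 = 1) (Km : ∀ i, Kq i ≤ Kq (i + 1)) (Φ0 : ∀ i, 0 ≤ Φ i)
    (hR : ∀ i < l, (∀ U U' : Ω → Prop, cnt (fun z : Ω × Ω => A z.1 z.2 ∧ U z.1 ∧ U' z.2) ≤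
      2 * ((cnt U / Kq i + 1) * (cnt U' / Kq i + 1) * Φ i)) ∧
      32 * L * Kq (i + 1) * Φ i ≤ δ * P * Kq i ^ 2) (u : Ω) (i : ℕ) (hi : i ≤ l) :
    ∑ v, ind (P ^ i < Kq i * wk A i u v) (wk A i u v) ≤ i * δ * P ^ i := by
  have P0 : 0 ≤ P := by linarith
  have K1 : ∀ i, 1 ≤ Kq i := fun i => by
    induction i with
    | zero => rw [K0]
    | succ i ih => exact ih.trans (Km i)
  induction i with
  | zero =>
    refine le_of_eq ?_
    rw [sum_eq_zero fun v _ => ind_neg ?_]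
    · simp
    · have := wk_le P0 hP 0 u v
      rw [K0, one_mul]; exact not_lt.2 this
  | succ i ih =>
    have ih := ih (by omega)
    obtain ⟨r1, r2⟩ := hR i (by omega)
    have k0 : 0 < Kq i := by linarith [K1 i]
    have k1 : 0 < Kq (i + 1) := by linarith [K1 (i + 1)]
    have pp : 0 < P ^ (i + 1) := by positivity
    set Wp : Ω → Prop := fun v => P ^ (i + 1) < Kq (i + 1) * wk A (i + 1) u v with hWp
    set H : Ω → Prop := fun x => P ^ i < Kq i * wk A i u x with hH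
    have cW : cnt Wp ≤ Kq (i + 1) := by
      have a := cnt_mul_le_sum (q := Wp) (fun v => Kq (i + 1) * wk A (i + 1) u v)
        (K := P ^ (i + 1)) (fun v g => le_of_lt g)
        (fun v => mul_nonneg k1.le (wk_nonneg _ _ _))
      rw [← mul_sum] at a
      have b := mul_le_mul_of_nonneg_left (wk_row P0 hP (i + 1) u) k1.le
      exact le_of_mul_le_mul_right (a.trans b) pp
    have e1 : ∑ v, ind (Wp v) (wk A (i + 1) u v) =
        ∑ x, ind (H x) (wk A i u x) * cnt (fun v => A x v ∧ Wp v) +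
        ∑ z : Ω × Ω, ind (A z.1 z.2 ∧ ¬ H z.1 ∧ Wp z.2) (wk A i u z.1) := by
      have e : ∀ v, ind (Wp v) (wk A (i + 1) u v) =
          ∑ x, ind (A x v ∧ Wp v) (wk A i u x) := fun v => by
        by_cases c : Wp v
        · rw [ind_pos c, wk_ind]; simp only [c, and_true]
        · rw [ind_neg c]; exact (sum_eq_zero fun x _ => ind_neg fun g => c g.2).symm
      rw [sum_congr rfl fun v _ => e v, sum_comm, Fintype.sum_prod_type, ← sum_add_distrib]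
      refine sum_congr rfl fun x _ => ?_
      rw [cnt_ind, mul_sum, ← sum_add_distrib]
      refine sum_congr rfl fun v _ => ?_
      by_cases c0 : A x v ∧ Wp v
      · by_cases c1 : H x
        · rw [ind_pos c0, ind_pos c0, ind_pos c1, ind_neg fun g => g.2.1 c1]; ring
        · rw [ind_pos c0, ind_pos c0, ind_neg c1, ind_pos ⟨c0.1, c1, c0.2⟩]; ring
      · rw [ind_neg c0, ind_neg c0, ind_neg (p := _ ∧ _ ∧ _) fun g => c0 ⟨g.1, g.2.2⟩]; ring
    have b1 : ∑ x, ind (H x) (wk A i u x) * cnt (fun v => A x v ∧ Wp v) ≤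
        i * δ * P ^ i * P := by
      refine le_trans (sum_le_sum fun x _ => ?_) ((sum_mul _ _ P).symm.trans_le
        (mul_le_mul_of_nonneg_right ih P0))
      exact mul_le_mul_of_nonneg_left ((cnt_mono fun v g => g.1).trans (hP x))
        (ind_nonneg (wk_nonneg _ _ _))
    have b2 := dy_sum (fun z : Ω × Ω => A z.1 z.2 ∧ ¬ H z.1 ∧ Wp z.2) (fun z => wk A i u z.1) L
      (fun z => wk_zero_or _ _ _) (fun z => ((wk_le P0 hP i u z.1).trans
        (pow_le_pow_right₀ P1 (by omega))).trans_lt hL)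
    have b3 : ∀ s ∈ range L, 2 * 2 ^ s * cnt (fun z : Ω × Ω =>
        (A z.1 z.2 ∧ ¬ H z.1 ∧ Wp z.2) ∧ (2:ℝ) ^ s ≤ wk A i u z.1) ≤
        16 * P ^ i * Kq (i + 1) * Φ i / Kq i ^ 2 := by
      intro s _
      have f0 := Φ0 i
      by_cases c : ∃ x, ¬ H x ∧ (2:ℝ) ^ s ≤ wk A i u x
      · obtain ⟨x, x1, x2⟩ := c
        have s1 : Kq i * 2 ^ s ≤ P ^ i :=
          (mul_le_mul_of_nonneg_left x2 k0.le).trans (not_lt.1 x1)
        set U : Ω → Prop := fun x => ¬ H x ∧ (2:ℝ) ^ s ≤ wk A i u x with hU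
        have s2 : cnt U * 2 ^ s ≤ P ^ i :=
          (cnt_mul_le_sum (q := U) (fun x => wk A i u x) (fun x g => g.2)
            (fun x => wk_nonneg _ _ _)).trans (wk_row P0 hP i u)
        have s3 := (cnt_mono (p := fun z : Ω × Ω =>
          (A z.1 z.2 ∧ ¬ H z.1 ∧ Wp z.2) ∧ (2:ℝ) ^ s ≤ wk A i u z.1)
          (fun z g => ⟨g.1.1, ⟨g.1.2.1, g.2⟩, g.1.2.2⟩)).trans (r1 U Wp)
        have s4 : 2 ^ s * (cnt U / Kq i + 1) ≤ 2 * P ^ i / Kq i := by
          rw [le_div_iff₀ k0]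
          have : 2 ^ s * (cnt U / Kq i + 1) * Kq i = cnt U * 2 ^ s + Kq i * 2 ^ s := by
            field_simp
          rw [this]; linarith
        have s5 : cnt Wp / Kq i + 1 ≤ 2 * Kq (i + 1) / Kq i := by
          rw [le_div_iff₀ k0]
          have : (cnt Wp / Kq i + 1) * Kq i = cnt Wp + Kq i := by field_simp
          rw [this]; linarith [Km i]
        have n1 : 0 ≤ cnt Wp / Kq i + 1 := by have := cnt_nonneg Wp; positivity
        calc _ ≤ 2 * 2 ^ s * (2 * ((cnt U / Kq i + 1) * (cnt Wp / Kq i + 1) * Φ i)) :=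
              mul_le_mul_of_nonneg_left s3 (by positivity)
          _ = 4 * ((2 ^ s * (cnt U / Kq i + 1)) * (cnt Wp / Kq i + 1)) * Φ i := by ring
          _ ≤ 4 * ((2 * P ^ i / Kq i) * (2 * Kq (i + 1) / Kq i)) * Φ i :=
              mul_le_mul_of_nonneg_right (mul_le_mul_of_nonneg_left
                (mul_le_mul s4 s5 n1 (by positivity)) (by norm_num)) f0
          _ = _ := by field_simp; ring
      · rw [cnt_zero fun z g => c ⟨z.1, g.1.2.1, g.2⟩, mul_zero]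
        positivity
    have b4 := sum_le_sum b3
    rw [sum_const, card_range, nsmul_eq_mul] at b4
    have b5 : (L:ℝ) * (16 * P ^ i * Kq (i + 1) * Φ i / Kq i ^ 2) ≤ δ * P ^ (i + 1) := by
      rw [← mul_div_assoc, div_le_iff₀ (by positivity)]
      have p0 : 0 ≤ P ^ i := by positivity
      have a := mul_le_mul_of_nonneg_left r2 p0
      have b : 0 ≤ P ^ i * (δ * P * Kq i ^ 2) := by positivity
      calc (L:ℝ) * (16 * P ^ i * Kq (i + 1) * Φ i)
          = (P ^ i * (32 * L * Kq (i + 1) * Φ i)) / 2 := by ring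
        _ ≤ P ^ i * (δ * P * Kq i ^ 2) := by linarith
        _ = _ := by ring
    have e2 : ((i + 1 : ℕ) : ℝ) * δ * P ^ (i + 1) = i * δ * P ^ i * P + δ * P ^ (i + 1) := by
      push_cast; ring
    rw [e2]
    exact e1.trans_le (add_le_add b1 (b2.trans (b4.trans b5)))

lemma half {V K K' : Type} [Fintype V] {E F : V → V → Prop} (κ : V → V → K) (κ' : V → V → K')
    {M Φ : ℝ} (hF : ∀ a y, F a y → E a y) (M0 : 0 < M) (Φ0 : 0 ≤ Φ) (r : RectQ E M Φ)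
    (U U' : Om V → Prop) :
    cnt (fun e : V × V => F e.1 e.2 ∧ U (lo F κ e.1 e.2) ∧ U' (up F κ' e.1 e.2)) ≤
      (cnt U / M + 1) * (cnt U' / M + 1) * Φ := by
  have a := r (fun a y => F a y ∧ U (lo F κ a y) ∧ U' (up F κ' a y))
    (fun a => ∃ y, U (lo F κ a y)) (fun y => ∃ a, U' (up F κ' a y))
    (fun a y g => ⟨hF a y g.1, ⟨y, g.2.1⟩, ⟨a, g.2.2⟩⟩)
  have b1 : cnt (fun a => ∃ y, U (lo F κ a y)) ≤ cnt U :=
    cnt_surj (Sum.elim Prod.fst Prod.fst) fun a ⟨y, g⟩ => ⟨_, g, rfl⟩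
  have b2 : cnt (fun y => ∃ a, U' (up F κ' a y)) ≤ cnt U' :=
    cnt_surj (Sum.elim Prod.fst Prod.fst) fun y ⟨a, g⟩ => ⟨_, g, rfl⟩
  refine a.trans (mul_le_mul_of_nonneg_right (mul_le_mul ?_ ?_ ?_ ?_) Φ0)
  · gcongr
  · gcongr
  · have := cnt_nonneg (fun y => ∃ a, U' (up F κ' a y)); positivity
  · have := cnt_nonneg U; positivity

end Pr

theorem prune : PruneS := by
  intro Ω _ A W St L l P δ g M Kq Φ L1 P1 δ0 hP hL K0 Km Φ0 hR hW hg M0 hM h2
  have P0 : 0 ≤ P := by linarith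
  have K1 : ∀ i, 1 ≤ Kq i := fun i => by
    induction i with
    | zero => rw [K0]
    | succ i ih => exact ih.trans (Km i)
  have hv := fun u => Pr.heavy A L l P δ Kq Φ P1 δ0 hP hL K0 Km Φ0 hR u l le_rfl
  have n0 : 0 ≤ l * δ * P ^ l := by positivity
  have a1 : ∑ u, ∑ v, Pr.ind (W u v ∧ P ^ l < Kq l * wk A l u v) (wk A l u v) ≤
      g * (l * δ * P ^ l) := by
    refine (sum_le_cnt_mul (q := St) _ (fun u _ => ?_) (fun u c => ?_)).trans
      (mul_le_mul_of_nonneg_right hg n0)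
    · refine le_trans (sum_le_sum fun v _ => ?_) (hv u)
      by_cases c : W u v ∧ P ^ l < Kq l * wk A l u v
      · rw [Pr.ind_pos c, Pr.ind_pos c.2]
      · rw [Pr.ind_neg c]; exact Pr.ind_nonneg (wk_nonneg _ _ _)
    · exact le_of_eq (sum_eq_zero fun v _ => Pr.ind_neg fun e => c (hW u v e.1))
  have a2 : mass A W l =
      ∑ u, ∑ v, Pr.ind (W u v ∧ P ^ l < Kq l * wk A l u v) (wk A l u v) +
      ∑ z : Ω × Ω, Pr.ind (W z.1 z.2 ∧ ¬ P ^ l < Kq l * wk A l z.1 z.2) (wk A l z.1 z.2) := by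
    change ∑ u, ∑ v, Pr.ind (W u v) (wk A l u v) = _
    rw [Fintype.sum_prod_type, ← sum_add_distrib]
    refine sum_congr rfl fun u _ => ?_
    rw [← sum_add_distrib]
    refine sum_congr rfl fun v _ => ?_
    by_cases c1 : W u v
    · by_cases c2 : P ^ l < Kq l * wk A l u v
      · rw [Pr.ind_pos c1, Pr.ind_pos ⟨c1, c2⟩, Pr.ind_neg fun g => g.2 c2, add_zero]
      · rw [Pr.ind_pos c1, Pr.ind_neg fun g => c2 g.2, Pr.ind_pos ⟨c1, c2⟩, zero_add]
    · rw [Pr.ind_neg c1, Pr.ind_neg fun g => c1 g.1, Pr.ind_neg fun g => c1 g.1, add_zero]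
  have a3 := Pr.dy_sum (fun z : Ω × Ω => W z.1 z.2 ∧ ¬ P ^ l < Kq l * wk A l z.1 z.2)
    (fun z => wk A l z.1 z.2) L (fun z => wk_zero_or _ _ _)
    (fun z => (wk_le P0 hP l z.1 z.2).trans_lt hL)
  obtain ⟨s, -, hs⟩ := exists_max_image (range L) (fun s => 2 * 2 ^ s * cnt (fun z : Ω × Ω =>
    (W z.1 z.2 ∧ ¬ P ^ l < Kq l * wk A l z.1 z.2) ∧ (2:ℝ) ^ s ≤ wk A l z.1 z.2))
    ⟨0, mem_range.2 L1⟩
  have a4 := sum_le_sum hs
  rw [sum_const, card_range, nsmul_eq_mul] at a4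
  set c := cnt (fun z : Ω × Ω =>
    (W z.1 z.2 ∧ ¬ P ^ l < Kq l * wk A l z.1 z.2) ∧ (2:ℝ) ^ s ≤ wk A l z.1 z.2) with hc
  have a5 : M ≤ 4 * L * 2 ^ s * c := by
    have := a3.trans a4
    linarith
  have c0 : 0 < c := by
    by_contra e
    have : c = 0 := le_antisymm (not_lt.1 e) (cnt_nonneg _)
    rw [this] at a5
    linarith
  obtain ⟨z, ⟨-, z1⟩, z2⟩ := exists_of_cnt_pos c0
  refine ⟨2 ^ s, one_le_pow₀ (by norm_num), ?_, a5.trans ?_⟩
  · rw [mul_comm]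
    exact (mul_le_mul_of_nonneg_left z2 (by linarith [K1 l])).trans (not_lt.1 z1)
  · exact mul_le_mul_of_nonneg_left (cnt_mono fun z e => ⟨e.1.1, e.2⟩) (by positivity)

theorem rectS : RectS := by
  intro V K K' _ E F κ κ' M Φ hF M0 Φ0 r U U'
  have a := Pr.half κ κ' hF M0 Φ0 r U U'
  have b := Pr.half κ κ' hF M0 Φ0 r U' U
  have c := cnt_le_add (p := fun z : Om V × Om V => Adj F κ κ' z.1 z.2 ∧ U z.1 ∧ U' z.2)
    (q := fun z => ∃ a y, (F a y ∧ U (lo F κ a y) ∧ U' (up F κ' a y)) ∧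
      (lo F κ a y, up F κ' a y) = z)
    (r := fun z => ∃ a y, (F a y ∧ U' (lo F κ a y) ∧ U (up F κ' a y)) ∧
      (up F κ' a y, lo F κ a y) = z) (by
      rintro ⟨o, o'⟩ ⟨⟨a, y, g, ⟨e1, e2⟩ | ⟨e1, e2⟩⟩, g1, g2⟩
      · simp only at e1 e2 g1 g2
        subst e1 e2
        exact Or.inl ⟨a, y, ⟨g, g1, g2⟩, rfl⟩
      · simp only at e1 e2 g1 g2
        subst e1 e2
        exact Or.inr ⟨a, y, ⟨g, g2, g1⟩, rfl⟩)
  have d1 := cnt_surj (p := fun e : V × V => F e.1 e.2 ∧ U (lo F κ e.1 e.2) ∧ U' (up F κ' e.1 e.2))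
    (q := fun z : Om V × Om V => ∃ a y, (F a y ∧ U (lo F κ a y) ∧ U' (up F κ' a y)) ∧
      (lo F κ a y, up F κ' a y) = z) (fun e => (lo F κ e.1 e.2, up F κ' e.1 e.2))
    (fun z ⟨a, y, g, e⟩ => ⟨(a, y), g, e⟩)
  have d2 := cnt_surj (p := fun e : V × V => F e.1 e.2 ∧ U' (lo F κ e.1 e.2) ∧ U (up F κ' e.1 e.2))
    (q := fun z : Om V × Om V => ∃ a y, (F a y ∧ U' (lo F κ a y) ∧ U (up F κ' a y)) ∧
      (up F κ' a y, lo F κ a y) = z) (fun e => (up F κ' e.1 e.2, lo F κ e.1 e.2))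
    (fun z ⟨a, y, g, e⟩ => ⟨(a, y), g, e⟩)
  rw [mul_comm (cnt U' / M + 1)] at b
  linarith

end Pool.Agent.Lib.MP_65c801_co.U
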