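import Pool.Agent.Lib.MP_65c801_co.U.St

/-! The choice of the two scales. -/

namespace Pool.Agent.Lib.MP_65c801_co.U

open Finset Classical T T.Scl

section

variable {V : Type} [Fintype V]

/-- edges whose upper group is the last one to become large -/
def Cw (E : V → V → Prop) (t : V → V → ℕ) (L θ : ℕ) (a y : V) : Prop :=
  E a y ∧ ¬ Jp (fun y a => E a y) (fun y a => t a y) L y a ∧
    (L:ℝ) ^ 36 * θ ≤ gs (fun y a => E a y) (fun y a => t a y) (2 ^ L) y a ∧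
    ∃ i < L, gs (fun y a => E a y) (fun y a => t a y) (2 ^ i) y a < (L:ℝ) ^ 16 * θ ∧
      (L:ℝ) ^ 16 * θ ≤ gs E t (2 ^ (i + 1)) a y ∧
      (L:ℝ) ^ 16 * θ ≤ gs (fun y a => E a y) (fun y a => t a y) (2 ^ (i + 1)) y a

lemma halfW {E : V → V → Prop} {t : V → V → ℕ} {L θ : ℕ} {d : ℝ} (L1 : 1 ≤ L)
    (dL : ∀ a, cnt (fun y => E a y) ≤ d) (dU : ∀ y, cnt (fun a => E a y) ≤ d)
    (hm : ed E ≤ 4 * ed (Cw E t L θ)) : ∃ (F : V → V → Prop) (S' R : ℕ),
      (∀ a y, F a y → E a y) ∧ Sq F t S' R L θ (ed E) d ∧ ed E ≤ 4 * (L:ℝ) ^ 2 * ed F := by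
  have Lr : (1:ℝ) ≤ L := by exact_mod_cast L1
  set q : ℕ → V × V → ℝ := fun i e => gs (fun y a => E a y) (fun y a => t a y) (2 ^ i) e.2 e.1
  have up : ∀ e : V × V, Cw E t L θ e.1 e.2 → ∀ i < L, q (i + 1) e ≤ L ^ 2 * q i e :=
    fun e he i hi => not_lt.1 fun c => he.2.1 ⟨he.1, i, hi, c⟩
  obtain ⟨i, -, p1⟩ := pigeon (fun e : V × V => Cw E t L θ e.1 e.2) L L1 (fun i e =>
    q i e < (L:ℝ) ^ 16 * θ ∧ (L:ℝ) ^ 16 * θ ≤ gs E t (2 ^ (i + 1)) e.1 e.2 ∧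
      (L:ℝ) ^ 16 * θ ≤ q (i + 1) e ∧ q (i + 1) e ≤ (L:ℝ) ^ 18 * θ) fun e he => by
    obtain ⟨i, h0, h1, h2, h3⟩ := he.2.2.2
    refine ⟨i, h0, h1, h2, h3, (up e he i h0).trans ?_⟩
    calc _ ≤ (L:ℝ) ^ 2 * (L ^ 16 * θ) := mul_le_mul_of_nonneg_left h1.le (sq_nonneg _)
      _ = _ := by ring
  obtain ⟨j, -, p2⟩ := pigeon (fun e : V × V => Cw E t L θ e.1 e.2 ∧
    q i e < (L:ℝ) ^ 16 * θ ∧ (L:ℝ) ^ 16 * θ ≤ gs E t (2 ^ (i + 1)) e.1 e.2 ∧
      (L:ℝ) ^ 16 * θ ≤ q (i + 1) e ∧ q (i + 1) e ≤ (L:ℝ) ^ 18 * θ) L L1 (fun j e =>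
    (L:ℝ) ^ 36 * θ ≤ q (i + j + 1) e ∧ q (i + j + 1) e ≤ (L:ℝ) ^ 38 * θ) fun e he => by
    have ex : ∃ k, (L:ℝ) ^ 36 * θ ≤ q k e := ⟨L, he.1.2.2.1⟩
    have h1 := Nat.find_spec ex
    have h2 := Nat.find_min' ex he.1.2.2.1
    have h3 := fun k => @Nat.find_min _ _ ex k
    generalize Nat.find ex = k at *
    have h4 : i < k := not_le.1 fun c => absurd ((h1.trans (gs_mono _ _ c _ _)).trans_lt he.2.1)
      (not_lt.2 (by gcongr; norm_num))
    obtain ⟨j, rfl⟩ := Nat.exists_eq_add_of_lt h4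
    refine ⟨j, by omega, h1, (up e he.1 _ h2).trans ?_⟩
    calc _ ≤ (L:ℝ) ^ 2 * (L ^ 36 * θ) :=
          mul_le_mul_of_nonneg_left (not_le.1 (h3 _ (Nat.lt_succ_self _))).le (sq_nonneg _)
      _ = _ := by ring
  set F : V → V → Prop := fun a y => (Cw E t L θ a y ∧
    q i (a, y) < (L:ℝ) ^ 16 * θ ∧ (L:ℝ) ^ 16 * θ ≤ gs E t (2 ^ (i + 1)) a y ∧
      (L:ℝ) ^ 16 * θ ≤ q (i + 1) (a, y) ∧ q (i + 1) (a, y) ≤ (L:ℝ) ^ 18 * θ) ∧
    (L:ℝ) ^ 36 * θ ≤ q (i + j + 1) (a, y) ∧ q (i + j + 1) (a, y) ≤ (L:ℝ) ^ 38 * θ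
  have hF : ∀ a y, F a y → E a y := fun a y g => g.1.1.1
  have e : 2 ^ (i + 1) * 2 ^ j = 2 ^ (i + j + 1) := by ring
  refine ⟨F, 2 ^ (i + 1), 2 ^ j, hF, ⟨by positivity, by positivity, ed_mono hF,
    fun a => (cnt_mono fun y => hF a y).trans (dL a),
    fun y => (cnt_mono fun a => hF a y).trans (dU y), fun y w => ?_, fun y w => ?_, ?_, ?_, ?_⟩,
    ?_⟩
  · exact Tb.grp (E := fun y a => E a y) (H := fun y a => F a y) (T := fun y a => t a y)
      (by positivity) (fun y a => hF a y) (fun y a g => g.1.2.2.2.2) y _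
      fun _ _ c c' => c.trans c'.symm
  · rw [e]
    exact Tb.grp (E := fun y a => E a y) (H := fun y a => F a y) (T := fun y a => t a y)
      (by positivity) (fun y a => hF a y) (fun y a g => g.2.2) y _
      fun _ _ c c' => c.trans c'.symm
  · exact occ' (E := E) (H := F) fun a y g => g.1.2.2.1
  · exact (occ' (E := fun y a => E a y) (H := fun y a => F a y) (T := fun y a => t a y)
      fun y a g => g.1.2.2.2.1).imp fun G k => ⟨k.1.trans_eq (ed_flip E), fun a y => k.2 y a⟩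
  · rw [e]
    exact (occ' (E := fun y a => E a y) (H := fun y a => F a y) (T := fun y a => t a y)
      fun y a g => g.2.1).imp fun G k => ⟨k.1.trans_eq (ed_flip E), fun a y => k.2 y a⟩
  · calc ed E ≤ 4 * (L * (L * ed F)) :=
          hm.trans (mul_le_mul_of_nonneg_left (p1.trans
            (mul_le_mul_of_nonneg_left p2 (by positivity))) (by norm_num))
      _ = _ := by ring

end

theorem scaleW : ScaleWS := by
  intro V α _ _ h E t L θ N d c dL dU cN d1 d2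
  obtain ⟨L0, θ0, L1, θ1⟩ := c.num
  have θ1' : (1:ℝ) ≤ θ := by exact_mod_cast θ1
  have Lr : (1:ℝ) ≤ L := by linarith
  have P1 : 1 < (L:ℝ) ^ 16 * θ :=
    (one_lt_pow₀ (by linarith) (by norm_num)).trans_le (le_mul_of_one_le_right (by positivity) θ1')
  have P2 : (L:ℝ) ^ 16 * θ ≤ (L:ℝ) ^ 36 * θ := by gcongr; norm_num
  have j1 := jp_le E t L1
  have j2 := jp_le (fun y a => E a y) (fun y a => t a y) L1
  have l1 := low_deg E (D := (L:ℝ) ^ 36 * θ) (by positivity) cN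
  have l2 := low_deg (fun y a => E a y) (D := (L:ℝ) ^ 36 * θ) (by positivity) cN
  rw [ed_flip E, ← ed_flip] at j2
  rw [← cnt_swap] at l2
  have key : ∀ e : V × V, E e.1 e.2 → (Cw E t L θ e.1 e.2 ∨
      Cw (fun y a => E a y) (fun y a => t a y) L θ e.2 e.1) ∨
      ((Jp E t L e.1 e.2 ∨ Jp (fun y a => E a y) (fun y a => t a y) L e.2 e.1) ∨
      (E e.1 e.2 ∧ cnt (fun y => E e.1 y) < (L:ℝ) ^ 36 * θ) ∨
      (E e.1 e.2 ∧ cnt (fun a => E a e.2) < (L:ℝ) ^ 36 * θ)) := by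
    rintro ⟨a, y⟩ g
    refine or_iff_not_imp_right.2 fun hn => ?_
    simp only [not_or, not_and, not_lt] at hn
    obtain ⟨⟨n1, n2⟩, n3, n4⟩ := hn
    have a1 := (n3 g).trans_eq (gs_top c.tb g).symm
    have a2 := (n4 g).trans_eq (gs_top c.flip.tb (a := y) g).symm
    have ex : ∃ k, (L:ℝ) ^ 16 * θ ≤ gs E t (2 ^ k) a y ∧
        (L:ℝ) ^ 16 * θ ≤ gs (fun y a => E a y) (fun y a => t a y) (2 ^ k) y a :=
      ⟨L, P2.trans a1, P2.trans a2⟩
    have h1 := Nat.find_spec ex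
    have h2 := Nat.find_min' ex ⟨P2.trans a1, P2.trans a2⟩
    have h3 := fun k => @Nat.find_min _ _ ex k
    generalize Nat.find ex = k at *
    cases k with
    | zero =>
      refine absurd (h1.1.trans (cnt_le_one fun x z hx hz => c.fam.injU hx.1 hz.1 ?_))
        (not_le.2 P1)
      simpa using hx.2.trans hz.2.symm
    | succ i =>
      rcases not_and_or.1 (h3 i (Nat.lt_succ_self i)) with k | k
      · exact Or.inr ⟨g, n1, a1, i, h2, not_le.1 k, h1.2, h1.1⟩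
      · exact Or.inl ⟨g, n2, a2, i, h2, not_le.1 k, h1.1, h1.2⟩
  have s1 := cnt_le_add key
  have s2 := cnt_or (fun e : V × V => Cw E t L θ e.1 e.2)
    fun e => Cw (fun y a => E a y) (fun y a => t a y) L θ e.2 e.1
  have s3 := cnt_le_add3 (p := fun e : V × V =>
    ((Jp E t L e.1 e.2 ∨ Jp (fun y a => E a y) (fun y a => t a y) L e.2 e.1) ∨
      (E e.1 e.2 ∧ cnt (fun y => E e.1 y) < (L:ℝ) ^ 36 * θ) ∨
      (E e.1 e.2 ∧ cnt (fun a => E a e.2) < (L:ℝ) ^ 36 * θ))) fun _ he => he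
  have s4 := cnt_or (fun e : V × V => Jp E t L e.1 e.2)
    fun e => Jp (fun y a => E a y) (fun y a => t a y) L e.2 e.1
  have e0 : 0 ≤ ed E := cnt_nonneg _
  have N0 : 0 ≤ N := (Nat.cast_nonneg _).trans cN
  have b1 : 8 * (N * (L ^ 36 * θ)) ≤ ed E := by
    refine le_of_mul_le_mul_left (le_trans ?_ d2) (show (0:ℝ) < L by linarith)
    calc _ = N * (8 * L ^ 37 * θ) := by ring
      _ ≤ N * (L * L ^ 37 * θ) := by
        gcongr
        linarith
      _ ≤ _ := by rw [← pow_succ']; gcongr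
  have b2 : 8 * ed (Jp E t L) ≤ ed E := by nlinarith [cnt_nonneg fun e : V × V => Jp E t L e.1 e.2]
  have b3 : 8 * ed (fun a y => Jp (fun y a => E a y) (fun y a => t a y) L y a) ≤ ed E := by
    nlinarith [cnt_nonneg fun e : V × V => Jp (fun y a => E a y) (fun y a => t a y) L e.2 e.1]
  by_cases k : ed E ≤ 4 * ed (Cw E t L θ)
  · exact Or.inl (halfW L1 dL dU k)
  · have := halfW (E := fun y a => E a y) (t := fun y a => t a y) (θ := θ) L1 dU dL (by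
        rw [ed_flip E, ← ed_flip (Cw _ _ L θ)]
        linarith)
    rw [ed_flip E] at this
    exact Or.inr this

end Pool.Agent.Lib.MP_65c801_co.U
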