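import Pool.Agent.Lib.MP_65c801_co.U.St

/-! Doubly degenerate four-cycles: a function dominated by incidences of groups with real
weights. -/

namespace Pool.Agent.Lib.MP_65c801_co.U

open Finset Classical T

theorem stemW (inc : IncS) : StemWS := by
  intro V _ c x L D σ P k Y L1 c1 cD cL cs P1 σ0 hk Y0 hY
    ⟨K, H, κ, gr, mm, ν, S, ok, ν0, _, Sσ, SL, m1, mS, hst, inj, dom⟩
  have c0 : ∀ y, 0 ≤ c y := fun y => (c1 y).elim (fun e => e.ge) fun e => by linarith
  have m0 : ∀ o, 0 ≤ mm o := fun o => (m1 o).elim (fun e => e.ge) fun e => by linarith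
  have L1' : (1:ℝ) ≤ L := by exact_mod_cast L1
  have D0 : 0 ≤ D := (c0 x).trans (cD x)
  set B := 4 * (L:ℝ) * D ^ 2 * σ + Y with hB
  have B0 : 0 ≤ B := by positivity
  set U : ℕ → V → Prop := fun j y => y ≠ x ∧ (2:ℝ) ^ j ≤ c y ∧ c y < 2 * 2 ^ j with hU
  have cls : ∀ j, ((2:ℝ) ^ j) ^ 2 * cnt (U j) ≤ B := by
    intro j
    rcases cnt_zero_or (U j) with e | e
    · rw [e, mul_zero]; exact B0
    obtain ⟨y0, hy0⟩ := exists_of_cnt_pos (lt_of_lt_of_le one_pos e)
    set O : ℕ → Om V → Prop := fun i o => (2:ℝ) ^ i ≤ mm o ∧ mm o < 2 * 2 ^ i with hO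
    set N : ℕ → V × Om V → Prop := fun i z =>
      U j z.1 ∧ O i z.2 ∧ H (gr z.2).1 z.1 ∧ κ (gr z.2).1 z.1 = (gr z.2).2 with hN
    have n0 : ∀ y, (if U j y then (1:ℝ) else 0) * (ν * 2 ^ j) ≤
        ∑ o, ∑ i ∈ range L, 2 * 2 ^ i * (if N i (y, o) then (1:ℝ) else 0) := fun y => by
      have nn : ∀ o, ∀ i ∈ range L, 0 ≤ 2 * 2 ^ i * (if N i (y, o) then (1:ℝ) else 0) :=
        fun o i _ => by split_ifs <;> positivity
      by_cases hy : U j y
      · rw [if_pos hy, one_mul]
        refine (le_trans (by gcongr; exact hy.2.1) (dom y hy.1)).trans (sum_le_sum fun o _ => ?_)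
        by_cases g : H (gr o).1 y ∧ κ (gr o).1 y = (gr o).2
        · rw [if_pos g]
          rcases m1 o with e1 | e1
          · exact e1.le.trans (sum_nonneg (nn o))
          obtain ⟨i, hi, h1, h2⟩ := dyadic _ L e1 ((mS o).trans_lt SL)
          refine le_trans ?_ (single_le_sum (nn o) (mem_range.2 hi))
          rw [if_pos ⟨hy, ⟨h1, h2⟩, g⟩, mul_one]
          exact h2.le
        · rw [if_neg g]
          exact sum_nonneg (nn o)
      · rw [if_neg hy, zero_mul]
        exact sum_nonneg fun o _ => sum_nonneg (nn o)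
    have n1 : ∑ _i ∈ range L, cnt (U j) * (ν * 2 ^ j) / L ≤
        ∑ i ∈ range L, 2 * 2 ^ i * cnt (N i) := by
      rw [sum_const, card_range, nsmul_eq_mul, mul_div_cancel₀ _ (by positivity), cnt_eq_sum,
        sum_mul]
      refine le_trans (sum_le_sum fun y _ => le_trans (le_of_eq (by congr)) (n0 y)) (le_of_eq ?_)
      rw [← Fintype.sum_prod_type' , sum_comm]
      refine sum_congr rfl fun i _ => ?_
      rw [cnt_eq_sum, mul_sum]
      exact sum_congr rfl fun z _ => by congr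
    obtain ⟨i, -, n2⟩ := exists_le_of_sum_le (nonempty_range_iff.2 (by omega)) n1
    rw [div_le_iff₀ (by positivity)] at n2
    have pos : 0 < cnt (N i) := by
      have : 0 < cnt (U j) * (ν * 2 ^ j) := by positivity
      by_contra g
      have : cnt (N i) = 0 := le_antisymm (not_lt.1 g) (cnt_nonneg _)
      rw [this] at n2
      linarith
    obtain ⟨z0, hz0⟩ := exists_of_cnt_pos pos
    have ne : ∀ o, O i o → mm o ≠ 0 := fun o g => (lt_of_lt_of_le (by positivity) g.1).ne'
    set G : Finset (V × K) := (univ.filter (O i)).image gr with hG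
    have gm : (G.card:ℝ) * 2 ^ i ≤ D * S := by
      refine le_trans ?_ ((cnt_mul_le_sum (q := O i) mm (fun o g => g.1) m0).trans hst)
      have : (G.card:ℝ) ≤ cnt (O i) := by
        unfold cnt
        exact_mod_cast card_image_le.trans (le_of_eq (by congr))
      gcongr
    have n3 : cnt (N i) ≤ ed (fun a y => H a y ∧ (a, κ a y) ∈ G ∧ U j y) := by
      refine cnt_inj (fun z : V × Om V => ((gr z.2).1, z.1)) (fun z hz => ?_) fun z w hz hw g => ?_
      · refine ⟨hz.2.2.1, ?_, hz.1⟩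
        show ((gr z.2).1, κ (gr z.2).1 z.1) ∈ G
        rw [hz.2.2.2]
        exact mem_image_of_mem _ (mem_filter.2 ⟨mem_univ _, hz.2.1⟩)
      · obtain ⟨g1, g2⟩ := Prod.mk.inj g
        exact Prod.ext g2 (inj _ _ (ne _ hz.2.1) (ne _ hw.2.1)
          (Prod.ext g1 (by rw [← hz.2.2.2, ← hw.2.2.2, g1, g2])))
    have cu : (2:ℝ) ^ j * cnt (U j) ≤ 2 * D * k := by
      rw [mul_comm]
      exact (cnt_mul_le_sum c (fun y hy => hy.2.1) c0).trans cs
    refine StemAux.arith L1' P1 σ0 hk Y0 hY ν0 Sσ (by positivity) (hy0.2.1.trans (cD y0))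
      (by linarith) cu (by positivity) (hz0.2.1.1.trans (mS _)) (Nat.cast_nonneg _) gm ?_
      (inc V K H κ _ P ok (by positivity) P1 G (U j) _ rfl)
    calc ν * 2 ^ j * cnt (U j) = cnt (U j) * (ν * 2 ^ j) := by ring
      _ ≤ 2 * 2 ^ i * ed (fun a y => H a y ∧ (a, κ a y) ∈ G ∧ U j y) * L :=
        n2.trans (by gcongr)
      _ = _ := by ring
  calc ∑ y, (if y = x then 0 else c y ^ 2)
      ≤ ∑ y, ∑ j ∈ range L, (if U j y then (1:ℝ) else 0) * (4 * ((2:ℝ) ^ j) ^ 2) := by
        refine Finset.sum_le_sum fun y _ => ?_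
        have nn : ∀ j ∈ range L, 0 ≤ (if U j y then (1:ℝ) else 0) * (4 * ((2:ℝ) ^ j) ^ 2) :=
          fun j _ => by split_ifs <;> positivity
        split_ifs with e
        · exact Finset.sum_nonneg nn
        rcases c1 y with e1 | e1
        · exact le_trans (by rw [e1]; norm_num) (Finset.sum_nonneg nn)
        obtain ⟨j, hj, h1, h2⟩ := dyadic _ L e1 (cL y)
        refine le_trans ?_ (Finset.single_le_sum nn (mem_range.2 hj))
        rw [if_pos ⟨e, h1, h2⟩]
        nlinarith [c0 y]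
    _ = ∑ j ∈ range L, 4 * (((2:ℝ) ^ j) ^ 2 * cnt (U j)) := by
        rw [Finset.sum_comm]
        refine Finset.sum_congr rfl fun j _ => ?_
        have : cnt (U j) = ∑ y, if U j y then (1:ℝ) else 0 := by
          rw [cnt_eq_sum]; exact Finset.sum_congr rfl fun y _ => by congr
        rw [← Finset.sum_mul, this]; ring
    _ ≤ ∑ _j ∈ range L, 4 * B := Finset.sum_le_sum fun j _ => by linarith [cls j]
    _ = _ := by simp only [sum_const, card_range, nsmul_eq_mul]; ring

end Pool.Agent.Lib.MP_65c801_co.U
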