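import Pool.Agent.Lib.MP_65c801_co.U.St

/-! The staircase of rows and columns, with gaps below the rows and columns. -/

namespace Pool.Agent.Lib.MP_65c801_co.U

open Finset Classical T T.Tb

/-- few edges lie in a prescribed group of their window -/
lemma own {V : Type} [Fintype V] {E H : V → V → Prop} {T w : V → V → ℕ} {k : ℕ} {P : ℝ}
    (P0 : 0 ≤ P) (hE : ∀ a y, H a y → E a y) (hP : ∀ a y, H a y → gs E T k a y ≤ P)
    (ρ : V → ℕ → ℕ) (G : Finset (V × ℕ)) (hG : ∀ a y, H a y → (a, w a y) ∈ G) :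
    cnt (fun e : V × V => H e.1 e.2 ∧ T e.1 e.2 / k = ρ e.1 (w e.1 e.2)) ≤ G.card * P := by
  refine cnt_fib_le (fun e => (e.1, w e.1 e.2)) G (fun e he => hG _ _ he.1) ?_
  rintro ⟨a, u⟩ -
  refine le_trans (cnt_inj (fun e => e.2) ?_ ?_) (grp P0 hE hP a (fun y => T a y / k = ρ a u)
    fun _ _ e e' => e.trans e'.symm)
  · rintro ⟨b, y⟩ ⟨g, e⟩
    cases e
    exact g
  · rintro ⟨b, y⟩ ⟨b', y'⟩ ⟨-, e⟩ ⟨-, e'⟩ e2
    exact Prod.ext ((Prod.mk.inj e).1.trans (Prod.mk.inj e').1.symm) e2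

theorem tubeW : TubeWS := by
  intro V α _ _ h E t S' R L θ m d c s hm few
  obtain ⟨L0, θ0, L1, θ1⟩ := c.num
  have θ1' : (1:ℝ) ≤ θ := by exact_mod_cast θ1
  have Lr : (1:ℝ) ≤ L := by linarith
  have S0 : 0 < S' * R := Nat.mul_pos s.S0 s.R0
  obtain ⟨G, G1, G2⟩ : ∃ G : Finset (V × ℕ), G.card * ((L:ℝ) ^ 16 * θ) ≤ m ∧
      ∀ a y, E a y → (a, t a y / (S' * R)) ∈ G := by
    obtain ⟨G, G1, G2⟩ := s.g1
    refine ⟨G.image fun g => (g.1, g.2 / R), le_trans ?_ G1, fun a y g =>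
      mem_image.2 ⟨_, G2 a y g, by rw [Nat.div_div_eq_div_mul]⟩⟩
    exact mul_le_mul_of_nonneg_right (Nat.cast_le.2 card_image_le) (by positivity)
  have em := s.em
  generalize S' * R = S at *
  obtain ⟨P, hP⟩ : ∃ P, P = (L:ℝ) ^ 3 * θ := ⟨_, rfl⟩
  have P1 : 2 * ((L:ℝ) ^ 2 * θ) < P := by
    have : 0 < (L:ℝ) ^ 2 * θ := by positivity
    have : P = L * ((L:ℝ) ^ 2 * θ) := by rw [hP]; ring
    nlinarith
  have P2 : 1 < P := by nlinarith [one_le_mul_of_one_le_of_one_le (one_le_pow₀ (n := 2) Lr) θ1']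
  have P3 : (L:ℝ) ^ 2 * P ≤ L ^ 5 * θ := le_of_eq (by rw [hP]; ring)
  set T0 : V → V → ℕ := fun a y => ps h (fun w => w * S) L y (t a y / S) with hT0
  set T1 : V → V → ℕ := fun a y => ps h (fun w => w * S + (S - 1)) L y (t a y / S) with hT1
  obtain ⟨B0, b0, k0⟩ := lev E T0 L (sq_nonneg (L:ℝ)) fun a y _ =>
    (ps_one c.inj c.cb E _ a y).trans_lt P2
  obtain ⟨B1, b1, k1⟩ := lev E T1 L (sq_nonneg (L:ℝ)) fun a y _ =>
    (ps_one c.inj c.cb E _ a y).trans_lt P2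
  have small : cnt (fun e : V × V => E e.1 e.2 ∧ gs E t S e.1 e.2 < P) ≤ G.card * P := by
    refine cnt_fib_le (fun e => (e.1, t e.1 e.2 / S)) G (fun e he => G2 _ _ he.1) ?_
    rintro ⟨a, w⟩ -
    refine le_trans (cnt_inj (fun e => e.2) ?_ ?_) (grp (E := E) (T := t) (k := S)
      (H := fun a y => E a y ∧ gs E t S a y < P) (by linarith) (fun _ _ g => g.1)
      (fun _ _ g => g.2.le) a (fun y => t a y / S = w) fun _ _ e e' => e.trans e'.symm)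
    · rintro ⟨b, y⟩ ⟨g, e⟩
      cases e
      exact ⟨g, rfl⟩
    · rintro ⟨b, y⟩ ⟨b', y'⟩ ⟨-, e⟩ ⟨-, e'⟩ e2
      exact Prod.ext ((Prod.mk.inj e).1.trans (Prod.mk.inj e').1.symm) e2
  set F : V × V → Prop := fun e => E e.1 e.2 ∧ P ≤ gs E t S e.1 e.2 ∧ ¬ B0 e ∧ ¬ B1 e with hF
  have split : ed E ≤ cnt F + (G.card * P + cnt B0 + cnt B1) := by
    refine (cnt_le_add (q := F) (r := fun e => (E e.1 e.2 ∧ gs E t S e.1 e.2 < P) ∨ B0 e ∨ B1 e)
      fun e he => ?_).trans ?_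
    · by_cases c : P ≤ gs E t S e.1 e.2
      · simp only [hF]
        tauto
      · exact Or.inr (Or.inl ⟨he, not_le.1 c⟩)
    · linarith [cnt_le_add3 (p := fun e : V × V =>
        (E e.1 e.2 ∧ gs E t S e.1 e.2 < P) ∨ B0 e ∨ B1 e) fun _ he => he]
  have top : ∀ (σ : ℕ → ℕ) a y, gs E (fun a y => ps h σ L y (t a y / S)) (2 ^ L) a y =
      gs E t S a y := fun σ a y => by simp only [gs, ps_div c.cb]
  obtain ⟨l0, l0L, p0⟩ := pigeon F L L1 (fun l e => P ≤ gs E T0 (2 ^ (l + 1)) e.1 e.2 ∧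
    gs E T0 (2 ^ (l + 1)) e.1 e.2 ≤ L ^ 2 * P) fun e he =>
      k0 e he.1 he.2.2.1 (he.2.1.trans_eq (top _ _ _).symm)
  obtain ⟨l1, l1L, p1⟩ := pigeon (fun e => F e ∧ P ≤ gs E T0 (2 ^ (l0 + 1)) e.1 e.2 ∧
    gs E T0 (2 ^ (l0 + 1)) e.1 e.2 ≤ L ^ 2 * P) L L1
    (fun l e => P ≤ gs E T1 (2 ^ (l + 1)) e.1 e.2 ∧
    gs E T1 (2 ^ (l + 1)) e.1 e.2 ≤ L ^ 2 * P) fun e he =>
      k1 e he.1.1 he.1.2.2.2 (he.1.2.1.trans_eq (top _ _ _).symm)
  set F2 : V × V → Prop := fun e => (F e ∧ P ≤ gs E T0 (2 ^ (l0 + 1)) e.1 e.2 ∧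
    gs E T0 (2 ^ (l0 + 1)) e.1 e.2 ≤ L ^ 2 * P) ∧ P ≤ gs E T1 (2 ^ (l1 + 1)) e.1 e.2 ∧
    gs E T1 (2 ^ (l1 + 1)) e.1 e.2 ≤ L ^ 2 * P with hF2
  set O : V → Finset ℕ := fun a =>
    (univ.filter fun y => F2 (a, y)).image fun y => T0 a y / 2 ^ (l0 + 1) with hO
  obtain ⟨par, -, p2⟩ := pigeon F2 2 two_pos (fun i e =>
    #((O e.1).filter (· < T0 e.1 e.2 / 2 ^ (l0 + 1))) % 2 = i) fun e _ =>
      ⟨_, Nat.mod_lt _ two_pos, rfl⟩
  obtain ⟨H', hH', ok, p3⟩ := gap c.na c.inj (c.fam.mono (G' := fun a y => F2 (a, y) ∧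
    #((O a).filter (· < T0 a y / 2 ^ (l0 + 1))) % 2 = par) fun a y g => g.1.1.1.1) S0 L1 le_rfl
    (card_lt c.cb).1 G fun a y g => G2 a y g.1.1.1.1
  have P4 : 0 ≤ (L:ℝ) ^ 2 * P := by positivity
  have hE' : ∀ a y, H' a y → E a y := fun a y g => (hH' a y g).1.1.1.1
  have o0 := own (w := fun a y => t a y / S) P4 hE' (fun a y g => (hH' a y g).1.1.2.2)
    (fun a w => ps h (fun w => w * S) L a w / 2 ^ (l0 + 1)) G fun a y g => G2 a y (hE' a y g)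
  have o1 := own (w := fun a y => t a y / S) P4 hE' (fun a y g => (hH' a y g).1.2.2)
    (fun a w => ps h (fun w => w * S + (S - 1)) L a w / 2 ^ (l1 + 1)) G
    fun a y g => G2 a y (hE' a y g)
  obtain ⟨H, hHd⟩ : ∃ H : V → V → Prop, ∀ a y, H a y ↔ H' a y ∧
      T0 a y / 2 ^ (l0 + 1) ≠ ps h (fun w => w * S) L a (t a y / S) / 2 ^ (l0 + 1) ∧
      T1 a y / 2 ^ (l1 + 1) ≠ ps h (fun w => w * S + (S - 1)) L a (t a y / S) / 2 ^ (l1 + 1) :=
    ⟨_, fun _ _ => Iff.rfl⟩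
  have o2 : ed H' ≤ ed H + G.card * (L ^ 2 * P) + G.card * (L ^ 2 * P) := by
    refine (cnt_le_add3 fun e he => ?_).trans (add_le_add (add_le_add le_rfl o0) o1)
    rw [hHd]
    tauto
  have hH := fun a y (g : H a y) => hH' a y ((hHd a y).1 g).1
  have hE : ∀ a y, H a y → E a y := fun a y g => (hH a y g).1.1.1.1
  have st : ∀ a y z, H a y → H a z → t a y / S = t a z / S →
      T0 a y / 2 ^ (l0 + 1) < T0 a z / 2 ^ (l0 + 1) →
      T1 a z / 2 ^ (l1 + 1) ≤ T1 a y / 2 ^ (l1 + 1) := by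
    intro a y z gy gz e lt
    refine not_lt.1 fun lt' => ?_
    obtain ⟨v, hv, v1, v2⟩ := between (O := O a) (mem_image_of_mem _
      (mem_filter.2 ⟨mem_univ y, (hH a y gy).1⟩)) lt ((hH a y gy).2.trans (hH a z gz).2.symm)
    obtain ⟨x, hx, rfl⟩ := mem_image.1 hv
    have h1 := (mem_filter.1 hx).2.1.2.1
    have h2 := few a y (hE a y gy)
    have h3 := few a z (hE a z gz)
    simp only [hT1, ← e] at lt'
    have h4 := ps_lt lt'
    refine absurd (h1.trans ((cnt_le_add fun u hu => ?_).trans (add_le_add h2 h3)))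
      (not_le.2 (by linarith))
    rw [← hu.2] at v1 v2
    have e1 : t a u / S = t a y / S :=
      le_antisymm (e ▸ ps_win c.cb l0L v2.le) (ps_win c.cb l0L v1.le)
    simp only [hT0, ← e, e1] at v1 v2
    have u1 := ps_lt v1
    have u2 := ps_lt v2
    by_cases k : h y (t a y / S * S + (S - 1)) < h u (t a y / S * S + (S - 1))
    · exact Or.inl ⟨hu.1, e1, Or.inl ⟨u1, k⟩⟩
    · exact Or.inr ⟨hu.1, e1.trans e, Or.inr (e ▸ ⟨u2, (not_lt.1 k).trans_lt h4⟩)⟩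
  refine ⟨H, fun y w => ps h (fun w => w * S) L y w / 2 ^ (l0 + 1),
    fun y w => ps h (fun w => w * S + (S - 1)) L y w / 2 ^ (l1 + 1), hE,
    ⟨fun w y z e => ps_lt (σ := fun w => w * S) e,
      fun w y z e => ps_lt (σ := fun w => w * S + (S - 1)) e, ?_, fun a w r => ?_, fun a w r => ?_⟩,
    ?_, ?_, ?_, _, ?_, fun a y g => mem_image_of_mem (fun e : V × V => (e.1, t e.1 e.2 / S,
      T0 e.1 e.2 / 2 ^ (l0 + 1), T1 e.1 e.2 / 2 ^ (l1 + 1)))
      ((mem_filter (p := fun e : V × V => H e.1 e.2)).2 ⟨mem_univ (a, y), g⟩)⟩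
  · rintro a y z w gy gz rfl e lt
    have := st a y z gy gz e.symm (by simpa only [hT0, e] using lt)
    simpa only [hT1, e] using this
  · refine (grp P4 hE (fun a y g => (hH a y g).1.1.2.2) a _ ?_).trans P3
    rintro y z ⟨rfl, e1⟩ ⟨e2, e3⟩
    simp only [hT0, e2]
    exact e1.trans e3.symm
  · refine (grp P4 hE (fun a y g => (hH a y g).1.2.2) a _ ?_).trans P3
    rintro y z ⟨rfl, e1⟩ ⟨e2, e3⟩
    simp only [hT1, e2]
    exact e1.trans e3.symm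
  · intro a y b g e
    obtain ⟨g1, g2, -⟩ := (hHd a y).1 g
    have k := (ok a y a y g1 g1 g1 rfl rfl).1
    refine ps_lt (σ := fun w => w * S) (L := L) (k := 2 ^ (l0 + 1)) (e ▸ lt_of_le_of_ne
      (not_lt.1 fun c => lt_asymm k (ps_lt (σ := fun w => w * S) c)) g2.symm)
  · intro a y b g e
    obtain ⟨g1, -, g2⟩ := (hHd a y).1 g
    have k := (ok a y a y g1 g1 g1 rfl rfl).2
    refine ps_lt (σ := fun w => w * S + (S - 1)) (L := L) (k := 2 ^ (l1 + 1)) (e ▸ lt_of_le_of_ne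
      (not_lt.1 fun c => lt_asymm k (ps_lt (σ := fun w => w * S + (S - 1)) c)) g2.symm)
  · have e0 : 0 ≤ ed E := cnt_nonneg _
    have g0 : (0:ℝ) ≤ G.card := Nat.cast_nonneg _
    have f0 := cnt_nonneg F2
    have h0 : 0 ≤ ed H := cnt_nonneg _
    have L2 : (0:ℝ) < L := by linarith
    have a1 : G.card * P * L ≤ 8 * ed E := by
      refine le_of_mul_le_mul_right ?_ (pow_pos L2 2)
      calc _ = G.card * ((L:ℝ) ^ 6 * θ) := by rw [hP]; ring
        _ ≤ G.card * ((L:ℝ) ^ 16 * θ) := by gcongr; norm_num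
        _ ≤ _ := by linarith
    have a2 : cnt B0 * L ≤ 2 * ed E := le_of_mul_le_mul_right (by linarith) L2
    have a3 : cnt B1 * L ≤ 2 * ed E := le_of_mul_le_mul_right (by linarith) L2
    have a4 : ed E ≤ 2 * cnt F := le_of_mul_le_mul_right (by nlinarith) L2
    have a5 : cnt F ≤ L * (L * cnt F2) := p0.trans (by gcongr)
    obtain ⟨Q, hQ⟩ : ∃ Q, Q = G.card * ((L:ℝ) ^ 2 * P) := ⟨_, rfl⟩
    have Q0 : (G.card:ℝ) ≤ Q := by
      rw [hQ]
      exact le_mul_of_one_le_right g0 (one_le_mul_of_one_le_of_one_le (one_le_pow₀ Lr) P2.le)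
    rw [← hQ] at o2
    have a6 : cnt F2 ≤ 2 * (L * (L * (ed H + Q + Q)) + Q * 4) := by
      push_cast at p2
      exact p2.trans (mul_le_mul_of_nonneg_left (p3.trans (by gcongr)) zero_le_two)
    have a7 : (L:ℝ) ^ 11 * Q ≤ m := (le_of_eq (by rw [hQ, hP]; ring)).trans G1
    have a8 : m ≤ 8 * L ^ 2 * (2 * (L * (L * (2 * (L * (L * (ed H + Q + Q)) + Q * 4))))) :=
      hm.trans (by gcongr; exact a4.trans (by gcongr; exact a5.trans (by gcongr)))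
    have Q1 : 0 ≤ Q := g0.trans Q0
    have b1 : 256 * (L:ℝ) ^ 6 * Q ≤ L ^ 11 * Q :=
      mul_le_mul_of_nonneg_right (cpw (by linarith) (by linarith) (by norm_num)) Q1
    have b2 : 512 * (L:ℝ) ^ 4 * Q ≤ L ^ 11 * Q :=
      mul_le_mul_of_nonneg_right (cpw (by linarith) (by linarith) (by norm_num)) Q1
    have b3 : 64 * (L:ℝ) ^ 6 * ed H ≤ L ^ 8 * ed H :=
      mul_le_mul_of_nonneg_right (cpw (by linarith) (by linarith) (by norm_num)) h0
    linarith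
  · have h1 := cells (H := H) (w := fun a y => t a y / S) (r := fun a y => T0 a y / 2 ^ (l0 + 1))
      (c := fun a y => T1 a y / 2 ^ (l1 + 1))
      (fun a y z e => le_antisymm (ps_win c.cb l0L e.le) (ps_win c.cb l0L e.ge))
      (fun a y z e => le_antisymm (ps_win c.cb l1L e.le) (ps_win c.cb l1L e.ge)) st
    have h2 := occ (E := E) fun a y g => (hH a y g).1.1.2.1
    have h3 := occ (E := E) fun a y g => (hH a y g).1.2.1
    rw [← hP]
    refine (mul_le_mul_of_nonneg_right (Nat.cast_le.2 h1) (by linarith)).trans ?_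
    rw [Nat.cast_add, add_mul]
    linarith

end Pool.Agent.Lib.MP_65c801_co.U
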