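import Pool.Agent.Lib.MP_65c801_co.U.Peel
import Pool.Agent.Lib.MP_65c801_co.U.Prune
import Pool.Agent.Lib.MP_65c801_co.U.Scale
import Pool.Agent.Lib.MP_65c801_co.U.Box
import Pool.Agent.Lib.MP_65c801_co.U.Tube
import Pool.Agent.Lib.MP_65c801_co.U.MassA
import Pool.Agent.Lib.MP_65c801_co.U.MassB
import Pool.Agent.Lib.MP_65c801_co.U.Stem
import Pool.Agent.Lib.MP_65c801_co.U.Core
import Pool.Agent.Lib.MP_65c801_co.U.CaseA
import Pool.Agent.Lib.MP_65c801_co.U.CaseB
import Pool.Agent.Lib.MP_65c801_co.U.Fam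
import Pool.Agent.Lib.MP_65c801_co.U.Fin

/-! All steps together. -/

namespace Pool.Agent.Lib.MP_65c801_co.U

open T

theorem famAllW : FamWS :=
  have hC := coreW id2 sign side (stemW inc)
  famW (noW scaleW boxW (caseBW prune rectS (massB (two peel)) (i1 split) hC) tubeW
    (caseAW prune rectS (massA peel) (i1 split) (i2 split) hC))

end Pool.Agent.Lib.MP_65c801_co.U
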