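import Pool.Agent.Lib.MP_65c801_co.U.St

/-! Tools for graphs of pairs that are joined by many walks. -/

namespace Pool.Agent.Lib.MP_65c801_co.U

open Finset Classical T

namespace Der

lemma sum_inj {X Y : Type} [Fintype X] [Fintype Y] {p : X → Prop} {q : Y → Prop}
    [DecidablePred p] [DecidablePred q] (f : X → Y) (g : Y → ℝ) (g0 : ∀ y, 0 ≤ g y) (hf : ∀ x, p x → q (f x))
    (hi : ∀ x x', p x → p x' → f x = f x' → x = x') :
    ∑ x, (if p x then g (f x) else 0) ≤ ∑ y, if q y then g y else 0 := by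
  rw [← sum_filter, ← sum_filter, ← sum_image (s := univ.filter p) (g := f)
    fun x hx x' hx' => hi x x' (mem_filter.1 hx).2 (mem_filter.1 hx').2]
  refine sum_le_sum_of_subset_of_nonneg (fun y hy => ?_) fun y _ _ => g0 y
  obtain ⟨x, hx, rfl⟩ := mem_image.1 hy
  exact mem_filter.2 ⟨mem_univ _, hf x (mem_filter.1 hx).2⟩

lemma sum_surj {X Y : Type} [Fintype X] [Fintype Y] {p : X → Prop} {q : Y → Prop}
    [DecidablePred p] [DecidablePred q] (f : Y → X) (g : X → ℝ) (g0 : ∀ x, 0 ≤ g x) (hf : ∀ x, p x → ∃ y, q y ∧ f y = x) :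
    ∑ x, (if p x then g x else 0) ≤ ∑ y, if q y then g (f y) else 0 := by
  rw [← sum_filter, ← sum_filter]
  refine le_trans (sum_le_sum_of_subset_of_nonneg (t := (univ.filter q).image f)
    (fun x hx => ?_) fun x _ _ => g0 x) (sum_image_le_of_nonneg fun y _ => g0 _)
  obtain ⟨y, hy, rfl⟩ := hf x (mem_filter.1 hx).2
  exact mem_image_of_mem _ (mem_filter.2 ⟨mem_univ _, hy⟩)

lemma cnt_le_sum {X : Type} [Fintype X] {p : X → Prop} [DecidablePred p] (g : X → ℝ) {c : ℝ}
    (hg : ∀ x, p x → c ≤ g x) : cnt p * c ≤ ∑ x, if p x then g x else 0 := by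
  rw [cnt_eq_sum, sum_mul]
  refine sum_le_sum fun x _ => ?_
  split_ifs with e
  · simpa using hg x e
  · simp

lemma sum_le_cnt {X : Type} [Fintype X] {p : X → Prop} [DecidablePred p] (g : X → ℝ) {c : ℝ}
    (hg : ∀ x, p x → g x ≤ c) : ∑ x, (if p x then g x else 0) ≤ cnt p * c :=
  sum_le_cnt_mul _ (fun x e => by rw [if_pos e]; exact hg x e) fun x e => by rw [if_neg e]

lemma swap {X Y : Type} [Fintype X] [Fintype Y] (p : X → Prop) (q : Y → Prop)
    [DecidablePred p] [DecidablePred q] (g : X → Y → ℝ) :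
    ∑ x, (if p x then ∑ y, (if q y then g x y else 0) else 0) =
      ∑ y, if q y then ∑ x, (if p x then g x y else 0) else 0 := by
  have e1 : ∀ x, (if p x then ∑ y, (if q y then g x y else 0) else 0) =
      ∑ y, if p x ∧ q y then g x y else 0 := fun x => by by_cases c : p x <;> simp [c]
  have e2 : ∀ y, (if q y then ∑ x, (if p x then g x y else 0) else 0) =
      ∑ x, if p x ∧ q y then g x y else 0 := fun y => by by_cases c : q y <;> simp [c]
  simp only [e1, e2]
  exact sum_comm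

variable {Ω V : Type} [Fintype Ω] [Fintype V] {A : Ω → Ω → Prop} {P ν : ℝ} {n : ℕ}

/-- the number of ends is bounded through the first edges of the walks -/
lemma deg_le (P0 : 0 ≤ P) (hP : ∀ x, cnt (fun v => A x v) ≤ P) {q r : V → Prop} (s e fn : V → Ω)
    {B : ℝ} (hB : cnt r ≤ B) (hν : ∀ x, q x → ν ≤ wk A (n + 1) (s x) (e x))
    (hi : ∀ x x', q x → q x' → e x = e x' → x = x')
    (hr : ∀ x o, q x → A (s x) o → ∃ y, r y ∧ fn y = o) : cnt q * ν ≤ B * P ^ n := by
  refine (cnt_le_sum (fun x => ∑ y, if r y then wk A n (fn y) (e x) else 0) fun x g =>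
    (hν x g).trans ?_).trans ?_
  · rw [wk_succ']
    exact sum_surj fn (fun o => wk A n o (e x)) (fun o => wk_nonneg _ _ _) fun o => hr x o g
  · rw [swap]
    refine (sum_le_cnt _ fun y _ => ?_).trans (mul_le_mul_of_nonneg_right hB (by positivity))
    refine (sum_inj (q := fun _ => True) e (fun o => wk A n (fn y) o) (fun o => wk_nonneg _ _ _)
      (fun _ _ => trivial) hi).trans ?_
    simpa using wk_row P0 hP n (fn y)

/-- all walks from a set of vertices, by the size of the set -/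
lemma tot1 (P0 : 0 ≤ P) (hP : ∀ x, cnt (fun v => A x v) ≤ P) (St : Ω → Prop) :
    ∑ u, (if St u then ∑ o, wk A n u o else 0) ≤ cnt St * P ^ n :=
  sum_le_cnt _ fun u _ => wk_row P0 hP n u

/-- all walks from a set of vertices, by the number of first edges -/
lemma tot2 (P0 : 0 ≤ P) (hP : ∀ x, cnt (fun v => A x v) ≤ P) (St : Ω → Prop) :
    ∑ u, (if St u then ∑ o, wk A (n + 1) u o else 0) ≤
      cnt (fun z : Ω × Ω => St z.1 ∧ A z.1 z.2) * P ^ n := by
  rw [cnt_prod, sum_mul]
  refine sum_le_sum fun u _ => ?_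
  split_ifs with e
  · simp only [wk_succ']
    rw [sum_comm]
    refine le_trans (sum_le_sum fun x _ => ?_) (sum_le_cnt (p := fun x => St u ∧ A u x)
      (fun x => ∑ o, wk A n x o) fun x _ => wk_row P0 hP n x)
    by_cases c : A u x <;> simp [c, e]
  · have := cnt_nonneg fun y => St u ∧ A u y
    positivity

/-- weights of groups from walks -/
lemma stem_of {K : Type} {A : Om V → Om V → Prop} (sy : ∀ u v, A u v → A v u) (P0 : 0 ≤ P)
    (hP : ∀ x, cnt (fun v => A x v) ≤ P) {c : V → ℝ} {x : V} {L : ℕ} {D σ S : ℝ}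
    (H : V → V → Prop) (κ : V → V → K) (gr : Om V → V × K) (Tg St : Om V → Prop)
    (ok : IncOK H κ (216 * (L:ℝ) ^ 2) P) (ν0 : 0 < ν) (S1 : P ^ n ≤ S) (S2 : S ≤ σ * ν)
    (S3 : S < 2 ^ L) (tot : ∑ u, (if St u then ∑ o, wk A n u o else 0) ≤ D * S)
    (hi : ∀ o o', Tg o → Tg o' → gr o = gr o' → o = o')
    (dom : ∀ y, y ≠ x → ∃ (q : V → Prop) (s e : V → Om V), c y ≤ cnt q ∧
      (∀ a a', q a → q a' → s a = s a' → a = a') ∧ ∀ a, q a → St (s a) ∧
        ν ≤ wk A (n + 1) (s a) (e a) ∧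
        ∀ o, A o (e a) → Tg o ∧ H (gr o).1 y ∧ κ (gr o).1 y = (gr o).2) :
    StemW c x L D σ P := by
  set w : Om V → ℝ := fun o => ∑ u, if St u then wk A n u o else 0 with hw
  have t0 : ∀ u o, 0 ≤ if St u then wk A n u o else 0 := fun u o => by
    split_ifs; exacts [wk_nonneg _ _ _, le_rfl]
  have w0 : ∀ o, 0 ≤ w o := fun o => sum_nonneg fun u _ => t0 u o
  have S0 : 0 ≤ S := le_trans (by positivity) S1
  refine ⟨K, H, κ, gr, fun o => if Tg o then w o else 0, ν, S, ok, ν0, S0, S2, S3, fun o => ?_,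
    fun o => ?_, ?_, fun o o' g g' => hi o o' (by by_contra k; exact g (if_neg k))
      (by by_contra k; exact g' (if_neg k)), fun y hy => ?_⟩
  · by_cases k : Tg o
    · simp only [if_pos k]
      by_cases z : w o = 0
      · exact Or.inl z
      · obtain ⟨u, -, hu⟩ := exists_ne_zero_of_sum_ne_zero z
        refine Or.inr (le_trans ?_ (single_le_sum (fun u _ => t0 u o) (mem_univ u)))
        by_cases c : St u
        · rw [if_pos c] at hu ⊢; exact (wk_zero_or n u o).resolve_left hu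
        · exact absurd (if_neg c) hu
    · exact Or.inl (if_neg k)
  · by_cases k : Tg o
    · simp only [if_pos k]
      refine le_trans (sum_le_sum fun u _ => ?_) ((wk_row P0 hP n o).trans S1)
      rw [wk_symm sy n o u]
      split_ifs; exacts [le_rfl, wk_nonneg _ _ _]
    · simp only [if_neg k]; exact S0
  · refine le_trans ?_ tot
    refine (sum_le_sum (g := w) fun o _ => ?_).trans ?_
    · split_ifs; exacts [le_rfl, w0 o]
    · rw [hw, sum_comm]
      exact sum_le_sum fun u _ => by by_cases c : St u <;> simp [c]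
  · obtain ⟨q, s, e, h1, h2, h3⟩ := dom y hy
    rw [mul_comm]
    refine (mul_le_mul_of_nonneg_right h1 ν0.le).trans ((cnt_le_sum (fun a => ∑ o,
      if Tg o ∧ H (gr o).1 y ∧ κ (gr o).1 y = (gr o).2 then wk A n (s a) o else 0)
      fun a g => (h3 a g).2.1.trans ?_).trans ?_)
    · rw [wk_succ]
      refine sum_le_sum fun o _ => ?_
      by_cases k : A o (e a)
      · rw [if_pos k, if_pos ((h3 a g).2.2 o k)]
      · rw [if_neg k]; split_ifs; exacts [wk_nonneg _ _ _, le_rfl]
    · rw [swap]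
      refine sum_le_sum fun o _ => ?_
      by_cases k : Tg o ∧ H (gr o).1 y ∧ κ (gr o).1 y = (gr o).2
      · rw [if_pos k, if_pos k.2]
        simp only [if_pos k.1]
        exact sum_inj s (fun u => wk A n u o) (fun u => wk_nonneg _ _ _) (fun a g => (h3 a g).1) h2
      · rw [if_neg k]
        beta_reduce
        split_ifs; exacts [w0 o, le_rfl, le_rfl]

variable {K K' : Type} {F : V → V → Prop}

/-- the curve and the key of a lower group -/
def grL (κ : V → V → K) (o : Om V) : V × K :=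
  Sum.elim (fun p => (p.1, κ p.1 p.2)) (fun p => (p.1, κ p.1 p.2)) o

/-- the curve and the key of an upper group -/
def grU (κ' : V → V → K') (o : Om V) : V × K' :=
  Sum.elim (fun p => (p.1, κ' p.2 p.1)) (fun p => (p.1, κ' p.2 p.1)) o

lemma grL_lo (κ : V → V → K) {a y : V} (g : F a y) : grL κ (lo F κ a y) = (a, κ a y) := by
  have e1 : ∃ x, F a x ∧ κ a x = κ a y := ⟨y, g, rfl⟩
  simp only [grL, lo, dif_pos e1, Sum.elim_inl, e1.choose_spec.2]

lemma grU_up (κ' : V → V → K') {a y : V} (g : F a y) : grU κ' (up F κ' a y) = (y, κ' a y) := by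
  have e1 : ∃ x, F x y ∧ κ' x y = κ' a y := ⟨a, g, rfl⟩
  simp only [grU, up, dif_pos e1, Sum.elim_inr, e1.choose_spec.2]

lemma grL_inj (κ : V → V → K) (o o' : Om V) (g : ∃ a y, F a y ∧ o = lo F κ a y)
    (g' : ∃ a y, F a y ∧ o' = lo F κ a y) (e : grL κ o = grL κ o') : o = o' := by
  obtain ⟨a, y, g, rfl⟩ := g
  obtain ⟨b, z, g', rfl⟩ := g'
  rw [grL_lo κ g, grL_lo κ g'] at e
  exact (lo_eq g g').2 (Prod.mk.inj e)

lemma grU_inj (κ' : V → V → K') (o o' : Om V) (g : ∃ a y, F a y ∧ o = up F κ' a y)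
    (g' : ∃ a y, F a y ∧ o' = up F κ' a y) (e : grU κ' o = grU κ' o') : o = o' := by
  obtain ⟨a, y, g, rfl⟩ := g
  obtain ⟨b, z, g', rfl⟩ := g'
  rw [grU_up κ' g, grU_up κ' g'] at e
  exact (up_eq g g').2 (Prod.mk.inj e)

lemma Kq_pos {Kq : ℕ → ℝ} (h0 : Kq 0 = 1) (h1 : ∀ i, Kq i ≤ Kq (i + 1)) (i : ℕ) : 0 < Kq i := by
  induction i with
  | zero => rw [h0]; exact one_pos
  | succ i ih => exact ih.trans_le (h1 i)

end Der

end Pool.Agent.Lib.MP_65c801_co.U
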