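import Pool.Agent.Lib.MP_65c801_co.U.St

/-! The induction on the number of curves for exponents above `sqrt 2`. -/

namespace Pool.Agent.Lib.MP_65c801_co.U

open Finset Classical T

namespace FamB

variable {V α : Type} [Fintype V] [LinearOrder α] {h : V → ℕ → α} {H : V → V → Prop}
  {t : V → V → ℕ} {L T : ℕ} {X : ℝ}

/-- the unbalanced form of a bound for families -/
lemma rect (ih : ∀ (V α : Type) [Fintype V] [LinearOrder α] (h : V → ℕ → α) (E : V → V → Prop)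
      (t : V → V → ℕ), NoAlt h → Inj h → Fam h E t → (∀ a y, E a y → t a y < 2 ^ L) →
      Fintype.card V ≤ 2 * T → ed E ≤ X)
    (hn : NoAlt h) (hi : Inj h) (f : Fam h H t) (tb : ∀ a y, H a y → t a y < 2 ^ L) (T0 : 0 < T)
    (X0 : 0 ≤ X) (A B : V → Prop) (hAB : ∀ a y, H a y → A a ∧ B y) :
    ed H ≤ (cnt A / T + 1) * (cnt B / T + 1) * X := by
  have T1 : (0:ℝ) < T := by exact_mod_cast T0
  obtain ⟨c, c1, -, c3⟩ := chunks A T0
  obtain ⟨d, d1, -, d3⟩ := chunks B T0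
  have fl : ∀ p : V → Prop, ((⌊cnt p / T⌋₊ + 1 : ℕ) : ℝ) ≤ cnt p / T + 1 := fun p => by
    push_cast
    linarith [Nat.floor_le (div_nonneg (cnt_nonneg p) T1.le)]
  have mem : ∀ (p : V → Prop) (n : ℕ), (n:ℝ) * T < cnt p → n ∈ range (⌊cnt p / T⌋₊ + 1) :=
    fun p n g => mem_range.2 (Nat.lt_succ_of_le (Nat.le_floor ((le_div_iff₀ T1).2 g.le)))
  refine (cnt_fib_le (fun e : V × V => (c e.1, d e.2))
    (range (⌊cnt A / T⌋₊ + 1) ×ˢ range (⌊cnt B / T⌋₊ + 1)) (K := X)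
    (fun e g => mem_product.2 ⟨mem A _ (c3 _ (hAB _ _ g).1), mem B _ (d3 _ (hAB _ _ g).2)⟩)
    fun k _ => ?_).trans ?_
  · refine le_trans (CaseB.surj (fun e => (e.1.1, e.2.1)) fun e g => ?_)
      (ih {v // (A v ∧ c v = k.1) ∨ (B v ∧ d v = k.2)} α (fun v => h v.1)
        (fun a y => H a.1 y.1) (fun a y => t a.1 y.1) (fun u v => hn u.1 v.1)
        (fun τ u v e => Subtype.ext (hi τ _ _ e)) ⟨fun a y => f.p1 _ _,
          fun a x y g g' e => f.p2 _ _ _ g g' fun e' => e (Subtype.ext e'),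
          fun a b x g g' e => f.p3 _ _ _ g g' fun e' => e (Subtype.ext e')⟩ (fun a y => tb _ _) ?_)
    · exact ⟨(⟨e.1, Or.inl ⟨(hAB _ _ g.1).1, congrArg Prod.fst g.2⟩⟩,
        ⟨e.2, Or.inr ⟨(hAB _ _ g.1).2, congrArg Prod.snd g.2⟩⟩), g.1, rfl⟩
    · have h3 : cnt (fun v => (A v ∧ c v = k.1) ∨ (B v ∧ d v = k.2)) ≤ 2 * T := by
        linarith [cnt_or (fun v => A v ∧ c v = k.1) (fun v => B v ∧ d v = k.2), c1 k.1, d1 k.2]
      rw [Fintype.card_subtype, ← Nat.cast_le (α := ℝ), Nat.cast_mul]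
      refine le_trans (le_of_eq ?_) h3
      unfold cnt
      congr
  · rw [card_product, card_range, card_range, Nat.cast_mul]
    exact mul_le_mul_of_nonneg_right (mul_le_mul (fl A) (fl B) (by positivity)
      (by have := cnt_nonneg A; positivity)) X0

/-- the exponents of the sizes -/
lemma expo {δ : ℝ} (h1 : Real.sqrt 2 < 1 + δ) (h2 : δ ≤ 21 / 50) : 2 / 5 ≤ δ ∧ ∃ (j : ℕ)
    (u : ℕ → ℝ), 1 ≤ j ∧ u 0 = 0 ∧ (∀ i, u i ≤ u (i + 1)) ∧ (∀ i, 0 ≤ u i) ∧ (∀ i, u i ≤ 1 / 2) ∧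
      (∀ i, u (i + 1) = (3 * δ - 1) / 2 + (1 - δ) * u i) ∧ (1 - δ) / 2 ≤ u (2 * j + 1) := by
  have s0 := Real.sqrt_nonneg 2
  have s1 := Real.sq_sqrt (show (0:ℝ) ≤ 2 by norm_num)
  have h3 : 2 < (1 + δ) ^ 2 := by nlinarith
  have h4 : 2 / 5 ≤ δ := by nlinarith
  have d0 : 0 < δ := by linarith
  set g := (3 * δ - 1) / 2 / δ with hg
  have e : g * δ = (3 * δ - 1) / 2 := by rw [hg]; field_simp
  have g1 : (1 - δ) / 2 < g := by rw [hg, lt_div_iff₀ d0]; nlinarith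
  have g2 : g ≤ 1 / 2 := by rw [hg, div_le_iff₀ d0]; linarith
  have g0 : 0 ≤ g := by linarith
  have q0 : 0 ≤ 1 - δ := by linarith
  have q1 : 1 - δ ≤ 1 := by linarith
  obtain ⟨j, hj⟩ := exists_pow_lt_of_lt_one (sub_pos.2 g1) (show 1 - δ < 1 by linarith)
  have a0 : ∀ i, 0 ≤ (1 - δ) ^ i := fun i => pow_nonneg q0 i
  have a1 : ∀ i, (1 - δ) ^ i ≤ 1 := fun i => pow_le_one₀ q0 q1
  refine ⟨h4, j + 1, fun i => g * (1 - (1 - δ) ^ i), by omega, by simp, fun i => ?_,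
    fun i => ?_, fun i => ?_, fun i => ?_, ?_⟩
  · have := pow_le_pow_of_le_one q0 q1 (show i ≤ i + 1 by omega)
    exact mul_le_mul_of_nonneg_left (by linarith) g0
  · exact mul_nonneg g0 (by linarith [a1 i])
  · nlinarith [a0 i]
  · simp only [pow_succ]
    linear_combination e
  · have := pow_le_pow_of_le_one q0 q1 (show j ≤ 2 * (j + 1) + 1 by omega)
    nlinarith [a0 (2 * (j + 1) + 1)]

/-- the numerical conditions -/
lemma num {Y n P0 D0 M W P d : ℝ} {a b c : ℕ} (Y1 : 1 ≤ Y) (n0 : 0 < n) (p0 : 0 < P0)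
    (d0 : 0 < D0) (M0 : 0 < M) (P1 : 0 ≤ P) (hc : 2 * b + 5 * a ≤ c)
    (hW : Y ^ (2 * b + 5 * a) ≤ W) (hP : P ≤ Y ^ (c + a) * P0) (hd : Y ^ c * D0 ≤ d)
    (e1 : n * P0 = D0 ^ 2 * M) (e2 : n * P0 ^ 2 * W ≤ D0 ^ 2 * M ^ 2)
    (e3 : n ^ 2 * P0 ^ 5 * W ≤ D0 ^ 5 * M ^ 2) (e4 : n ^ 2 * P0 ^ 3 = D0 ^ 5 * M)
    (e5 : P0 * W ≤ D0) : P ≤ d ∧ Num (Y ^ b * n) P d M := by
  have Y0 : 0 < Y := by linarith
  have le : ∀ {i k : ℕ}, i ≤ k → Y ^ i ≤ Y ^ k := fun g => pow_le_pow_right₀ Y1 g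
  refine ⟨?_, ?_, ?_, ?_, ?_⟩
  · calc P ≤ Y ^ (c + a) * P0 := hP
      _ = Y ^ c * (P0 * Y ^ a) := by ring
      _ ≤ Y ^ c * (P0 * W) := by gcongr; exact (le (by omega)).trans hW
      _ ≤ Y ^ c * D0 := by gcongr
      _ ≤ d := hd
  · calc Y ^ b * n * P ≤ Y ^ b * n * (Y ^ (c + a) * P0) := by gcongr
      _ = Y ^ (b + (c + a)) * (n * P0) := by ring
      _ ≤ Y ^ (c * 2) * (n * P0) := by gcongr Y ^ ?_ * _; omega
      _ = (Y ^ c * D0) ^ 2 * M := by rw [e1]; ring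
      _ ≤ _ := by gcongr
  · calc Y ^ b * n * P ^ 2 ≤ Y ^ b * n * (Y ^ (c + a) * P0) ^ 2 := by gcongr
      _ = Y ^ (c * 2) * (n * P0 ^ 2 * Y ^ (b + 2 * a)) := by ring
      _ ≤ Y ^ (c * 2) * (n * P0 ^ 2 * W) := by gcongr; exact (le (by omega)).trans hW
      _ ≤ Y ^ (c * 2) * (D0 ^ 2 * M ^ 2) := by gcongr
      _ = (Y ^ c * D0) ^ 2 * M ^ 2 := by ring
      _ ≤ _ := by gcongr
  · calc (Y ^ b * n) ^ 2 * P ^ 5 ≤ (Y ^ b * n) ^ 2 * (Y ^ (c + a) * P0) ^ 5 := by gcongr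
      _ = Y ^ (c * 5) * (n ^ 2 * P0 ^ 5 * Y ^ (2 * b + 5 * a)) := by ring
      _ ≤ Y ^ (c * 5) * (n ^ 2 * P0 ^ 5 * W) := by gcongr
      _ ≤ Y ^ (c * 5) * (D0 ^ 5 * M ^ 2) := by gcongr
      _ = (Y ^ c * D0) ^ 5 * M ^ 2 := by ring
      _ ≤ _ := by gcongr
  · calc (Y ^ b * n) ^ 2 * P ^ 3 ≤ (Y ^ b * n) ^ 2 * (Y ^ (c + a) * P0) ^ 3 := by gcongr
      _ = Y ^ (2 * b + 3 * (c + a)) * (n ^ 2 * P0 ^ 3) := by ring
      _ ≤ Y ^ (c * 5) * (n ^ 2 * P0 ^ 3) := by gcongr Y ^ ?_ * _; omega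
      _ = (Y ^ c * D0) ^ 5 * M := by rw [e4]; ring
      _ ≤ _ := by gcongr

/-- the powers of the number of curves -/
lemma pw {n δ : ℝ} (n1 : 1 ≤ n) (h2 : δ ≤ 21 / 50) :
    n * n ^ ((3 * δ - 1) / 2) = (n ^ δ) ^ 2 * n ^ ((1 - δ) / 2) ∧
    n * (n ^ ((3 * δ - 1) / 2)) ^ 2 * n ^ ((1:ℝ) / 40) ≤ (n ^ δ) ^ 2 * (n ^ ((1 - δ) / 2)) ^ 2 ∧
    n ^ 2 * (n ^ ((3 * δ - 1) / 2)) ^ 5 * n ^ ((1:ℝ) / 40) ≤
      (n ^ δ) ^ 5 * (n ^ ((1 - δ) / 2)) ^ 2 ∧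
    n ^ 2 * (n ^ ((3 * δ - 1) / 2)) ^ 3 = (n ^ δ) ^ 5 * n ^ ((1 - δ) / 2) ∧
    n ^ ((3 * δ - 1) / 2) * n ^ ((1:ℝ) / 40) ≤ n ^ δ := by
  have n0 : 0 < n := by linarith
  obtain ⟨x, rfl⟩ : ∃ x, n = Real.exp x := ⟨Real.log n, (Real.exp_log n0).symm⟩
  have x0 : 0 ≤ x := Real.one_le_exp_iff.1 n1
  simp only [← Real.exp_mul, ← Real.exp_nat_mul, ← Real.exp_add, Real.exp_le_exp, Real.exp_eq_exp]
  push_cast
  refine ⟨by ring, ?_, ?_, by ring, ?_⟩ <;> nlinarith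

lemma four {K n : ℝ} (k2 : K * K ≤ n) (nR : 16000000 ≤ n) : 4 * K < n := by
  nlinarith [sq_nonneg (K - 4)]

lemma step (hN : NoWS) {δ : ℝ} {j c n : ℕ} {u : ℕ → ℝ} (h1 : 2 / 5 ≤ δ) (h2 : δ ≤ 21 / 50)
    (j1 : 1 ≤ j) (u0 : u 0 = 0) (u1 : ∀ i, u i ≤ u (i + 1)) (u2 : ∀ i, 0 ≤ u i)
    (u3 : ∀ i, u i ≤ 1 / 2)
    (u4 : ∀ i, u (i + 1) = (3 * δ - 1) / 2 + (1 - δ) * u i) (u5 : (1 - δ) / 2 ≤ u (2 * j + 1))
    (hc : c = 40 * (2 * (356 * j + 217) + 5 * (89 * j + 89))) (L0 : 4096 ≤ L)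
    (jL : 4 * j + 5 ≤ L) (nL : n ^ (4 * j + 5) < 2 ^ L) (big : L ^ c ≤ n)
    (ih : ∀ k < n, ∀ (V α : Type) [Fintype V] [LinearOrder α] (h : V → ℕ → α) (E : V → V → Prop)
      (t : V → V → ℕ), NoAlt h → Inj h → Fam h E t → (∀ a y, E a y → t a y < 2 ^ L) →
      Fintype.card V ≤ k → ed E ≤ (L:ℝ) ^ c * (k:ℝ) ^ (1 + δ))
    (hn : NoAlt h) (hi : Inj h) (f : Fam h H t) (tb : ∀ a y, H a y → t a y < 2 ^ L)
    (cn : Fintype.card V ≤ n) : ed H ≤ (L:ℝ) ^ c * (n:ℝ) ^ (1 + δ) := by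
  have hc2 : 2 * (356 * j + 217) + 5 * (89 * j + 89) ≤ c :=
    hc ▸ Nat.le_mul_of_pos_left _ (by norm_num)
  have jL' : j ≤ L := by omega
  have c24 : 24 ≤ c + 89 * j + 50 := by omega
  have j3 : 3 ≤ 4 * j + 5 := by omega
  by_contra hm
  push Not at hm
  have X0 : (4096:ℝ) ≤ L := by exact_mod_cast L0
  have X1 : (1:ℝ) ≤ L := by linarith
  have nb : 16000000 ≤ n := le_trans (le_trans (by norm_num : 16000000 ≤ 4096 ^ 2)
    ((Nat.pow_le_pow_left L0 2).trans (Nat.pow_le_pow_right (by omega) (by omega)))) big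
  have nR : (16000000:ℝ) ≤ n := by exact_mod_cast nb
  have n1 : (1:ℝ) ≤ n := by linarith
  have n0 : (0:ℝ) < n := by linarith
  have cnR : (Fintype.card V : ℝ) ≤ n := by exact_mod_cast cn
  have m0 : 0 < ed H := lt_trans (by positivity) hm
  obtain ⟨s, hs⟩ : ∃ s, s = n / 256 + 1 := ⟨_, rfl⟩
  have s0 : 0 < s := by omega
  have sR : (0:ℝ) < s := by exact_mod_cast s0
  have s1 : (n:ℝ) ≤ 256 * s := by exact_mod_cast (by omega : n ≤ 256 * s)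
  have s2 : (125:ℝ) * ((2 * s : ℕ) : ℝ) ≤ n := by exact_mod_cast (by omega : 125 * (2 * s) ≤ n)
  have s3 : (s:ℝ) ≤ n := by exact_mod_cast (by omega : s ≤ n)
  have ih' := ih (2 * s) (by omega)
  have hc' : Fintype.card V ≤ 256 * s := by omega
  have v1 := FamA.high ih' hn hi f tb s0 hc' m0
  have v2 := FamA.high ih' hn.flip hi.flip f.flip (fun y a => tb a y) s0 hc' (by rwa [ed_flip])
  rw [← cnt_swap, ed_flip] at v2
  have v3 : 625 * (((2 * s : ℕ) : ℝ) ^ (1 + δ)) ≤ (n:ℝ) ^ (1 + δ) := by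
    have a1 : (625:ℝ) ≤ 125 ^ (1 + δ) := by
      calc (625:ℝ) = (5 ^ (3:ℝ)) ^ ((4:ℝ) / 3) := by
            rw [← Real.rpow_mul (by norm_num)]; norm_num
        _ = 125 ^ ((4:ℝ) / 3) := by norm_num
        _ ≤ _ := Real.rpow_le_rpow_of_exponent_le (by norm_num) (by linarith)
    calc _ ≤ 125 ^ (1 + δ) * (((2 * s : ℕ) : ℝ) ^ (1 + δ)) := by gcongr
      _ = (125 * ((2 * s : ℕ) : ℝ)) ^ (1 + δ) := by
          rw [Real.mul_rpow (by norm_num) (by positivity)]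
      _ ≤ _ := Real.rpow_le_rpow (by positivity) s2 (by linarith)
  set d := ed H / (s:ℝ) with hd
  have v4 := cnt_le_add3 (p := fun e : V × V => H e.1 e.2) (q := fun e => H e.1 e.2 ∧
    cnt (fun y => H e.1 y) ≤ d ∧ cnt (fun a => H a e.2) ≤ d)
    (r := fun e => H e.1 e.2 ∧ d < cnt fun y => H e.1 y)
    (s := fun e => H e.1 e.2 ∧ d < cnt fun a => H a e.2) fun e g =>
      (le_or_gt _ d).elim (fun a => (le_or_gt _ d).elim (fun b => Or.inl ⟨g, a, b⟩)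
        fun b => Or.inr (Or.inr ⟨g, b⟩)) fun a => Or.inr (Or.inl ⟨g, a⟩)
  have d0 : 0 ≤ d := by positivity
  have dlo : (L:ℝ) ^ c * (n:ℝ) ^ δ ≤ d := by
    rw [hd, le_div_iff₀ sR]
    refine le_trans ?_ hm.le
    rw [Real.rpow_add n0, Real.rpow_one, mul_assoc, mul_comm _ (s:ℝ)]
    gcongr
  have dhi : d ≤ (n:ℝ) ^ 2 := by
    rw [hd, div_le_iff₀ sR]
    have a1 : ed H ≤ (n:ℝ) * n := (cnt_le_card _).trans (by
      rw [Fintype.card_prod, Nat.cast_mul]; gcongr)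
    nlinarith [mul_le_mul_of_nonneg_left s1 n0.le, mul_pos n0 sR]
  set P0 := (n:ℝ) ^ ((3 * δ - 1) / 2) with hP0
  have p1 : 1 ≤ P0 := Real.one_le_rpow n1 (by linarith)
  obtain ⟨θ, hθ⟩ : ∃ θ, θ = ⌈(L:ℝ) ^ (c + 89 * j + 50) * P0⌉₊ := ⟨_, rfl⟩
  have q1 : 1 ≤ (L:ℝ) ^ (c + 89 * j + 50) * P0 :=
    one_le_mul_of_one_le_of_one_le (one_le_pow₀ X1) p1
  have θ1 : (L:ℝ) ^ (c + 89 * j + 50) * P0 ≤ θ := hθ ▸ Nat.le_ceil _
  have θ2 : (θ:ℝ) ≤ 2 * ((L:ℝ) ^ (c + 89 * j + 50) * P0) := by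
    have := Nat.ceil_lt_add_one (zero_le_one.trans q1)
    rw [hθ]; linarith
  have Phi : (L:ℝ) ^ 38 * θ ≤ (L:ℝ) ^ (c + (89 * j + 89)) * P0 := by
    calc _ ≤ (L:ℝ) ^ 38 * (L * ((L:ℝ) ^ (c + 89 * j + 50) * P0)) := by
          gcongr; exact θ2.trans (by gcongr; linarith)
      _ = _ := by ring
  have hW : (L:ℝ) ^ (2 * (356 * j + 217) + 5 * (89 * j + 89)) ≤ (n:ℝ) ^ ((1:ℝ) / 40) := by
    have a1 : ((L:ℝ) ^ (2 * (356 * j + 217) + 5 * (89 * j + 89))) ^ 40 ≤ n := by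
      rw [← pow_mul, mul_comm, ← hc]; exact_mod_cast big
    have a2 := Real.rpow_le_rpow (by positivity) a1 (show (0:ℝ) ≤ 1 / 40 by norm_num)
    rwa [one_div, show (40:ℝ) = ((40:ℕ):ℝ) by norm_num,
      Real.pow_rpow_inv_natCast (by positivity) (by norm_num), Nat.cast_ofNat, ← one_div] at a2
  obtain ⟨e1, e2, e3, e4, e5⟩ := pw n1 h2
  obtain ⟨pd, nm⟩ := num (a := 89 * j + 89) (b := 356 * j + 217) (c := c) X1 n0 (by positivity)
    (by positivity) (by positivity) (by positivity) hc2 hW Phi dlo e1 e2 e3 e4 e5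
  have nLR : (n:ℝ) ^ (4 * j + 5) < 2 ^ L := by exact_mod_cast nL
  have K1 : ∀ i, 1 ≤ (n:ℝ) ^ u i := fun i => Real.one_le_rpow n1 (u2 i)
  refine hN V α h (fun a y => H a y ∧ cnt (fun y => H a y) ≤ d ∧ cnt (fun a => H a y) ≤ d) t L θ j
    n d ((n:ℝ) ^ ((1 - δ) / 2)) ⟨hn, hi, f.mono fun a y g => g.1, fun a y g => tb a y g.1, L0,
      ((pow_le_pow_left₀ (by positivity) cnR 3).trans
        (pow_le_pow_right₀ n1 j3)).trans_lt nLR, ?_⟩ (fun a => ?_) (fun y => ?_)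
    ⟨jL', j1, cnR, n0, by positivity, pd, ?_, ?_,
      ⟨fun i => (n:ℝ) ^ u i, fun i => 16 * (L:ℝ) ^ c * ((n:ℝ) ^ u i) ^ (1 + δ), by simp [u0],
        fun i => Real.rpow_le_rpow_of_exponent_le n1 (u1 i), fun i => by positivity,
        Real.rpow_le_rpow_of_exponent_le n1 u5, fun i _ => ⟨fun G A B g => ?_, ?_⟩⟩, nm⟩
  · have : (L:ℝ) ^ 24 ≤ θ := le_trans ((pow_le_pow_right₀ X1 c24).trans
      (le_mul_of_one_le_right (by positivity) p1)) θ1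
    exact_mod_cast this
  · by_cases k : cnt (fun y => H a y) ≤ d
    · exact (cnt_mono fun y g => g.1).trans k
    · rwa [cnt_zero fun y g => k g.2.1]
  · by_cases k : cnt (fun a => H a y) ≤ d
    · exact (cnt_mono fun a g => g.1).trans k
    · rwa [cnt_zero fun a g => k g.2.2]
  · have a1 : (n:ℝ) * d ≤ 256 * ed H := by
      rw [hd, ← mul_div_assoc, div_le_iff₀ sR]; nlinarith
    have a2 := mul_le_mul_of_nonneg_left v3 (by positivity : 0 ≤ (L:ℝ) ^ c)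
    have a3 := cnt_nonneg fun e : V × V => H e.1 e.2 ∧ cnt (fun y => H e.1 y) ≤ d ∧
      cnt (fun a => H a e.2) ≤ d
    have a4 := mul_le_mul_of_nonneg_right X0 a3
    unfold ed at *
    linarith
  · refine lt_of_le_of_lt ?_ nLR
    calc _ ≤ (n:ℝ) * ((n:ℝ) ^ 2) ^ (2 * j + 2) := by
          gcongr
          · linarith
          · exact pd.trans dhi
      _ = _ := by ring
  · have k1 := K1 i
    have k2 : (n:ℝ) ^ u i * (n:ℝ) ^ u i ≤ n := by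
      rw [← Real.rpow_add n0]
      exact (Real.rpow_le_rpow_of_exponent_le n1 (by linarith [u3 i])).trans_eq (Real.rpow_one _)
    set K := (n:ℝ) ^ u i
    have T1 : K ≤ ⌈K⌉₊ := Nat.le_ceil _
    have T2 : ((2 * ⌈K⌉₊ : ℕ) : ℝ) ≤ 4 * K := by
      have := Nat.ceil_lt_add_one (zero_le_one.trans k1)
      push_cast; linarith
    have T3 : 2 * ⌈K⌉₊ < n := by
      have : ((2 * ⌈K⌉₊ : ℕ) : ℝ) < n := T2.trans_lt (four k2 nR)
      exact_mod_cast this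
    refine (rect (ih _ T3) hn hi (f.mono fun a y e => (g a y e).1.1)
      (fun a y e => tb a y (g a y e).1.1) (Nat.ceil_pos.2 (by linarith)) (by positivity) A B
      fun a y e => (g a y e).2).trans ?_
    have a1 : ((2 * ⌈K⌉₊ : ℕ) : ℝ) ^ (1 + δ) ≤ 16 * K ^ (1 + δ) := by
      refine (Real.rpow_le_rpow (by positivity) T2 (by linarith)).trans ?_
      rw [Real.mul_rpow (by norm_num) (by positivity)]
      gcongr
      exact (Real.rpow_le_rpow_of_exponent_le (by norm_num) (show 1 + δ ≤ 2 by linarith)).trans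
        (by norm_num)
    have a2 := cnt_nonneg A
    have a3 := cnt_nonneg B
    have K0 : 0 < K := by linarith
    calc _ ≤ (cnt A / K + 1) * (cnt B / K + 1) * ((L:ℝ) ^ c * (16 * K ^ (1 + δ))) := by gcongr
      _ = _ := by ring
  · have a1 : (n:ℝ) ^ u (i + 1) * ((n:ℝ) ^ u i) ^ (1 + δ) = P0 * ((n:ℝ) ^ u i) ^ 2 := by
      rw [hP0, ← Real.rpow_mul n0.le, ← Real.rpow_natCast, ← Real.rpow_mul n0.le,
        ← Real.rpow_add n0, ← Real.rpow_add n0, u4]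
      congr 1; push_cast; ring
    have a2 : 512 * (L:ℝ) ^ (c + 1) * P0 ≤ 1 / (L:ℝ) ^ (89 * j + 86) * ((L:ℝ) ^ 38 * θ) := by
      rw [one_div, ← div_eq_inv_mul, le_div_iff₀ (by positivity)]
      calc _ = 512 * ((L:ℝ) ^ 37 * ((L:ℝ) ^ (c + 89 * j + 50) * P0)) := by ring
        _ ≤ L * ((L:ℝ) ^ 37 * θ) := by gcongr; linarith
        _ = _ := by ring
    calc _ = 512 * (L:ℝ) ^ (c + 1) * ((n:ℝ) ^ u (i + 1) * ((n:ℝ) ^ u i) ^ (1 + δ)) := by ring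
      _ = 512 * (L:ℝ) ^ (c + 1) * P0 * ((n:ℝ) ^ u i) ^ 2 := by rw [a1]; ring
      _ ≤ _ := by gcongr

lemma small {E : V → V → Prop} {n c : ℕ} {β : ℝ} (b1 : 1 ≤ β) (cn : Fintype.card V ≤ n)
    (sm : n ≤ L ^ c) : ed E ≤ (L:ℝ) ^ c * (n:ℝ) ^ β := by
  have cnR : (Fintype.card V : ℝ) ≤ n := by exact_mod_cast cn
  have a1 : ed E ≤ (n:ℝ) * n := (cnt_le_card _).trans (by
    rw [Fintype.card_prod, Nat.cast_mul]; gcongr)
  refine a1.trans (mul_le_mul (by exact_mod_cast sm) ?_ (by positivity) (by positivity))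
  rcases Nat.eq_zero_or_pos n with rfl | n0
  · simpa using Real.rpow_nonneg le_rfl β
  · exact (Real.rpow_one _).symm.trans_le
      (Real.rpow_le_rpow_of_exponent_le (by exact_mod_cast n0) b1)

end FamB

theorem famW (hN : NoWS) : FamWS := by
  intro β hβ
  have s2 : Real.sqrt 2 < 1 + 21 / 50 := Real.sqrt_lt' (by norm_num) |>.2 (by norm_num)
  obtain ⟨δ, h1, h2, h3⟩ : ∃ δ, Real.sqrt 2 < 1 + δ ∧ δ ≤ 21 / 50 ∧ 1 + δ ≤ β := by
    rcases le_total β (1 + 21 / 50) with c | c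
    · exact ⟨β - 1, by linarith, by linarith, by linarith⟩
    · exact ⟨21 / 50, s2, le_rfl, c⟩
  obtain ⟨h4, j, u, j1, u0, u1, u2, u3, u4, u5⟩ := FamB.expo h1 h2
  obtain ⟨c, hc⟩ : ∃ c, c = 40 * (2 * (356 * j + 217) + 5 * (89 * j + 89)) := ⟨_, rfl⟩
  have key : FamW (1 + δ) (4 * j + 5) c := by
    intro L n L0 jL
    induction n using Nat.strong_induction_on with
    | _ n ih =>
      intro nL V α _ _ h E t hn hi f tb cn
      rcases le_total n (L ^ c) with sm | big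
      · exact FamB.small (by linarith) cn sm
      · exact FamB.step hN h4 h2 j1 u0 u1 u2 u3 u4 u5 hc L0 jL nL big
          (fun k hk => ih k hk ((Nat.pow_le_pow_left hk.le _).trans_lt nL)) hn hi f tb cn
  refine ⟨4 * j + 5, c, fun L n L0 jL nL V α _ _ h E t hn hi f tb cn => ?_⟩
  rcases Nat.eq_zero_or_pos n with rfl | n0
  · exact FamB.small (by linarith) cn (Nat.zero_le _)
  · exact (key L n L0 jL nL V α h E t hn hi f tb cn).trans (mul_le_mul_of_nonneg_left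
      (Real.rpow_le_rpow_of_exponent_le (by exact_mod_cast n0) h3) (by positivity))

end Pool.Agent.Lib.MP_65c801_co.U
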