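import Pool.Agent.Lib.MP_65c801_co.U.St

/-! Many walks whose last upper curve dips below the first lower curve. -/

namespace Pool.Agent.Lib.MP_65c801_co.U

open Finset Classical T

namespace Peel

variable {V α K K' Ω : Type} [Fintype V] [LinearOrder α] [Fintype Ω]

/-- walks from `u` into the set `p` -/
noncomputable def Tm (A : Ω → Ω → Prop) (p : Ω → Prop) (n : ℕ) (u : Ω) : ℝ :=
  ∑ v, if p v then wk A n u v else 0

lemma Tm_nonneg (A : Ω → Ω → Prop) (p : Ω → Prop) (n : ℕ) (u : Ω) : 0 ≤ Tm A p n u :=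
  sum_nonneg fun v _ => by split_ifs; exacts [wk_nonneg _ _ _, le_rfl]

lemma Tm_zero (A : Ω → Ω → Prop) (p : Ω → Prop) (u : Ω) (g : p u) : 1 ≤ Tm A p 0 u := by
  refine le_trans ?_ (single_le_sum (f := fun v => if p v then wk A 0 u v else 0) (fun v _ => by
    split_ifs; exacts [wk_nonneg _ _ _, le_rfl]) (mem_univ u))
  simp [wk, g]

lemma Tm_succ (A : Ω → Ω → Prop) (p : Ω → Prop) (n : ℕ) (u : Ω) :
    Tm A p (n + 1) u = ∑ x, if A u x then Tm A p n x else 0 := by
  unfold Tm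
  simp only [wk_succ']
  have e1 : ∀ v, (if p v then ∑ x, if A u x then wk A n x v else 0 else 0) =
      ∑ x, if A u x ∧ p v then wk A n x v else 0 := fun v => by
    by_cases c : p v <;> simp [c]
  have e2 : ∀ x, (if A u x then ∑ v, if p v then wk A n x v else 0 else 0) =
      ∑ v, if A u x ∧ p v then wk A n x v else 0 := fun x => by
    by_cases c : A u x <;> simp [c]
  simp only [e1, e2]
  exact sum_comm

lemma Tm_mono (A : Ω → Ω → Prop) {p q : Ω → Prop} (hp : ∀ v, p v → q v) (n : ℕ) (u : Ω) :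
    Tm A p n u ≤ Tm A q n u := by
  refine sum_le_sum fun v _ => ?_
  by_cases c : p v
  · rw [if_pos c, if_pos (hp v c)]
  · rw [if_neg c]; split_ifs; exacts [wk_nonneg _ _ _, le_rfl]

lemma sum_ge {X Y : Type} [Fintype X] [Fintype Y] {p : X → Prop} (f : X → Y) (g : Y → ℝ)
    {c r : ℝ} (c0 : 0 ≤ c) (g0 : ∀ y, 0 ≤ g y) (hr : r ≤ cnt p) (hg : ∀ x, p x → c ≤ g (f x))
    (hf : ∀ x x', p x → p x' → f x = f x' → x = x') : r * c ≤ ∑ y, g y :=
  (mul_le_mul_of_nonneg_right (hr.trans (cnt_inj (q := fun y => c ≤ g y) f hg hf)) c0).trans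
    (cnt_mul_le_sum g (fun _ e => e) g0)

lemma step {X : Type} [Fintype X] (A : Ω → Ω → Prop) (q : Ω → Prop) (n : ℕ) (u : Ω)
    {p : X → Prop} (f : X → Ω) {c r : ℝ} (c0 : 0 ≤ c) (hr : r ≤ cnt p)
    (hg : ∀ x, p x → A u (f x) ∧ c ≤ Tm A q n (f x))
    (hf : ∀ x x', p x → p x' → f x = f x' → x = x') : r * c ≤ Tm A q (n + 1) u := by
  rw [Tm_succ]
  refine sum_ge f _ c0 (fun y => ?_) hr (fun x hx => ?_) hf
  · split_ifs; exacts [Tm_nonneg _ _ _ _, le_rfl]
  · rw [if_pos (hg x hx).1]; exact (hg x hx).2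

/-- edges with many edges of `E` on both sides at the lower curve -/
def Dv (E : V → V → Prop) (t : V → V → ℕ) (S' : ℕ) (κ : V → V → K) (η : ℝ) (a y : V) : Prop :=
  PathL.Cen (fun y a => E a y) (fun y a => t a y) S' (fun y a => κ a y) η y a

/-- the edges from which walks can be continued -/
def Ev (h : V → ℕ → α) (F : V → V → Prop) (t : V → V → ℕ) (S' S : ℕ) (κ : V → V → K)
    (κ' : V → V → K') (η ρ : ℝ) : ℕ → V → V → Prop
  | 0 => F
  | j + 1 => fun a y => F a y ∧ ρ ≤ cnt fun b => (Dv (Ev h F t S' S κ κ' η ρ j) t S' κ η b y ∧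
      κ' b y = κ' a y) ∧ h b (t a y / S * S) < h a (t a y / S * S)

lemma Ev_sub {h : V → ℕ → α} {F : V → V → Prop} {t : V → V → ℕ} {S' S : ℕ} {κ : V → V → K}
    {κ' : V → V → K'} {η ρ : ℝ} (j : ℕ) {a y : V} (g : Ev h F t S' S κ κ' η ρ j a y) : F a y := by
  cases j with
  | zero => exact g
  | succ j => exact g.1

end Peel

open Peel in
theorem peel : PeelS := by
  intro V α K K' Ω _ _ _ h F t S' R j κ κ' G G' η ρ f A γ β hn hi fm S0 R0 sy ad hγ hβ iγ iβ hq
    hG hG' η0 ρ1 f0 hf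
  have ρ0 : 0 ≤ ρ := by linarith
  have SS : 0 < S' * R := Nat.mul_pos S0 R0
  have up : ∀ {p q : ℕ}, p / S' = q / S' → p / (S' * R) = q / (S' * R) := fun e => by
    rw [← Nat.div_div_eq_div_mul, ← Nat.div_div_eq_div_mul, e]
  set S := S' * R with hS
  set E := Ev h F t S' S κ κ' η ρ with hE
  have sub : ∀ i a y, E i a y → F a y := fun i a y g => Ev_sub i g
  have big : ∀ i : ℕ, ed F ≤ ed (E i) + i * (4 * η * G.card + 2 * ρ * G'.card) := by
    intro i
    induction i with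
    | zero => simp [hE, Ev]
    | succ i ih =>
      have n1 := PathL.noncen (fun y a => E i a y) (fun y a => t a y) S' (fun y a => κ a y) η0 G
        (fun y a g => hG a y (sub i a y g))
        (fun a k w => (cnt_mono fun y g => ⟨sub i a y g.1, g.2⟩).trans (hq a k w))
      rw [← cnt_swap] at n1
      have n2 : cnt (fun e : V × V => Dv (E i) t S' κ η e.1 e.2 ∧ ¬ E (i + 1) e.1 e.2) ≤
          G'.card * (2 * ρ) := by
        refine cnt_fib_le (fun e => (e.2, κ' e.1 e.2)) G'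
          (fun e he => hG' _ _ (sub i _ _ he.1.1)) ?_
        rintro ⟨y, u⟩ -
        by_cases ex : ∃ a, F a y ∧ κ' a y = u
        · obtain ⟨a0, g0, rfl⟩ := ex
          have e1 := few_extreme (fun a => Dv (E i) t S' κ η a y ∧ κ' a y = κ' a0 y)
            (fun a => OrderDual.toDual (h a (t a0 y / S * S))) ρ0
            (fun b => (cnt_le_one fun x z hx hz => hi _ _ _ (hx.2.trans hz.2.symm)).trans ρ1)
          refine le_trans (cnt_inj (fun e => e.1) ?_ ?_) e1
          · rintro ⟨a, y'⟩ ⟨⟨g, hc⟩, he⟩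
            simp only [Prod.mk.injEq] at he
            obtain ⟨rfl, he⟩ := he
            refine ⟨⟨g, he⟩, fun k => hc ⟨sub i _ _ g.1, ?_⟩⟩
            rw [up (hβ a a0 y' (sub i _ _ g.1) g0 he).2, he]
            exact k
          · rintro ⟨a, y1⟩ ⟨b, y2⟩ ⟨-, h1⟩ ⟨-, h2⟩ e
            simp only [Prod.mk.injEq] at h1 h2 e ⊢
            exact ⟨e, h1.1.trans h2.1.symm⟩
        · rw [cnt_zero]
          · positivity
          · rintro ⟨a, y'⟩ ⟨g, he⟩
            simp only [Prod.mk.injEq] at he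
            obtain ⟨rfl, he⟩ := he
            exact ex ⟨a, sub i _ _ g.1.1, he⟩
      have n3 := cnt_le_add3 (p := fun e : V × V => E i e.1 e.2)
        (q := fun e => E (i + 1) e.1 e.2)
        (r := fun e => Dv (E i) t S' κ η e.1 e.2 ∧ ¬ E (i + 1) e.1 e.2)
        (s := fun e => E i e.1 e.2 ∧ ¬ Dv (E i) t S' κ η e.1 e.2) fun e g => by tauto
      have n1' : cnt (fun e : V × V => E i e.1 e.2 ∧ ¬ Dv (E i) t S' κ η e.1 e.2) ≤
          G.card * (4 * η) := n1
      push_cast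
      unfold ed at *
      linarith
  have main : ∀ (a0 : V) (w i : ℕ) (a y : V), E i a y → t a y / S = w →
      h a (w * S) ≤ h a0 (w * S) → h a (t a y) ≤ h a0 (t a y) →
      (η * ρ) ^ i ≤ Tm A (fun v => ∃ b z τ, F b z ∧ v = β b z ∧ τ / S = w ∧ h z τ < h a0 τ)
        (2 * i) (β a y) := by
    intro a0 w i
    induction i with
    | zero =>
      intro a y g e _ l
      exact Tm_zero A _ _ ⟨a, y, _, g, rfl, e, (fm.p1 a y g).trans_le l⟩ |>.trans' (by simp)
    | succ i ih =>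
      intro a y g e l1 l2
      have c0 : 0 ≤ (η * ρ) ^ i := by positivity
      rw [show (η * ρ) ^ (i + 1) = ρ * (η * (η * ρ) ^ i) by ring,
        show 2 * (i + 1) = 2 * i + 1 + 1 by ring]
      refine step A _ _ _ (fun b => γ b y) (by positivity) g.2 ?_ fun b b' k k' e' =>
        iγ _ _ _ _ (sub i _ _ k.1.1.1) (sub i _ _ k'.1.1.1) e'
      rintro b ⟨⟨d, k⟩, lt⟩
      rw [e] at lt
      have gb := sub i _ _ d.1
      obtain ⟨b1, b2⟩ := hβ b a y gb g.1 k
      refine ⟨b1 ▸ sy _ _ (ad b y gb), ?_⟩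
      have ne : a ≠ b := fun e => by subst e; exact lt_irrefl _ lt
      have s0 : h b (w * S) < h a0 (w * S) := lt.trans_le l1
      have s1 : h b (t a y) < h a0 (t a y) :=
        ((fm.p3 a b y g.1 gb ne).trans (fm.p1 a y g.1)).trans_le l2
      have ne0 : b ≠ a0 := fun e => by subst e; exact lt_irrefl _ s0
      have fin : ∀ p : V → Prop, η ≤ cnt p →
          (∀ z, p z → (E i b z ∧ κ b z = κ b y) ∧ (t b z / S = w → h b (t b z) ≤ h a0 (t b z))) →
          η * (η * ρ) ^ i ≤ Tm A (fun v => ∃ b z τ, F b z ∧ v = β b z ∧ τ / S = w ∧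
            h z τ < h a0 τ) (2 * i + 1) (γ b y) := fun p hp hz => by
        refine step A _ _ _ (fun z => β b z) c0 hp (fun z pz => ?_) fun z z' k k' e' =>
          iβ _ _ _ _ (sub i _ _ (hz z k).1.1) (sub i _ _ (hz z' k').1.1) e'
        obtain ⟨⟨g1, g2⟩, g3⟩ := hz z pz
        obtain ⟨c1, c2⟩ := hγ b z y (sub i _ _ g1) gb g2
        have w1 : t b z / S = w := c2.trans ((up b2).trans e)
        exact ⟨c1 ▸ ad b z (sub i _ _ g1), ih b z g1 w1 s0.le (g3 w1)⟩
      by_cases hc : ∀ σ, t a y < σ → h b σ < h a0 σ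
      · exact fin _ d.2.1 fun z pz =>
          ⟨pz.1, fun _ => (hc _ (Nat.lt_of_div_lt_div (b2 ▸ pz.2))).le⟩
      · push Not at hc
        obtain ⟨σ, h1, h2⟩ := hc
        have s3 : h a0 σ < h b σ := lt_of_not_gt' hi ne0.symm (not_lt.2 h2)
        refine fin _ d.2.2 fun z pz => ⟨pz.1, fun w1 => not_lt.1 fun s4 => ?_⟩
        have l3 : t b z < t a y := Nat.lt_of_div_lt_div (b2 ▸ pz.2)
        have l4 : w * S < t b z := lt_of_le_of_ne (win_bounds SS w1).1 fun e => by
          rw [← e] at s4; exact lt_asymm s0 s4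
        exact hn b a0 _ _ _ _ l4 l3 h1 s0 s4 s1 s3
  have e1 : ∀ W : Ω → Ω → Prop, mass A W (2 * j + 1) =
      ∑ z : Ω × Ω, if A z.1 z.2 then Tm A (W z.1) (2 * j) z.2 else 0 := fun W => by
    rw [Fintype.sum_prod_type]
    exact sum_congr rfl fun u _ => Tm_succ A (W u) _ u
  rw [e1]
  refine sum_ge (p := fun e : V × V => E j e.1 e.2) (fun e => (γ e.1 e.2, β e.1 e.2)) _
    (by positivity) (fun z => ?_) (by linarith [big j]) (fun e g => ?_) fun e e' g g' k => ?_
  · split_ifs; exacts [Tm_nonneg _ _ _ _, le_rfl]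
  · rw [if_pos (ad _ _ (sub j _ _ g))]
    refine (main e.1 _ j e.1 e.2 g rfl le_rfl le_rfl).trans (Tm_mono A ?_ _ _)
    rintro v ⟨b, z, τ, g1, g2, g3⟩
    exact ⟨e.1, e.2, b, z, τ, sub j _ _ g, g1, rfl, g2, g3⟩
  · simp only [Prod.mk.injEq] at k
    exact Prod.ext (iγ _ _ _ _ (sub j _ _ g) (sub j _ _ g') k.1)
      (iβ _ _ _ _ (sub j _ _ g) (sub j _ _ g') k.2)

end Pool.Agent.Lib.MP_65c801_co.U
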