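import Pool.Agent.Lib.MP_65c801_co.T.All

/-! Exponents above `sqrt 2` for families of lenses: definitions and the statements of the steps. -/

namespace Pool.Agent.Lib.MP_65c801_co.U

open Finset Classical T

section Walk

variable {Ω : Type} [Fintype Ω]

/-- the number of walks of a given length -/
noncomputable def wk (A : Ω → Ω → Prop) : ℕ → Ω → Ω → ℝ
  | 0, u, v => if u = v then 1 else 0
  | j + 1, u, v => ∑ x, if A x v then wk A j u x else 0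

/-- the number of walks of length `j` whose pair of ends satisfies `W` -/
noncomputable def mass (A W : Ω → Ω → Prop) (j : ℕ) : ℝ :=
  ∑ u, ∑ v, if W u v then wk A j u v else 0

end Walk

section Defs

variable {V α K K' : Type} [Fintype V] [LinearOrder α]

/-- vertices of the graph of groups -/
abbrev Om (V : Type) : Type := (V × V) ⊕ (V × V)

/-- the group of an edge at its first end -/
noncomputable def lo (F : V → V → Prop) (κ : V → V → K) (a y : V) : Om V :=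
  Sum.inl (a, if g : ∃ z, F a z ∧ κ a z = κ a y then g.choose else a)

/-- the group of an edge at its second end -/
noncomputable def up (F : V → V → Prop) (κ' : V → V → K') (a y : V) : Om V :=
  Sum.inr (y, if g : ∃ b, F b y ∧ κ' b y = κ' a y then g.choose else y)

/-- two groups are adjacent if they share an edge -/
def Adj (F : V → V → Prop) (κ : V → V → K) (κ' : V → V → K') (o o' : Om V) : Prop :=
  ∃ a y, F a y ∧ ((o = lo F κ a y ∧ o' = up F κ' a y) ∨ (o = up F κ' a y ∧ o' = lo F κ a y))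

/-- the function `c` is dominated by incidences of weighted groups -/
def StemW (c : V → ℝ) (x : V) (L : ℕ) (D σ P : ℝ) : Prop :=
  ∃ (K : Type) (H : V → V → Prop) (κ : V → V → K) (gr : Om V → V × K) (mm : Om V → ℝ) (ν S : ℝ),
    IncOK H κ (216 * (L:ℝ) ^ 2) P ∧ 0 < ν ∧ 0 ≤ S ∧ S ≤ σ * ν ∧ S < 2 ^ L ∧
    (∀ o, mm o = 0 ∨ 1 ≤ mm o) ∧ (∀ o, mm o ≤ S) ∧ ∑ o, mm o ≤ D * S ∧
    (∀ o o', mm o ≠ 0 → mm o' ≠ 0 → gr o = gr o' → o = o') ∧
    ∀ y, y ≠ x → ν * c y ≤ ∑ o, if H (gr o).1 y ∧ κ (gr o).1 y = (gr o).2 then mm o else 0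

/-- the unbalanced bound for all subgraphs at the size `M` -/
def RectQ (E : V → V → Prop) (M Φ : ℝ) : Prop :=
  ∀ (H : V → V → Prop) (A B : V → Prop), (∀ a y, H a y → E a y ∧ A a ∧ B y) →
    ed H ≤ (cnt A / M + 1) * (cnt B / M + 1) * Φ

/-- the sizes to which walks spread -/
def ExpOK (E : V → V → Prop) (L l : ℕ) (P δ M : ℝ) : Prop :=
  ∃ Kq Φ : ℕ → ℝ, Kq 0 = 1 ∧ (∀ i, Kq i ≤ Kq (i + 1)) ∧ (∀ i, 0 ≤ Φ i) ∧ M ≤ Kq l ∧
    ∀ i ≤ l, RectQ E (Kq i) (Φ i) ∧ 32 * L * Kq (i + 1) * Φ i ≤ δ * P * Kq i ^ 2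

/-- the standing assumptions -/
structure Ct (h : V → ℕ → α) (E : V → V → Prop) (t : V → V → ℕ) (L θ : ℕ) : Prop where
  na : NoAlt h
  inj : Inj h
  fam : Fam h E t
  tb : ∀ a y, E a y → t a y < 2 ^ L
  L0 : 4096 ≤ L
  cb : (Fintype.card V : ℝ) ^ 3 < 2 ^ L
  θ0 : L ^ 24 ≤ θ

/-- the two scales `S'` and `S' * R` -/
structure Sq (E : V → V → Prop) (t : V → V → ℕ) (S' R L θ : ℕ) (m d : ℝ) : Prop where
  S0 : 0 < S'
  R0 : 0 < R
  em : ed E ≤ m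
  dL : ∀ a, cnt (fun y => E a y) ≤ d
  dU : ∀ y, cnt (fun a => E a y) ≤ d
  q1 : ∀ y w, cnt (fun a => E a y ∧ t a y / S' = w) ≤ (L:ℝ) ^ 18 * θ
  q2 : ∀ y w, cnt (fun a => E a y ∧ t a y / (S' * R) = w) ≤ (L:ℝ) ^ 38 * θ
  g1 : ∃ G : Finset (V × ℕ), G.card * ((L:ℝ) ^ 16 * θ) ≤ m ∧ ∀ a y, E a y → (a, t a y / S') ∈ G
  g2 : ∃ G : Finset (V × ℕ), G.card * ((L:ℝ) ^ 16 * θ) ≤ m ∧ ∀ a y, E a y → (y, t a y / S') ∈ G
  g3 : ∃ G : Finset (V × ℕ), G.card * ((L:ℝ) ^ 36 * θ) ≤ m ∧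
    ∀ a y, E a y → (y, t a y / (S' * R)) ∈ G

/-- many pairs of edges in small groups, on the two sides of global boxes -/
structure Bx (h : V → ℕ → α) (E : V → V → Prop) (t : V → V → ℕ) (S L θ : ℕ) (m : ℝ)
    (H0 H1 : V → V → Prop) (κ : V → V → K) (φ : V → ℕ → ℕ × ℕ) : Prop where
  s0 : ∀ a y, H0 a y → E a y
  s1 : ∀ a y, H1 a y → E a y
  win : ∀ a y z, κ a y = κ a z → t a y / S = t a z / S
  box : ∀ a y z, κ a y = κ a z → φ y (t a y / S) = φ z (t a z / S)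
  co : ∀ a y b z, H0 a y → H1 b z → t a y / S = t b z / S →
    φ y (t a y / S) = φ z (t b z / S) → Co h S (t a y / S) y z
  c0 : ∀ a k, cnt (fun y => H0 a y ∧ κ a y = k) ≤ 2 * θ
  c1 : ∀ a k, cnt (fun y => H1 a y ∧ κ a y = k) ≤ 2 * θ
  many : θ * m ≤ (L:ℝ) ^ 5 *
    cnt fun z : V × V × V => H0 z.1 z.2.1 ∧ H1 z.1 z.2.2 ∧ κ z.1 z.2.1 = κ z.1 z.2.2

/-- the cell of an edge -/
def cl (t : V → V → ℕ) (S : ℕ) (row col : V → ℕ → ℕ) (a y : V) : ℕ × ℕ × ℕ :=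
  (t a y / S, row y (t a y / S), col y (t a y / S))

/-- a large subfamily with a staircase, few cells and gaps below the rows and columns -/
structure Tu (h : V → ℕ → α) (H : V → V → Prop) (t : V → V → ℕ) (S L θ : ℕ) (m : ℝ)
    (row col : V → ℕ → ℕ) : Prop extends Stair h H t S ((L:ℝ) ^ 5 * θ) row col where
  gr : ∀ a y b, H a y → row b (t a y / S) = row y (t a y / S) →
    h a (t a y / S * S) < h b (t a y / S * S)
  gc : ∀ a y b, H a y → col b (t a y / S) = col y (t a y / S) →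
    h a (t a y / S * S + (S - 1)) < h b (t a y / S * S + (S - 1))
  big : m ≤ (L:ℝ) ^ 8 * ed H
  cells : ∃ G : Finset (V × ℕ × ℕ × ℕ), G.card * ((L:ℝ) ^ 3 * θ) ≤ 2 * m ∧
    ∀ a y, H a y → (a, cl t S row col a y) ∈ G

/-- pairs of a lower and an upper group in one cell whose curves form a lens -/
def PrA (h : V → ℕ → α) (H : V → V → Prop) (t : V → V → ℕ) (S : ℕ) (row col : V → ℕ → ℕ)
    (u v : Om V) : Prop :=
  ∃ a y b z, H a y ∧ H b z ∧ u = lo H (cl t S row col) a y ∧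
    v = up H (fun a y => t a y / S) b z ∧ cl t S row col a y = cl t S row col b z ∧
    Lens h S (t a y / S) a z

/-- pairs of upper groups in one window whose curves form a lens -/
def PrB (h : V → ℕ → α) (F : V → V → Prop) (t : V → V → ℕ) (S : ℕ) (u v : Om V) : Prop :=
  ∃ a y b z, F a y ∧ F b z ∧ u = up F (fun a y => t a y / S) a y ∧
    v = up F (fun a y => t a y / S) b z ∧ t a y / S = t b z / S ∧ Lens h S (t a y / S) y z

/-- the numerical conditions -/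
structure Num (Z P d M : ℝ) : Prop where
  n1 : Z * P ≤ d ^ 2 * M
  n2 : Z * P ^ 2 ≤ d ^ 2 * M ^ 2
  n3 : Z ^ 2 * P ^ 5 ≤ d ^ 5 * M ^ 2
  n4 : Z ^ 2 * P ^ 3 ≤ d ^ 5 * M

/-- the global data for walks of length `2 j + 1` and `2 j + 2` -/
structure Gl (E : V → V → Prop) (L θ j : ℕ) (N m d M : ℝ) : Prop where
  jL : j ≤ L
  j1 : 1 ≤ j
  cN : (Fintype.card V : ℝ) ≤ N
  N0 : 0 < N
  M0 : 0 < M
  pd : (L:ℝ) ^ 38 * θ ≤ d
  nd : N * d ≤ L * m
  pw : 2 * ((L:ℝ) ^ 38 * θ) ^ (2 * j + 2) < 2 ^ L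
  ex : ExpOK E L (2 * j + 1) ((L:ℝ) ^ 38 * θ) (1 / (L:ℝ) ^ (89 * j + 86)) M
  nm : Num ((L:ℝ) ^ (356 * j + 217) * N) ((L:ℝ) ^ 38 * θ) d M

end Defs

/-- few walks end at vertices that are reached by many walks; a class of pairs carries the mass -/
def PruneS : Prop := ∀ (Ω : Type) [Fintype Ω] (A W : Ω → Ω → Prop) (St : Ω → Prop) (L l : ℕ)
  (P δ g M : ℝ) (Kq Φ : ℕ → ℝ), 1 ≤ L → 1 ≤ P → 0 ≤ δ → (∀ x, cnt (fun v => A x v) ≤ P) →
  P ^ l < 2 ^ L → Kq 0 = 1 → (∀ i, Kq i ≤ Kq (i + 1)) → (∀ i, 0 ≤ Φ i) →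
  (∀ i < l, (∀ U U' : Ω → Prop, cnt (fun z : Ω × Ω => A z.1 z.2 ∧ U z.1 ∧ U' z.2) ≤
      2 * ((cnt U / Kq i + 1) * (cnt U' / Kq i + 1) * Φ i)) ∧
    32 * L * Kq (i + 1) * Φ i ≤ δ * P * Kq i ^ 2) →
  (∀ u v, W u v → St u) → cnt St ≤ g → 0 < M → M ≤ mass A W l → 2 * (g * (l * δ * P ^ l)) ≤ M →
  ∃ ν : ℝ, 1 ≤ ν ∧ ν * Kq l ≤ P ^ l ∧
    M ≤ 4 * L * ν * cnt fun z : Ω × Ω => W z.1 z.2 ∧ ν ≤ wk A l z.1 z.2

/-- the unbalanced bound passes to the graph of groups -/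
def RectS : Prop := ∀ (V K K' : Type) [Fintype V] (E F : V → V → Prop) (κ : V → V → K)
  (κ' : V → V → K') (M Φ : ℝ), (∀ a y, F a y → E a y) → 0 < M → 0 ≤ Φ → RectQ E M Φ →
  ∀ U U' : Om V → Prop, cnt (fun z : Om V × Om V => Adj F κ κ' z.1 z.2 ∧ U z.1 ∧ U' z.2) ≤
    2 * ((cnt U / M + 1) * (cnt U' / M + 1) * Φ)

/-- many walks whose last upper curve dips below the first lower curve -/
def PeelS : Prop := ∀ (V α K K' Ω : Type) [Fintype V] [LinearOrder α] [Fintype Ω] (h : V → ℕ → α)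
  (F : V → V → Prop) (t : V → V → ℕ) (S' R j : ℕ) (κ : V → V → K) (κ' : V → V → K')
  (G : Finset (V × K)) (G' : Finset (V × K')) (η ρ f : ℝ) (A : Ω → Ω → Prop) (γ β : V → V → Ω),
  NoAlt h → Inj h → Fam h F t → 0 < S' → 0 < R → (∀ u v, A u v → A v u) →
  (∀ a y, F a y → A (γ a y) (β a y)) →
  (∀ a y z, F a y → F a z → κ a y = κ a z → γ a y = γ a z ∧ t a y / (S' * R) = t a z / (S' * R)) →
  (∀ a b y, F a y → F b y → κ' a y = κ' b y → β a y = β b y ∧ t a y / S' = t b y / S') →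
  (∀ a y b z, F a y → F b z → γ a y = γ b z → a = b) →
  (∀ a y b z, F a y → F b z → β a y = β b z → y = z) →
  (∀ a k w, cnt (fun y => F a y ∧ κ a y = k ∧ t a y / S' = w) ≤ η) →
  (∀ a y, F a y → (a, κ a y) ∈ G) → (∀ a y, F a y → (y, κ' a y) ∈ G') → 0 ≤ η → 1 ≤ ρ → 0 ≤ f →
  f + j * (4 * η * G.card + 2 * ρ * G'.card) ≤ ed F →
  f * (η * ρ) ^ j ≤ mass A (fun u v => ∃ a y b z τ, F a y ∧ F b z ∧ u = γ a y ∧ v = β b z ∧
    τ / (S' * R) = t a y / (S' * R) ∧ h z τ < h a τ) (2 * j + 1)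

/-- many walks in the staircase -/
def MassAS : Prop := ∀ (V α : Type) [Fintype V] [LinearOrder α] (h : V → ℕ → α)
  (H : V → V → Prop) (t : V → V → ℕ) (S' R L θ j : ℕ) (m d : ℝ) (row col : V → ℕ → ℕ),
  Ct h H t L θ → Sq H t S' R L θ m d → Tu h H t (S' * R) L θ m row col → j ≤ L →
  m / (L:ℝ) ^ 9 * ((θ:ℝ) ^ 2 / (L:ℝ) ^ 13) ^ j ≤
    mass (Adj H (cl t (S' * R) row col) fun a y => t a y / (S' * R))
      (PrA h H t (S' * R) row col) (2 * j + 1)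

/-- many walks in the boxes -/
def MassBS : Prop := ∀ (V α K : Type) [Fintype V] [LinearOrder α] (h : V → ℕ → α)
  (E : V → V → Prop) (t : V → V → ℕ) (S' R L θ j : ℕ) (m d : ℝ) (H0 H1 : V → V → Prop)
  (κ : V → V → K) (φ : V → ℕ → ℕ × ℕ), Ct h E t L θ → Sq E t S' R L θ m d →
  Bx h E t (S' * R) L θ m H0 H1 κ φ → j ≤ L →
  m * θ / (L:ℝ) ^ 11 * ((θ:ℝ) ^ 2 / (L:ℝ) ^ 13) ^ j ≤
    mass (Adj (fun a y => H0 a y ∨ H1 a y) κ fun a y => t a y / (S' * R))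
      (PrB h (fun a y => H0 a y ∨ H1 a y) t (S' * R)) (2 * j + 2)

/-- doubly degenerate four-cycles -/
def StemWS : Prop := ∀ (V : Type) [Fintype V] (c : V → ℝ) (x : V) (L : ℕ) (D σ P k Y : ℝ), 1 ≤ L →
  (∀ y, c y = 0 ∨ 1 ≤ c y) → (∀ y, c y ≤ D) →
  (∀ y, c y < 2 ^ L) → ∑ y, c y ≤ 2 * D * k → 1 ≤ P → 0 ≤ σ → σ * P ≤ k → 0 ≤ Y →
  55296 * (L:ℝ) ^ 5 * D ^ 3 * σ ^ 2 * k ^ 2 ≤ Y ^ 2 → StemW c x L D σ P →
  ∑ y, (if y = x then 0 else c y ^ 2) ≤ 4 * L * (4 * L * D ^ 2 * σ + Y)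

/-- a dense graph of lenses with small groups does not exist -/
def CoreWS : Prop := ∀ (V α K : Type) [Fintype V] [LinearOrder α] (h : V → ℕ → α)
  (Γ : V → V → Prop) (lab : V → V → ℕ) (k1 k2 : V → V → K) (S L : ℕ) (N X P d σ M : ℝ), NoAlt h →
  Inj h → 0 < S → 4096 ≤ L → (Fintype.card V : ℝ) ^ 3 < 2 ^ L → (Fintype.card V : ℝ) ≤ N →
  0 < N → 1 ≤ X → 1 ≤ P → 0 < d → 0 < M → M ≤ σ * P → Num ((L:ℝ) ^ 9 * X ^ 4 * N) P d M →
  N * (d * σ) ≤ X * ed Γ →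
  (∀ a b, Γ a b → Lens h S (lab a b) a b) → (∀ a b, Γ a b → lab a b < 2 ^ L) →
  (∀ a, cnt (fun x => Γ a x) ≤ d * σ) → (∀ x, cnt (fun a => Γ a x) ≤ d * σ) →
  (∀ a x y, Γ a x → Γ a y → lab a x = lab a y → ¬ Anti h S (lab a x) x y →
    ¬ Anti h S (lab a x) y x → k1 a x = k1 a y ∨ k2 a x = k2 a y) →
  (∀ a u, cnt (fun x => Γ a x ∧ k1 a x = u) ≤ σ * P) →
  (∀ a u, cnt (fun x => Γ a x ∧ k2 a x = u) ≤ σ * P) →
  (∀ x u, cnt (fun a => Γ a x ∧ lab a x = u) ≤ σ * P) →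
  (∀ x, StemW (cc Γ k1 k2 x) x L (d * σ) σ P) →
  (∀ a, StemW (cc (fun x a => Γ a x) (fun x a => lab a x) (fun x a => lab a x) a) a L (d * σ) σ
    P) → False

/-- the choice of the scales -/
def ScaleWS : Prop := ∀ (V α : Type) [Fintype V] [LinearOrder α] (h : V → ℕ → α)
  (E : V → V → Prop) (t : V → V → ℕ) (L θ : ℕ) (N d : ℝ), Ct h E t L θ →
  (∀ a, cnt (fun y => E a y) ≤ d) → (∀ y, cnt (fun a => E a y) ≤ d) →
  (Fintype.card V : ℝ) ≤ N → (L:ℝ) ^ 38 * θ ≤ d → N * d ≤ L * ed E →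
  (∃ (F : V → V → Prop) (S' R : ℕ), (∀ a y, F a y → E a y) ∧ Sq F t S' R L θ (ed E) d ∧
    ed E ≤ 4 * (L:ℝ) ^ 2 * ed F) ∨
  ∃ (F : V → V → Prop) (S' R : ℕ), (∀ y a, F y a → E a y) ∧
    Sq F (fun y a => t a y) S' R L θ (ed E) d ∧ ed E ≤ 4 * (L:ℝ) ^ 2 * ed F

/-- the dichotomy of the dyadic boxes -/
def BoxWS : Prop := ∀ (V α : Type) [Fintype V] [LinearOrder α] (h : V → ℕ → α)
  (E : V → V → Prop) (t : V → V → ℕ) (S L θ : ℕ) (m : ℝ), Ct h E t L θ →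
  m ≤ 4 * (L:ℝ) ^ 2 * ed E →
  (∃ F : V → V → Prop, (∀ a y, F a y → E a y) ∧ m ≤ 8 * (L:ℝ) ^ 2 * ed F ∧ FewCo h F t S L θ) ∨
  ∃ (H0 H1 : V → V → Prop) (κ : V → V → ℕ × ℕ × ℕ × ℕ) (φ : V → ℕ → ℕ × ℕ),
    Bx h E t S L θ m H0 H1 κ φ

/-- the staircase -/
def TubeWS : Prop := ∀ (V α : Type) [Fintype V] [LinearOrder α] (h : V → ℕ → α)
  (E : V → V → Prop) (t : V → V → ℕ) (S' R L θ : ℕ) (m d : ℝ), Ct h E t L θ →
  Sq E t S' R L θ m d → m ≤ 8 * (L:ℝ) ^ 2 * ed E → FewCo h E t (S' * R) L θ →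
  ∃ (H : V → V → Prop) (row col : V → ℕ → ℕ), (∀ a y, H a y → E a y) ∧
    Tu h H t (S' * R) L θ m row col

/-- the case of the staircase -/
def CaseAWS : Prop := ∀ (V α : Type) [Fintype V] [LinearOrder α] (h : V → ℕ → α)
  (H : V → V → Prop) (t : V → V → ℕ) (S' R L θ j : ℕ) (N m d M : ℝ) (row col : V → ℕ → ℕ),
  Ct h H t L θ → Sq H t S' R L θ m d → Tu h H t (S' * R) L θ m row col →
  Gl H L θ j N m d M → False

/-- the case of the boxes -/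
def CaseBWS : Prop := ∀ (V α K : Type) [Fintype V] [LinearOrder α] (h : V → ℕ → α)
  (E : V → V → Prop) (t : V → V → ℕ) (S' R L θ j : ℕ) (N m d M : ℝ) (H0 H1 : V → V → Prop)
  (κ : V → V → K) (φ : V → ℕ → ℕ × ℕ), Ct h E t L θ → Sq E t S' R L θ m d →
  Bx h E t (S' * R) L θ m H0 H1 κ φ → Gl E L θ j N m d M → False

/-- dense regular families do not exist -/
def NoWS : Prop := ∀ (V α : Type) [Fintype V] [LinearOrder α] (h : V → ℕ → α)
  (E : V → V → Prop) (t : V → V → ℕ) (L θ j : ℕ) (N d M : ℝ), Ct h E t L θ →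
  (∀ a, cnt (fun y => E a y) ≤ d) → (∀ y, cnt (fun a => E a y) ≤ d) →
  Gl E L θ j N (ed E) d M → False

/-- the bound for families of lenses with the exponent `β` -/
def FamW (β : ℝ) (J c : ℕ) : Prop := ∀ L n : ℕ, 4096 ≤ L → J ≤ L → n ^ J < 2 ^ L →
  ∀ (V α : Type) [Fintype V] [LinearOrder α] (h : V → ℕ → α) (E : V → V → Prop) (t : V → V → ℕ),
  NoAlt h → Inj h → Fam h E t → (∀ a y, E a y → t a y < 2 ^ L) → Fintype.card V ≤ n →
  ed E ≤ (L:ℝ) ^ c * (n:ℝ) ^ β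

/-- the bound for all exponents above `sqrt 2` -/
def FamWS : Prop := ∀ β : ℝ, Real.sqrt 2 < β → ∃ J c : ℕ, FamW β J c

section Tools

variable {Ω : Type} [Fintype Ω] {A B W W' : Ω → Ω → Prop}

lemma wk_succ (j : ℕ) (u v : Ω) : wk A (j + 1) u v = ∑ x, if A x v then wk A j u x else 0 := rfl

lemma wk_nat (j : ℕ) (u v : Ω) : ∃ n : ℕ, wk A j u v = n := by
  induction j generalizing v with
  | zero => by_cases e : u = v <;> simp [wk, e]; exact ⟨1, by simp⟩; exact ⟨0, by simp⟩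
  | succ j ih =>
    choose f hf using ih
    refine ⟨∑ x, if A x v then f x else 0, ?_⟩
    rw [wk_succ]
    push_cast
    exact sum_congr rfl fun x _ => by rw [hf]

lemma wk_nonneg (j : ℕ) (u v : Ω) : 0 ≤ wk A j u v := by
  obtain ⟨n, e⟩ := wk_nat (A := A) j u v
  rw [e]; positivity

lemma wk_zero_or (j : ℕ) (u v : Ω) : wk A j u v = 0 ∨ 1 ≤ wk A j u v := by
  obtain ⟨n, e⟩ := wk_nat (A := A) j u v
  rw [e]
  rcases Nat.eq_zero_or_pos n with c | c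
  · left; simp [c]
  · right; exact_mod_cast c

lemma wk_succ' (j : ℕ) (u v : Ω) :
    wk A (j + 1) u v = ∑ x, if A u x then wk A j x v else 0 := by
  induction j generalizing v with
  | zero =>
    rw [wk_succ]
    simp only [wk]
    rw [sum_eq_single u (fun b _ c => by simp [Ne.symm c]) (by simp),
      sum_eq_single v (fun b _ c => by simp [c]) (by simp)]
    simp
  | succ j ih =>
    rw [wk_succ]
    simp only [ih]
    simp only [wk_succ]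
    have e1 : ∀ x, (if A x v then ∑ z, if A u z then wk A j z x else 0 else 0) =
        ∑ z, if A u z ∧ A x v then wk A j z x else 0 := fun x => by
      by_cases c : A x v <;> simp [c]
    have e2 : ∀ z, (if A u z then ∑ x, if A x v then wk A j z x else 0 else 0) =
        ∑ x, if A u z ∧ A x v then wk A j z x else 0 := fun z => by
      by_cases c : A u z <;> simp [c]
    simp only [e1, e2]
    exact sum_comm

lemma wk_symm (hs : ∀ u v, A u v → A v u) (j : ℕ) (u v : Ω) : wk A j u v = wk A j v u := by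
  induction j generalizing u v with
  | zero => simp only [wk, eq_comm]
  | succ j ih =>
    rw [wk_succ, wk_succ']
    refine sum_congr rfl fun x _ => ?_
    rw [ih u x, show A x v ↔ A v x from ⟨hs _ _, hs _ _⟩]

lemma wk_row {P : ℝ} (P0 : 0 ≤ P) (hP : ∀ x, cnt (fun v => A x v) ≤ P) (j : ℕ) (u : Ω) :
    ∑ v, wk A j u v ≤ P ^ j := by
  induction j with
  | zero => simp [wk]
  | succ j ih =>
    simp only [wk_succ]
    rw [sum_comm, pow_succ]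
    refine le_trans (sum_le_sum fun x _ => ?_) ((sum_mul _ _ P).symm.trans_le
      (mul_le_mul_of_nonneg_right ih P0))
    refine le_trans (le_of_eq ?_) (mul_le_mul_of_nonneg_left (hP x) (wk_nonneg j u x))
    rw [cnt_eq_sum, mul_sum]
    exact sum_congr rfl fun v _ => by split_ifs <;> simp

lemma wk_le {P : ℝ} (P0 : 0 ≤ P) (hP : ∀ x, cnt (fun v => A x v) ≤ P) (j : ℕ) (u v : Ω) :
    wk A j u v ≤ P ^ j :=
  (single_le_sum (fun x _ => wk_nonneg j u x) (mem_univ v)).trans (wk_row P0 hP j u)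

lemma wk_mono (hAB : ∀ u v, A u v → B u v) (j : ℕ) (u v : Ω) : wk A j u v ≤ wk B j u v := by
  induction j generalizing v with
  | zero => exact le_rfl
  | succ j ih =>
    refine sum_le_sum fun x _ => ?_
    by_cases c : A x v
    · rw [if_pos c, if_pos (hAB _ _ c)]; exact ih x
    · rw [if_neg c]; split_ifs
      · exact wk_nonneg _ _ _
      · exact le_rfl

/-- a function that is constant along edges is constant along walks -/
lemma wk_inv {C : Type} (φ : Ω → C) (hφ : ∀ u v, A u v → φ u = φ v) (j : ℕ) (u v : Ω)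
    (g : wk A j u v ≠ 0) : φ u = φ v := by
  induction j generalizing v with
  | zero => by_contra c; exact g (if_neg fun e => c (by rw [e]))
  | succ j ih =>
    obtain ⟨x, -, hx⟩ := exists_ne_zero_of_sum_ne_zero g
    by_cases c : A x v
    · rw [if_pos c] at hx; exact (ih x hx).trans (hφ _ _ c)
    · exact absurd (if_neg c) hx

lemma mass_mono (j : ℕ) (hW : ∀ u v, W u v → wk A j u v ≠ 0 → W' u v) :
    mass A W j ≤ mass A W' j := by
  refine sum_le_sum fun u _ => sum_le_sum fun v _ => ?_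
  by_cases c : W u v
  · by_cases e : wk A j u v = 0
    · simp [e]
    · rw [if_pos c, if_pos (hW u v c e)]
  · rw [if_neg c]; split_ifs
    · exact wk_nonneg _ _ _
    · exact le_rfl

lemma mass_flip (hs : ∀ u v, A u v → A v u) (j : ℕ) :
    mass A (fun u v => W v u) j = mass A W j := by
  unfold mass
  rw [sum_comm]
  exact sum_congr rfl fun u _ => sum_congr rfl fun v _ => by rw [wk_symm hs]

variable {V α K K' : Type} [Fintype V] [LinearOrder α] {F E : V → V → Prop} {κ : V → V → K}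
  {κ' : V → V → K'} {h : V → ℕ → α} {t : V → V → ℕ} {S' R L θ j : ℕ} {N m d M : ℝ}

lemma lo_eq {a y b z : V} (g : F a y) (g' : F b z) :
    lo F κ a y = lo F κ b z ↔ a = b ∧ κ a y = κ b z := by
  have e1 : ∃ x, F a x ∧ κ a x = κ a y := ⟨y, g, rfl⟩
  have e2 : ∃ x, F b x ∧ κ b x = κ b z := ⟨z, g', rfl⟩
  simp only [lo, dif_pos e1, dif_pos e2, Sum.inl.injEq, Prod.mk.injEq]
  constructor
  · rintro ⟨rfl, e⟩
    exact ⟨rfl, by rw [← e1.choose_spec.2, ← e2.choose_spec.2, e]⟩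
  · rintro ⟨rfl, e⟩
    refine ⟨rfl, ?_⟩
    congr 1
    rw [e]

lemma up_eq {a y b z : V} (g : F a y) (g' : F b z) :
    up F κ' a y = up F κ' b z ↔ y = z ∧ κ' a y = κ' b z := by
  have e1 : ∃ x, F x y ∧ κ' x y = κ' a y := ⟨a, g, rfl⟩
  have e2 : ∃ x, F x z ∧ κ' x z = κ' b z := ⟨b, g', rfl⟩
  simp only [up, dif_pos e1, dif_pos e2, Sum.inr.injEq, Prod.mk.injEq]
  constructor
  · rintro ⟨rfl, e⟩
    exact ⟨rfl, by rw [← e1.choose_spec.2, ← e2.choose_spec.2, e]⟩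
  · rintro ⟨rfl, e⟩
    refine ⟨rfl, ?_⟩
    congr 1
    rw [e]

lemma lo_ne_up (a y b z : V) : lo F κ a y ≠ up F κ' b z := Sum.inl_ne_inr

lemma Adj.symm {o o' : Om V} (g : Adj F κ κ' o o') : Adj F κ κ' o' o := by
  obtain ⟨a, y, g, e | e⟩ := g
  · exact ⟨a, y, g, Or.inr ⟨e.2, e.1⟩⟩
  · exact ⟨a, y, g, Or.inl ⟨e.2, e.1⟩⟩

lemma adj_edge {a y : V} (g : F a y) : Adj F κ κ' (lo F κ a y) (up F κ' a y) :=
  ⟨a, y, g, Or.inl ⟨rfl, rfl⟩⟩

lemma adj_lo {a y : V} {o : Om V} (g : F a y) :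
    Adj F κ κ' (lo F κ a y) o ↔ ∃ z, F a z ∧ κ a z = κ a y ∧ o = up F κ' a z := by
  constructor
  · rintro ⟨b, z, g', ⟨e, rfl⟩ | ⟨e, -⟩⟩
    · obtain ⟨rfl, e'⟩ := (lo_eq g g').1 e
      exact ⟨z, g', e'.symm, rfl⟩
    · exact absurd e (lo_ne_up _ _ _ _)
  · rintro ⟨z, g', e, rfl⟩
    exact ⟨a, z, g', Or.inl ⟨(lo_eq g g').2 ⟨rfl, e.symm⟩, rfl⟩⟩

lemma adj_up {a y : V} {o : Om V} (g : F a y) :
    Adj F κ κ' (up F κ' a y) o ↔ ∃ b, F b y ∧ κ' b y = κ' a y ∧ o = lo F κ b y := by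
  constructor
  · rintro ⟨b, z, g', ⟨e, -⟩ | ⟨e, rfl⟩⟩
    · exact absurd e.symm (lo_ne_up _ _ _ _)
    · obtain ⟨rfl, e'⟩ := (up_eq g g').1 e
      exact ⟨b, g', e'.symm, rfl⟩
  · rintro ⟨b, g', e, rfl⟩
    exact ⟨b, y, g', Or.inr ⟨(up_eq g g').2 ⟨rfl, e.symm⟩, rfl⟩⟩

lemma cnt_surj {X Y : Type} [Fintype X] [Fintype Y] {p : X → Prop} {q : Y → Prop} (f : X → Y)
    (hf : ∀ y, q y → ∃ x, p x ∧ f x = y) : cnt q ≤ cnt p := CaseB.surj f hf

/-- the degrees in the graph of groups are the sizes of the groups -/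
lemma adj_deg {P : ℝ} (P0 : 0 ≤ P) (h1 : ∀ a k, cnt (fun y => F a y ∧ κ a y = k) ≤ P)
    (h2 : ∀ y k, cnt (fun a => F a y ∧ κ' a y = k) ≤ P) (o : Om V) :
    cnt (fun v => Adj F κ κ' o v) ≤ P := by
  by_cases c : ∃ v, Adj F κ κ' o v
  · obtain ⟨v, a, y, g, ⟨rfl, -⟩ | ⟨rfl, -⟩⟩ := c
    · refine (cnt_surj (fun z => up F κ' a z) fun v hv => ?_).trans (h1 a (κ a y))
      obtain ⟨z, g', e, rfl⟩ := (adj_lo g).1 hv
      exact ⟨z, ⟨g', e⟩, rfl⟩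
    · refine (cnt_surj (fun b => lo F κ b y) fun v hv => ?_).trans (h2 y (κ' a y))
      obtain ⟨b, g', e, rfl⟩ := (adj_up g).1 hv
      exact ⟨b, ⟨g', e⟩, rfl⟩
  · rwa [cnt_zero fun v hv => c ⟨v, hv⟩]

lemma Ct.mono (c : Ct h E t L θ) (hF : ∀ a y, F a y → E a y) : Ct h F t L θ :=
  ⟨c.na, c.inj, c.fam.mono hF, fun a y g => c.tb a y (hF a y g), c.L0, c.cb, c.θ0⟩

lemma Ct.flip (c : Ct h E t L θ) :
    Ct (fun v s => OrderDual.toDual (h v s)) (fun y a => E a y) (fun y a => t a y) L θ :=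
  ⟨c.na.flip, c.inj.flip, c.fam.flip, fun y a g => c.tb a y g, c.L0, c.cb, c.θ0⟩

lemma Ct.num (c : Ct h E t L θ) : (4096:ℝ) ≤ L ∧ (L:ℝ) ^ 24 ≤ θ ∧ 1 ≤ L ∧ 1 ≤ θ := by
  have h1 := c.L0
  exact ⟨by exact_mod_cast h1, by exact_mod_cast c.θ0, by omega,
    (Nat.one_le_pow _ _ (by omega)).trans c.θ0⟩

lemma Sq.mono (s : Sq E t S' R L θ m d) (hF : ∀ a y, F a y → E a y) : Sq F t S' R L θ m d :=
  ⟨s.S0, s.R0, (ed_mono hF).trans s.em, fun a => (cnt_mono fun y => hF a y).trans (s.dL a),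
    fun y => (cnt_mono fun a => hF a y).trans (s.dU y),
    fun y w => (cnt_mono fun a g => ⟨hF a y g.1, g.2⟩).trans (s.q1 y w),
    fun y w => (cnt_mono fun a g => ⟨hF a y g.1, g.2⟩).trans (s.q2 y w),
    s.g1.imp fun _ g => ⟨g.1, fun a y e => g.2 a y (hF a y e)⟩,
    s.g2.imp fun _ g => ⟨g.1, fun a y e => g.2 a y (hF a y e)⟩,
    s.g3.imp fun _ g => ⟨g.1, fun a y e => g.2 a y (hF a y e)⟩⟩

lemma RectQ.mono {Φ : ℝ} (r : RectQ E M Φ) (hF : ∀ a y, F a y → E a y) : RectQ F M Φ :=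
  fun H A B g => r H A B fun a y e => ⟨hF a y (g a y e).1, (g a y e).2⟩

lemma RectQ.flip {Φ : ℝ} (r : RectQ E M Φ) : RectQ (fun y a => E a y) M Φ := fun H A B g => by
  rw [← ed_flip, mul_comm (cnt A / M + 1)]
  exact r _ B A fun a y e => ⟨(g y a e).1, (g y a e).2.2, (g y a e).2.1⟩

lemma Gl.mono (g : Gl E L θ j N m d M) (hF : ∀ a y, F a y → E a y) : Gl F L θ j N m d M := by
  obtain ⟨Kq, Φ, a1, a2, a3, a4, a5⟩ := g.ex
  exact ⟨g.jL, g.j1, g.cN, g.N0, g.M0, g.pd, g.nd, g.pw,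
    ⟨Kq, Φ, a1, a2, a3, a4, fun i hi => ⟨(a5 i hi).1.mono hF, (a5 i hi).2⟩⟩, g.nm⟩

lemma Gl.flip (g : Gl E L θ j N m d M) : Gl (fun y a => E a y) L θ j N m d M := by
  obtain ⟨Kq, Φ, a1, a2, a3, a4, a5⟩ := g.ex
  exact ⟨g.jL, g.j1, g.cN, g.N0, g.M0, g.pd, g.nd, g.pw,
    ⟨Kq, Φ, a1, a2, a3, a4, fun i hi => ⟨(a5 i hi).1.flip, (a5 i hi).2⟩⟩, g.nm⟩

end Tools

theorem noW (h1 : ScaleWS) (h2 : BoxWS) (h3 : CaseBWS) (h4 : TubeWS) (h6 : CaseAWS) : NoWS := by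
  have key : ∀ (V α : Type) [Fintype V] [LinearOrder α] (h : V → ℕ → α) (E : V → V → Prop)
      (t : V → V → ℕ) (S' R L θ j : ℕ) (N m d M : ℝ), Ct h E t L θ → Sq E t S' R L θ m d →
      Gl E L θ j N m d M → m ≤ 4 * (L:ℝ) ^ 2 * ed E → False := by
    intro V α _ _ h E t S' R L θ j N m d M c s g hm
    rcases h2 V α h E t (S' * R) L θ m c hm with ⟨F, sub, hF, few⟩ | ⟨H0, H1, κ, φ, b⟩
    · obtain ⟨H, row, col, sub', tb⟩ := h4 V α h F t S' R L θ m d (c.mono sub) (s.mono sub) hF few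
      exact h6 V α h H t S' R L θ j N m d M row col ((c.mono sub).mono sub')
        ((s.mono sub).mono sub') tb ((g.mono sub).mono sub')
    · exact h3 V α _ h E t S' R L θ j N m d M H0 H1 κ φ c s b g
  intro V α _ _ h E t L θ j N d M c dL dU g
  rcases h1 V α h E t L θ N d c dL dU g.cN g.pd g.nd with
    ⟨F, S', R, sub, s, hm⟩ | ⟨F, S', R, sub, s, hm⟩
  · exact key V α h F t S' R L θ j N _ d M (c.mono sub) s (g.mono sub) hm
  · exact key V αᵒᵈ _ F _ S' R L θ j N _ d M (c.flip.mono sub) s (g.flip.mono sub) hm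

end Pool.Agent.Lib.MP_65c801_co.U
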