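import Pool.Agent.Lib.MP_65c801_co.U.St

/-! Many walks in both regimes of the sizes of the groups inside the small windows. -/

namespace Pool.Agent.Lib.MP_65c801_co.U

open Finset Classical T

/-- many walks from a lower group to an upper group whose curve dips below the first curve -/
def TwoS : Prop := ∀ (V α K : Type) [Fintype V] [LinearOrder α] (h : V → ℕ → α)
  (F0 F : V → V → Prop) (t : V → V → ℕ) (S' R L θ j : ℕ) (m d : ℝ) (κ : V → V → K)
  (G : Finset (V × K)), Ct h F t L θ → Sq F t S' R L θ m d → (∀ a y, F a y → F0 a y) →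
  (∀ a y z, F0 a y → F0 a z → κ a y = κ a z → t a y / (S' * R) = t a z / (S' * R)) →
  (∀ a y, F a y → (a, κ a y) ∈ G) → (G.card:ℝ) * θ ≤ 8 * (L:ℝ) ^ 10 * ed F →
  m ≤ (L:ℝ) ^ 8 * ed F → j ≤ L →
  ed F / 4 * ((θ:ℝ) ^ 2 / (L:ℝ) ^ 13) ^ j ≤
    mass (Adj F0 κ fun a y => t a y / (S' * R)) (fun u v => ∃ a y b z τ, F a y ∧ F b z ∧
      u = lo F0 κ a y ∧ v = up F0 (fun a y => t a y / (S' * R)) b z ∧
      τ / (S' * R) = t a y / (S' * R) ∧ h z τ < h a τ) (2 * j + 1)

/-- a function of the edges that is constant on the groups is constant along walks -/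
lemma grp_inv {V K K' C : Type} [Fintype V] {F : V → V → Prop} {κ : V → V → K} {κ' : V → V → K'}
    (ψ : V → V → C) (h1 : ∀ a y z, F a y → F a z → κ a y = κ a z → ψ a y = ψ a z)
    (h2 : ∀ a b y, F a y → F b y → κ' a y = κ' b y → ψ a y = ψ b y) :
    ∃ φ : Om V → C, (∀ a y, F a y → φ (lo F κ a y) = ψ a y) ∧
      (∀ a y, F a y → φ (up F κ' a y) = ψ a y) ∧
      ∀ j u v, wk (Adj F κ κ') j u v ≠ 0 → φ u = φ v := by
  have e1 : ∀ a y, F a y → Sum.elim (fun p : V × V => ψ p.1 p.2) (fun p : V × V => ψ p.2 p.1)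
      (lo F κ a y) = ψ a y := fun a y g => by
    have e : ∃ x, F a x ∧ κ a x = κ a y := ⟨y, g, rfl⟩
    simp only [lo, dif_pos e, Sum.elim_inl]
    exact h1 _ _ _ e.choose_spec.1 g e.choose_spec.2
  have e2 : ∀ a y, F a y → Sum.elim (fun p : V × V => ψ p.1 p.2) (fun p : V × V => ψ p.2 p.1)
      (up F κ' a y) = ψ a y := fun a y g => by
    have e : ∃ x, F x y ∧ κ' x y = κ' a y := ⟨a, g, rfl⟩
    simp only [up, dif_pos e, Sum.elim_inr]
    exact h2 _ _ _ e.choose_spec.1 g e.choose_spec.2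
  refine ⟨_, e1, e2, fun j u v => wk_inv _ ?_ j u v⟩
  rintro u v ⟨a, y, g, ⟨rfl, rfl⟩ | ⟨rfl, rfl⟩⟩ <;> rw [e1 a y g, e2 a y g]

lemma two_loss {e X p q e' : ℝ} {j : ℕ} (X0 : 0 < X) (e0 : 0 ≤ e) (hj : (j:ℝ) ≤ X)
    (hp : X * p ≤ e / 8) (hq : X * q ≤ e / 8) (p0 : 0 ≤ p) (q0 : 0 ≤ q) (he : e ≤ 2 * e') :
    e / 4 + j * (p + q) ≤ e' := by
  have : (j:ℝ) * (p + q) ≤ X * (p + q) := mul_le_mul_of_nonneg_right hj (by positivity)
  linarith

lemma two_e1 {X T g : ℝ} (X0 : 0 < X) :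
    X ^ 8 * (X * (2 * (T / X ^ 21) * g)) = 2 * (g * (T / X ^ 12)) := by field_simp

lemma two_e2 {X T g : ℝ} (X0 : 0 < X) :
    X ^ 16 * (X * (2 * (T / X ^ 1) * g)) = 2 * (g * (X ^ 16 * T)) := by field_simp

lemma two_nn {p : ℝ} (p0 : 0 ≤ p) (n : ℕ) : 0 ≤ p * n := mul_nonneg p0 (Nat.cast_nonneg n)

theorem two (pl : PeelS) : TwoS := by
  intro V α K _ _ h F0 F t S' R L θ j m d κ G c s sub win hG gc big jL
  obtain ⟨n1, n2, -, n4⟩ := c.num
  have θ1 : (1:ℝ) ≤ θ := by exact_mod_cast n4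
  have jX : (j:ℝ) ≤ L := by exact_mod_cast jL
  have e0 : 0 ≤ ed F := cnt_nonneg _
  set X : ℝ := (L:ℝ) with hX
  set T : ℝ := (θ:ℝ) with hT
  have X0 : 0 < X := by linarith
  have X1 : 1 ≤ X := by linarith
  set κ2 : V → V → K × ℕ := fun a y => (κ a y, t a y / S') with hκ
  set η := T / X ^ 12 with hη
  have η0 : 0 < η := by positivity
  have Tη : T = X ^ 12 * η := by rw [hη]; field_simp
  have dd : ∀ {p q : ℕ}, p / S' = q / S' → p / (S' * R) = q / (S' * R) := fun e => by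
    rw [← Nat.div_div_eq_div_mul, ← Nat.div_div_eq_div_mul, e]
  set B : V → V → Prop := fun a y => η ≤ cnt (fun z => F a z ∧ κ2 a z = κ2 a y) with hB
  have sp := cnt_split (fun e : V × V => F e.1 e.2) (fun e => B e.1 e.2)
  have r1 : ∀ i : ℕ, i ≤ 24 → 1 ≤ T / X ^ i := fun i hi => by
    rw [le_div_iff₀ (by positivity), one_mul]
    exact (pow_le_pow_right₀ X1 hi).trans n2
  by_cases hc : ed F ≤ 2 * ed (fun a y => F a y ∧ B a y)
  · obtain ⟨G3, g1, g2⟩ := s.g3
    set G' := (univ.filter fun e : V × V => F e.1 e.2 ∧ B e.1 e.2).image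
      (fun e => (e.1, κ2 e.1 e.2)) with hG'
    have gc' : G'.card * η ≤ ed F := by
      refine cnt_fib_ge' (p := fun e : V × V => F e.1 e.2) (fun e => (e.1, κ2 e.1 e.2)) G' ?_
      intro k hk
      obtain ⟨e, he, rfl⟩ := mem_image.1 hk
      refine (mem_filter.1 he).2.2.trans (cnt_inj (fun z => (e.1, z)) ?_ ?_)
      · intro z hz; exact ⟨hz.1, Prod.ext rfl hz.2⟩
      · intro x y _ _ e; exact congrArg Prod.snd e
    have l1 : X * (4 * (X ^ 18 * T) * G3.card) ≤ ed F / 8 := by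
      have : X ^ 17 * (X * (4 * (X ^ 18 * T) * G3.card)) ≤ X ^ 17 * (ed F / 8) := by
        calc _ = 4 * (G3.card * (X ^ 36 * T)) := by ring
          _ ≤ 4 * (X ^ 8 * ed F) := by linarith
          _ = 32 * X ^ 8 * (ed F / 8) := by ring
          _ ≤ _ := mul_le_mul_of_nonneg_right (cpw X1 (by linarith) (by norm_num)) (by positivity)
      exact le_of_mul_le_mul_left this (by positivity)
    have l2 : X * (2 * (T / X ^ 21) * G'.card) ≤ ed F / 8 := by
      have : X ^ 8 * (X * (2 * (T / X ^ 21) * G'.card)) ≤ X ^ 8 * (ed F / 8) := by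
        calc _ = 2 * (G'.card * η) := two_e1 X0
          _ ≤ 16 * X ^ 0 * (ed F / 8) := by linarith
          _ ≤ _ := mul_le_mul_of_nonneg_right (cpw X1 (by linarith) (by norm_num)) (by positivity)
      exact le_of_mul_le_mul_left this (by positivity)
    have hc' : ed F ≤ 2 * ed (fun y a => F a y ∧ B a y) := by
      rwa [ed_flip (fun a y => F a y ∧ B a y)]
    have k := pl V αᵒᵈ ℕ (K × ℕ) (Om V) (fun v s => OrderDual.toDual (h v s))
      (fun y a => F a y ∧ B a y) (fun y a => t a y) S' R j (fun y a => t a y / (S' * R))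
      (fun y a => κ2 a y) G3 G' (X ^ 18 * T) (T / X ^ 21) (ed F / 4)
      (Adj F0 κ fun a y => t a y / (S' * R))
      (fun y a => up F0 (fun a y => t a y / (S' * R)) a y) (fun y a => lo F0 κ a y)
      c.na.flip c.inj.flip (c.fam.flip.mono fun y a g => g.1) s.S0 s.R0 (fun _ _ => Adj.symm)
      (fun y a g => (adj_edge (sub _ _ g.1)).symm)
      (fun y a b g g' e => ⟨(up_eq (sub _ _ g.1) (sub _ _ g'.1)).2 ⟨rfl, e⟩, e⟩)
      (fun y z a g g' e => ⟨(lo_eq (sub _ _ g.1) (sub _ _ g'.1)).2 ⟨rfl, congrArg Prod.fst e⟩,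
        congrArg Prod.snd e⟩)
      (fun y a z b g g' e => ((up_eq (sub _ _ g.1) (sub _ _ g'.1)).1 e).1)
      (fun y a z b g g' e => ((lo_eq (sub _ _ g.1) (sub _ _ g'.1)).1 e).1)
      (fun y k w => (cnt_mono fun a ha => ⟨ha.1.1, ha.2.2⟩).trans (s.q1 y w))
      (fun y a g => g2 a y g.1)
      (fun y a g => mem_image.2 ⟨(a, y), mem_filter.2 ⟨mem_univ _, g⟩, rfl⟩)
      (by positivity) (r1 21 (by norm_num)) (by positivity)
      (two_loss X0 e0 jX l1 l2 (two_nn (by positivity) _) (two_nn (by positivity) _) hc')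
    obtain ⟨φ, p1, p2, p3⟩ := grp_inv (F := F0) (κ := κ) (κ' := fun a y => t a y / (S' * R))
      (fun a y => t a y / (S' * R)) win (fun a b y _ _ e => e)
    refine le_trans (mul_le_mul_of_nonneg_left (pow_le_pow_left₀ (by positivity) ?_ j)
      (by positivity)) (k.trans ?_)
    · rw [div_le_iff₀ (by positivity)]
      calc T ^ 2 = T ^ 2 * 1 := by ring
        _ ≤ T ^ 2 * X ^ 10 := mul_le_mul_of_nonneg_left (one_le_pow₀ X1) (by positivity)
        _ = _ := by field_simp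
    · rw [← mass_flip (fun _ _ => Adj.symm)]
      refine mass_mono _ ?_
      rintro u v ⟨y, a, z, b, τ, g, g', rfl, rfl, e, l⟩ w
      have := p3 _ _ _ w
      rw [p1 _ _ (sub _ _ g'.1), p2 _ _ (sub _ _ g.1)] at this
      exact ⟨b, z, a, y, τ, g'.1, g.1, rfl, rfl, e.trans this.symm, l⟩
  · obtain ⟨G2, g1, g2⟩ := s.g2
    have hc' : ed F ≤ 2 * ed (fun a y => F a y ∧ ¬ B a y) := by
      unfold ed at hc ⊢
      linarith
    have l1 : X * (4 * η * G.card) ≤ ed F / 8 := by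
      have : X ^ 11 * (X * (4 * η * G.card)) ≤ X ^ 11 * (ed F / 8) := by
        calc _ = 4 * (G.card * T) := by rw [Tη]; ring
          _ ≤ 256 * X ^ 10 * (ed F / 8) := by linarith
          _ ≤ _ := mul_le_mul_of_nonneg_right (cpw X1 (by linarith) (by norm_num)) (by positivity)
      exact le_of_mul_le_mul_left this (by positivity)
    have l2 : X * (2 * (T / X ^ 1) * G2.card) ≤ ed F / 8 := by
      have : X ^ 16 * (X * (2 * (T / X ^ 1) * G2.card)) ≤ X ^ 16 * (ed F / 8) := by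
        calc _ = 2 * (G2.card * (X ^ 16 * T)) := two_e2 X0
          _ ≤ 16 * X ^ 8 * (ed F / 8) := by linarith
          _ ≤ _ := mul_le_mul_of_nonneg_right (cpw X1 (by linarith) (by norm_num)) (by positivity)
      exact le_of_mul_le_mul_left this (by positivity)
    have k := pl V α K ℕ (Om V) h (fun a y => F a y ∧ ¬ B a y) t S' R j κ
      (fun a y => t a y / S') G G2 η (T / X ^ 1) (ed F / 4)
      (Adj F0 κ fun a y => t a y / (S' * R)) (lo F0 κ) (up F0 fun a y => t a y / (S' * R))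
      c.na c.inj (c.fam.mono fun y a g => g.1) s.S0 s.R0 (fun _ _ => Adj.symm)
      (fun a y g => adj_edge (sub _ _ g.1))
      (fun a y z g g' e => ⟨(lo_eq (sub _ _ g.1) (sub _ _ g'.1)).2 ⟨rfl, e⟩,
        win _ _ _ (sub _ _ g.1) (sub _ _ g'.1) e⟩)
      (fun a b y g g' e => ⟨(up_eq (sub _ _ g.1) (sub _ _ g'.1)).2 ⟨rfl, dd e⟩, e⟩)
      (fun a y b z g g' e => ((lo_eq (sub _ _ g.1) (sub _ _ g'.1)).1 e).1)
      (fun a y b z g g' e => ((up_eq (sub _ _ g.1) (sub _ _ g'.1)).1 e).1)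
      ?_ (fun a y g => hG a y g.1) (fun a y g => g2 a y g.1) η0.le (r1 1 (by norm_num))
      (by positivity)
      (two_loss X0 e0 jX l1 l2 (two_nn (by positivity) _) (two_nn (by positivity) _) hc')
    · refine le_trans (le_of_eq ?_) (k.trans (mass_mono _ ?_))
      · congr 2
        rw [hη]; field_simp
      · rintro u v ⟨a, y, b, z, τ, g, g', r⟩ -
        exact ⟨a, y, b, z, τ, g.1, g'.1, r⟩
    · intro a k w
      by_cases ex : ∃ y, (F a y ∧ ¬ B a y) ∧ κ a y = k ∧ t a y / S' = w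
      · obtain ⟨y, ⟨-, h1⟩, h2, h3⟩ := ex
        exact (cnt_mono fun z hz => ⟨hz.1.1, Prod.ext (hz.2.1.trans h2.symm)
          (hz.2.2.trans h3.symm)⟩).trans (not_le.1 h1).le
      · rw [cnt_zero fun y hy => ex ⟨y, hy⟩]; exact η0.le

end Pool.Agent.Lib.MP_65c801_co.U
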